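import Pool.Agent.N584.PI.Opr
import Pool.Agent.R616.DI.Rea

/-!
The assembly: candidates for the number of events give the jump.
-/

set_option autoImplicit false

namespace Pool.Agent.N584.PI

open Nat.Partrec (Code)
open Encodable
open Pool.Agent.Helper446.Defs Pool.Agent.Helper446.Oracle
open Pool.Agent.H639.LU Pool.Agent.R616.DI Pool.Agent.Y579.PP Pool.Agent.H869R3.FN

theorem ASM_cntP (A : ℕ → Prop) (ee : List ℕ) : cntP A ee ≤ ee.length := by
  unfold cntP
  exact List.length_filter_le _ _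

/-- few candidates for the number of events give the jump -/
theorem ASM_jv (m : ℕ) (ν : ℕ → ℕ) (hν : Computable ν) (X V : ℕ → Bool) (hV : le X V)
    (Lr : List ℕ → Code → Prop) (hLr : REIn (St V) (fun p : List ℕ × Code => Lr p.1 p.2))
    (hcard : ∀ ee, ∃ L : Finset Code, L.card ≤ m ∧ ∀ l, Lr ee l → l ∈ L)
    (hred : ∀ ee : List ℕ, ee.length = m → ∃ l, Lr ee l ∧ ∃ A : ℕ → Bool, Red l V A ∧
      ∀ q < m, (A (ν (q + 1)) = true ↔ q + 1 ≤ cntP (J X) ee)) :
    le (ch (J X)) V := by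
  have hJX : REIn (St V) (J X) := K4.1 X V hV _ ((K5 K2).2.1 X)
  have hE := R2 K2 C1 K6 V m ν Lr hν hLr
  have hnJ : REIn (St V) (fun n => ¬ J X n) := by
    refine R1 (St V) (J X) hJX (Cand V m ν Lr) hE m ?_ ?_
    · intro ee hee
      obtain ⟨l, hl, A, hA, hA'⟩ := hred ee hee
      refine ⟨l, hl, fun q hq => ?_⟩
      have h4 := (V1 N1).2 l V A (ν (q + 1)) hA
      have h6 : (A (ν (q + 1))).toNat = if q + 1 ≤ cntP (J X) ee then 1 else 0 := by
        by_cases h7 : q + 1 ≤ cntP (J X) ee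
        · rw [if_pos h7, (hA' q hq).2 h7]
          rfl
        · rw [if_neg h7]
          have h8 : A (ν (q + 1)) = false := by
            rw [Bool.eq_false_iff]
            exact fun hh => h7 ((hA' q hq).1 hh)
          rw [h8]
          rfl
      rw [← h6]
      exact h4
    · intro ee hee
      obtain ⟨L, hL, hL'⟩ := hcard ee
      exact R3 N1 V1 V m ν Lr ee L hL hL'
  exact (K5 K2).2.2.1 V (J X) hJX hnJ

/-- preimages of clopen sets under the coding -/
def fF (d l : ℕ) : ℕ := pull (use1 (eD d)) (out1 (eD d)) l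

/-- preimages of clopen sets under the decoding -/
def gG (d l : ℕ) : ℕ := pull (use2 (mD d) (cD d) (νD d))
  (out2 (rD d) (mD d) (cD d) (νD d) (eD d)) l

theorem ASM_ofNat (q : Code × ℕ × List Code × List ℕ × List ℕ) :
    Denumerable.ofNat (Code × ℕ × List Code × List ℕ × List ℕ) (encode q) = q :=
  Denumerable.ofNat_encode q

theorem ASM_eD (q : Code × ℕ × List Code × List ℕ × List ℕ) : eD (encode q) = q.2.2.2.2 := by
  unfold eD
  rw [ASM_ofNat]

theorem ASM_rD (q : Code × ℕ × List Code × List ℕ × List ℕ) : rD (encode q) = q.1 := by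
  unfold rD
  rw [ASM_ofNat]

theorem ASM_mD (q : Code × ℕ × List Code × List ℕ × List ℕ) : mD (encode q) = q.2.1 := by
  unfold mD
  rw [ASM_ofNat]

theorem ASM_cD (q : Code × ℕ × List Code × List ℕ × List ℕ) :
    cD (encode q) = fun i => q.2.2.1.getD i Code.zero := by
  funext i
  unfold cD
  rw [ASM_ofNat]

theorem ASM_νD (q : Code × ℕ × List Code × List ℕ × List ℕ) :
    νD (encode q) = fun i => q.2.2.2.1.getD i 0 := by
  funext i
  unfold νD
  rw [ASM_ofNat]

theorem ASM_fF (q : Code × ℕ × List Code × List ℕ × List ℕ) (l : ℕ) :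
    fF (encode q) l = pull (use1 q.2.2.2.2) (out1 q.2.2.2.2) l := by
  unfold fF
  rw [ASM_eD]

theorem ASM_gG (q : Code × ℕ × List Code × List ℕ × List ℕ) (l : ℕ) :
    gG (encode q) l = pull (use2 q.2.1 (fun i => q.2.2.1.getD i Code.zero)
      (fun i => q.2.2.2.1.getD i 0)) (out2 q.1 q.2.1 (fun i => q.2.2.1.getD i Code.zero)
      (fun i => q.2.2.2.1.getD i 0) q.2.2.2.2) l := by
  unfold gG
  rw [ASM_eD, ASM_rD, ASM_mD, ASM_cD, ASM_νD]

/-- the property of the construction of permutations -/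
def PmOk (Pm : (ℕ → ℕ) → (ℕ → ℕ) → Equiv.Perm ℕ) : Prop :=
  ∀ (f g : ℕ → ℕ) (P Q : ℕ → Bool), (∀ l, Q l = P (f l)) → (∀ l, P l = Q (g l)) →
    ∀ p, Q p.unpair.2 = P (Pm f g p).unpair.2

/-- If the images of an oracle under the permutations of the family are treated with few
candidates, then the jump is computed. -/
theorem ASM_main (hC : P_CORE) (hP : P_PUL) {Pm : (ℕ → ℕ) → (ℕ → ℕ) → Equiv.Perm ℕ}
    (hPm : PmOk Pm) (r : Code) (z₀ : ℕ → Bool) (hr : ∀ X, le z₀ X → ¬ le (ch (W r X)) X)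
    {h : (ℕ → Bool) → ℕ → Bool} {H : Str → Str} (hH : Computable H)
    (hh : ∀ X t, H (seg X t) = seg (h X) t) (hb : ∀ X, le X (h X)) (m : ℕ) :
    ∃ (ζ : ℕ → Bool) (d : List ℕ → ℕ), Computable d ∧
      ∀ X : ℕ → Bool, (∀ n, X (2 * n) = ζ n) → ∀ V : ℕ → Bool, le X V →
      ∀ Lr : List ℕ → Code → Prop, REIn (St V) (fun p : List ℕ × Code => Lr p.1 p.2) →
      (∀ ee, ∃ L : Finset Code, L.card ≤ m ∧ ∀ l, Lr ee l → l ∈ L) →
      (∀ ee : List ℕ, ee.length = m → ∀ Y : ℕ → Bool,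
        (∀ p, hat Y p = hat X (Pm (fF (d ee)) (gG (d ee)) p)) →
        ∃ l, Lr ee l ∧ Red l V (ch (W r (h Y)))) →
      le (ch (J X)) V := by
  obtain ⟨r', hr'⟩ := t_OPR h H hH hh r
  obtain ⟨c, hc⟩ := OPR_red hH hh
  have hr0 : ∀ X, le z₀ X → ¬ le (ch (W r' X)) X := by
    intro X hX hle
    refine hr (h X) (le_trans' hX (hb X)) ?_
    rw [← ch_congr (hr' X)]
    exact le_trans' hle (hb X)
  obtain ⟨ζ, cs, νs, hcore⟩ := hC r' z₀ hr0 m
  refine ⟨ζ, fun ee => encode ((r', m, cs, νs, ee) : Code × ℕ × List Code × List ℕ × List ℕ),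
    by fun_prop, fun X hX V hV Lr hLr hcard hred => ?_⟩
  refine ASM_jv m (fun q => νs.getD (m - q) 0) ?_ X V hV Lr hLr hcard fun ee hee => ?_
  · exact ((Primrec.list_getD 0).to_comp).comp (Computable.const νs)
      (by fun_prop : Computable (fun q : ℕ => m - q))
  · obtain ⟨Y, hT1, hT2, hY⟩ := hcore X hX ee hee.le
    have key : ∀ p, hat Y p = hat X (Pm (fF (encode ((r', m, cs, νs, ee) :
        Code × ℕ × List Code × List ℕ × List ℕ))) (gG (encode ((r', m, cs, νs, ee) :
        Code × ℕ × List Code × List ℕ × List ℕ))) p) := by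
      intro p
      have e1 : ∀ l, val Y l = val X (fF (encode ((r', m, cs, νs, ee) :
          Code × ℕ × List Code × List ℕ × List ℕ)) l) := by
        intro l
        rw [hP _ _ X Y hT1 l, ASM_fF]
      have e2 : ∀ l, val X l = val Y (gG (encode ((r', m, cs, νs, ee) :
          Code × ℕ × List Code × List ℕ × List ℕ)) l) := by
        intro l
        rw [hP _ _ Y X hT2 l, ASM_gG]
      exact hPm _ _ (val X) (val Y) e1 e2 p
    obtain ⟨l, hl, hl'⟩ := hred ee hee Y key
    refine ⟨l, hl, ch (W r (h Y)), hl', fun q hq => ?_⟩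
    have h1 := hY (m - (q + 1)) (by omega)
    have h2 := ASM_cntP (J X) ee
    rw [ch_true]
    have h3 := hr' Y (νs.getD (m - (q + 1)) 0)
    show W r (h Y) (νs.getD (m - (q + 1)) 0) ↔ _
    rw [← h3, h1]
    omega

end Pool.Agent.N584.PI
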