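import Pool.Agent.N584.PI.Stm

/-!
The chain of games.
-/

set_option autoImplicit false

namespace Pool.Agent.N584.PI

open Nat.Partrec (Code)
open Encodable
open Pool.Agent.Helper446.Defs Pool.Agent.Helper446.Oracle
open Pool.Agent.H639.LU

theorem CHN_univ : Cofp Set.univ := by
  intro z
  refine ⟨z, Set.mem_univ _, fun p => p + 1, fun p y => y.getD p false, Primrec.succ, ?_, ?_, ?_⟩
  · exact Primrec.option_getD.comp (Primrec.list_getElem?.comp Primrec.snd Primrec.fst)
      (Primrec.const false)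
  · intro a b h
    exact Nat.add_le_add_right h 1
  · intro p s hs
    have hs' : p < s := hs
    have h1 : (seg z s)[p]? = some (z p) := by
      simp [seg, hs']
    simp [List.getD, h1]

theorem t_CHN (h1 : P_KEY) (h2 : P_NXT) : P_CHN := by
  classical
  intro r z₀ hr
  have hk := h1 r z₀ hr
  let Good := {F : Set (ℕ → Bool) // Clo F ∧ Cofp F}
  have hk' : ∀ F : Good, ∃ (n : ℕ) (c : Code), Monotone (uv c n) ∧
      QQ F.1 r n (uv c n) (bv c n) [] := fun F => hk F.1 F.2.2
  choose nn cc hm hq using hk'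
  let nxt : Good → Good := fun F => ⟨Nxt F.1 r (nn F) (uv (cc F) (nn F)) (bv (cc F) (nn F)),
    (h2 F.1 r (nn F) (cc F) F.2.1 (hq F)).1, (h2 F.1 r (nn F) (cc F) F.2.1 (hq F)).2.1⟩
  let G : ℕ → Good := fun i => Nat.rec ⟨Set.univ, fun _ _ => Set.mem_univ _, CHN_univ⟩
    (fun _ F => nxt F) i
  exact ⟨fun i => (G i).1, fun i => cc (G i), fun i => nn (G i), fun i => (G i).2.1,
    fun i => hm (G i), fun i => hq (G i), fun i => rfl⟩

end Pool.Agent.N584.PI
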