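import Pool.Agent.N584.PI.Stm
import Pool.Agent.H639.LU.C1
import Pool.Agent.Helper446.Comp

/-!
Project PI, CMP: computability of the preimages of clopen sets.
-/

set_option autoImplicit false

namespace Pool.Agent.N584.PI

open Nat.Partrec (Code)
open Encodable
open Pool.Agent.Helper446.Defs Pool.Agent.Helper446.Oracle Pool.Agent.Helper446.RE
open Pool.Agent.H639.LU

section general

variable {α β γ : Type} [Primcodable α] [Primcodable β] [Primcodable γ]

theorem CMP_flatMap {f : α → List β} {g : α → β → List γ} (hf : Computable f)
    (hg : Computable₂ g) : Computable fun a => (f a).flatMap (g a) := by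
  have h1 : Computable₂ fun (a : α) (p : List γ × β) => p.1 ++ g a p.2 := by
    have h2 : Computable fun x : α × List γ × β => g x.1 x.2.2 :=
      hg.comp Computable.fst (Computable.snd.comp Computable.snd)
    exact Computable.list_append.comp (Computable.fst.comp Computable.snd) h2
  refine (list_foldl hf (Computable.const []) h1).of_eq fun a => ?_
  have : ∀ (l : List β) (s : List γ),
      l.foldl (fun s b => s ++ g a b) s = s ++ l.flatMap (g a) := by
    intro l
    induction l with
    | nil => intro s; simp
    | cons b l ih => intro s; rw [List.foldl_cons, ih, List.flatMap_cons, List.append_assoc]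
  rw [this, List.nil_append]

theorem CMP_map {f : α → List β} {g : α → β → γ} (hf : Computable f) (hg : Computable₂ g) :
    Computable fun a => (f a).map (g a) := by
  have h1 : Computable₂ fun (a : α) (b : β) => [g a b] := by
    have h2 : Computable fun x : α × β => g x.1 x.2 := hg
    exact Computable.list_cons.comp h2 (Computable.const [])
  refine (CMP_flatMap hf h1).of_eq fun a => ?_
  rw [List.map_eq_flatMap]

theorem CMP_filter {f : α → List β} {p : α → β → Bool} (hf : Computable f)
    (hp : Computable₂ p) : Computable fun a => (f a).filter (p a) := by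
  have h1 : Computable₂ fun (a : α) (b : β) => bif p a b then [b] else [] := by
    have h2 : Computable fun x : α × β => p x.1 x.2 := hp
    exact Computable.cond h2 (Computable.list_cons.comp Computable.snd (Computable.const []))
      (Computable.const [])
  refine (CMP_flatMap hf h1).of_eq fun a => ?_
  generalize f a = l
  induction l with
  | nil => rfl
  | cons b l ih =>
    rw [List.flatMap_cons, ih, List.filter_cons]
    cases p a b <;> rfl

theorem CMP_sum {f : α → List ℕ} (hf : Computable f) : Computable fun a => (f a).sum := by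
  have h1 : Computable₂ fun (_ : α) (p : ℕ × ℕ) => p.1 + p.2 := by
    exact Primrec.nat_add.to_comp.comp (Computable.fst.comp Computable.snd)
      (Computable.snd.comp Computable.snd)
  refine (list_foldl hf (Computable.const 0) h1).of_eq fun a => ?_
  rw [List.sum_eq_foldl]

theorem CMP_range {f : α → ℕ} (hf : Computable f) : Computable fun a => List.range (f a) :=
  Primrec.list_range.to_comp.comp hf

theorem CMP_take {f : α → List β} {n : α → ℕ} (hf : Computable f) (hn : Computable n) :
    Computable fun a => (f a).take (n a) :=
  (Primrec.list_take (α := β)).to_comp.comp hn hf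

theorem CMP_getD {f : α → List β} {n : α → ℕ} (d : β) (hf : Computable f) (hn : Computable n) :
    Computable fun a => (f a).getD (n a) d :=
  (Primrec.list_getD d).to_comp.comp hf hn

theorem CMP_replicate {n : α → ℕ} (hn : Computable n) :
    Computable fun a => List.replicate (n a) true := by
  refine (CMP_map (f := fun a => List.range (n a)) (g := fun _ _ => true) (CMP_range hn)
    (Computable.const true)).of_eq fun a => ?_
  rw [List.map_const', List.length_range]

theorem CMP_beq {f g : α → β} [DecidableEq β] (hf : Computable f) (hg : Computable g) :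
    Computable fun a => decide (f a = g a) :=
  (Primrec.eq (α := β)).decide.to_comp.comp hf hg

theorem CMP_lt {f g : α → ℕ} (hf : Computable f) (hg : Computable g) :
    Computable fun a => decide (f a < g a) :=
  Primrec.nat_lt.decide.to_comp.comp hf hg

end general

section basic

variable {α : Type} [Primcodable α]

theorem CMP_inC {L : α → List Str} {w : α → Str} (hL : Computable L) (hw : Computable w) :
    Computable fun a => inC (L a) (w a) := by
  have h1 : Computable₂ fun (a : α) (p : Bool × Str) =>
      (p.1 || decide ((w a).take p.2.length = p.2)) := by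
    refine cor (f := fun x : α × Bool × Str => x.2.1)
      (g := fun x : α × Bool × Str => decide ((w x.1).take x.2.2.length = x.2.2))
      (Computable.fst.comp Computable.snd) ?_
    exact CMP_beq (CMP_take (hw.comp Computable.fst)
      (Computable.list_length.comp (Computable.snd.comp Computable.snd)))
      (Computable.snd.comp Computable.snd)
  refine (list_foldl hL (Computable.const false) h1).of_eq fun a => ?_
  unfold inC
  have : ∀ (l : List Str) (s : Bool),
      l.foldl (fun s b => (s || decide ((w a).take b.length = b))) s =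
        (s || l.any fun σ => decide (σ <+: w a)) := by
    intro l
    induction l with
    | nil => intro s; simp
    | cons b l ih =>
      intro s
      rw [List.foldl_cons, ih, List.any_cons, Bool.or_assoc]
      congr 2
      rw [decide_eq_decide, List.prefix_iff_eq_take]
      exact eq_comm
  rw [this, Bool.false_or]

theorem CMP_strs {n : α → ℕ} (hn : Computable n) : Computable fun a => strs (n a) := by
  have h1 : Computable₂ fun (_ : α) (p : ℕ × List Str) =>
      p.2.flatMap (fun s => [s ++ [false], s ++ [true]]) := by
    refine CMP_flatMap (f := fun x : α × ℕ × List Str => x.2.2)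
      (g := fun _ s => [s ++ [false], s ++ [true]]) (Computable.snd.comp Computable.snd) ?_
    unfold Computable₂
    have hs : Computable fun x : (α × ℕ × List Str) × Str => x.2 := Computable.snd
    have ha : Computable fun x : (α × ℕ × List Str) × Str => x.2 ++ [false] :=
      Computable.list_append.comp hs (Computable.const [false])
    have hb : Computable fun x : (α × ℕ × List Str) × Str => x.2 ++ [true] :=
      Computable.list_append.comp hs (Computable.const [true])
    exact Computable.list_cons.comp ha (Computable.list_cons.comp hb (Computable.const []))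
  refine (Computable.nat_rec hn (Computable.const [[]]) h1).of_eq fun a => ?_
  generalize n a = k
  induction k with
  | zero => rfl
  | succ k ih =>
    show List.flatMap _ _ = _
    rw [ih]
    rfl

theorem CMP_ml {L : α → List Str} (hL : Computable L) : Computable fun a => ml (L a) := by
  have h1 : Primrec fun l : List Str => ml l := by
    unfold ml
    refine Primrec.list_foldr (f := fun l : List Str => l.map List.length) (g := fun _ => 0)
      (h := fun _ p => max p.1 p.2) ?_ (Primrec.const 0) ?_
    · exact Primrec.list_map Primrec.id (Primrec.list_length.comp Primrec.snd).to₂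
    · exact Primrec.nat_max.comp (Primrec.fst.comp Primrec.snd) (Primrec.snd.comp Primrec.snd)
  exact h1.to_comp.comp hL

theorem CMP_dL {l : α → ℕ} (hl : Computable l) : Computable fun a => dL (l a) := by
  unfold dL
  exact Primrec.option_getD.to_comp.comp (Computable.decode.comp hl) (Computable.const [])

theorem CMP_pull {B : ℕ → ℕ → ℕ} {Θ : ℕ → ℕ → Str → Str}
    (hB : Computable fun p : ℕ × ℕ => B p.1 p.2)
    (hΘ : Computable fun p : ℕ × ℕ × Str => Θ p.1 p.2.1 p.2.2) :
    Computable₂ fun d l : ℕ => pull (B d) (Θ d) l := by
  unfold pull Computable₂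
  have hd : Computable fun x : ℕ × ℕ => x.1 := Computable.fst
  have hl : Computable fun x : ℕ × ℕ => dL x.2 := CMP_dL Computable.snd
  have hm : Computable fun x : ℕ × ℕ => ml (dL x.2) := CMP_ml hl
  have hB' : Computable fun x : ℕ × ℕ => B x.1 (ml (dL x.2)) := hB.comp (hd.pair hm)
  refine Computable.encode.comp (CMP_filter (CMP_strs hB') ?_)
  unfold Computable₂
  have hΘ' : Computable fun x : (ℕ × ℕ) × Str => Θ x.1.1 (ml (dL x.1.2)) x.2 :=
    hΘ.comp ((hd.comp Computable.fst).pair ((hm.comp Computable.fst).pair Computable.snd))
  exact CMP_inC (hl.comp Computable.fst) hΘ'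

theorem CMP_ofNat {d : α → ℕ} (hd : Computable d) :
    Computable fun a => Denumerable.ofNat (Code × ℕ × List Code × List ℕ × List ℕ) (d a) :=
  (Computable.ofNat _).comp hd

theorem CMP_rD {d : α → ℕ} (hd : Computable d) : Computable fun a => rD (d a) :=
  Computable.fst.comp (CMP_ofNat hd)

theorem CMP_mD {d : α → ℕ} (hd : Computable d) : Computable fun a => mD (d a) :=
  Computable.fst.comp (Computable.snd.comp (CMP_ofNat hd))

theorem CMP_cD {d i : α → ℕ} (hd : Computable d) (hi : Computable i) :
    Computable fun a => cD (d a) (i a) :=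
  CMP_getD Code.zero (Computable.fst.comp (Computable.snd.comp (Computable.snd.comp
    (CMP_ofNat hd)))) hi

theorem CMP_nD {d i : α → ℕ} (hd : Computable d) (hi : Computable i) :
    Computable fun a => νD (d a) (i a) :=
  CMP_getD 0 (Computable.fst.comp (Computable.snd.comp (Computable.snd.comp
    (Computable.snd.comp (CMP_ofNat hd))))) hi

theorem CMP_eD {d : α → ℕ} (hd : Computable d) : Computable fun a => eD (d a) :=
  Computable.snd.comp (Computable.snd.comp (Computable.snd.comp
    (Computable.snd.comp (CMP_ofNat hd))))

theorem CMP_use1 {e : α → List ℕ} {t : α → ℕ} (he : Computable e) (ht : Computable t) :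
    Computable fun a => use1 (e a) (t a) := by
  unfold use1
  have h1 : Computable fun a => encode (e a, List.replicate (t a) true, t a) :=
    Computable.encode.comp (he.pair ((CMP_replicate ht).pair ht))
  exact cadd (cadd (cmul (Computable.const 2) h1) ht) (Computable.const 1)

theorem CMP_out1 {e : α → List ℕ} {t : α → ℕ} {w : α → Str} (he : Computable e)
    (ht : Computable t) (hw : Computable w) : Computable fun a => out1 (e a) (t a) (w a) := by
  unfold out1
  refine CMP_map (CMP_range ht) ?_
  unfold Computable₂
  have hw' : Computable fun x : α × ℕ => w x.1 := hw.comp Computable.fst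
  have hn : Computable fun x : α × ℕ => x.2 := Computable.snd
  refine CMP_getD false hw' ?_
  refine cmul (Computable.const 2) (Computable.encode.comp ((he.comp Computable.fst).pair
    ((CMP_take hw' ?_).pair hn)))
  exact cadd hn (Computable.const 1)

theorem CMP_uv (h : P_EV1) {c : α → Code} {n l : α → ℕ} (hc : Computable c) (hn : Computable n)
    (hl : Computable l) : Computable fun a => uv (c a) (n a) (l a) := by
  unfold uv
  exact h.comp (hc.pair (Computable.encode.comp ((Computable.const 0).pair (hn.pair hl))))

theorem CMP_bv (h : P_EV1) {c : α → Code} {n : α → ℕ} {s y : α → Str} (hc : Computable c)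
    (hn : Computable n) (hs : Computable s) (hy : Computable y) :
    Computable fun a => bv (c a) (n a) (s a) (y a) := by
  unfold bv
  have h1 : Computable fun a => ev (c a) (encode ((1 : ℕ), n a, s a, y a)) :=
    h.comp (hc.pair (Computable.encode.comp ((Computable.const 1).pair (hn.pair (hs.pair hy)))))
  refine (CMP_beq h1 (Computable.const 1)).of_eq fun a => ?_
  rw [Bool.eq_iff_iff, decide_eq_true_eq, beq_iff_eq]

theorem CMP_nx {v : α → ℕ → ℕ} {l : α → ℕ} (hv : Computable fun x : α × ℕ => v x.1 x.2)
    (hl : Computable l) : Computable fun a => nx (v a) (l a) := by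
  unfold nx
  exact cmax (cadd hl (Computable.const 1)) (hv.comp (Computable.id.pair hl))

theorem CMP_lev {v : α → ℕ → ℕ} {t : α → ℕ} (hv : Computable fun x : α × ℕ => v x.1 x.2)
    (ht : Computable t) : Computable fun a => lev (v a) (t a) := by
  unfold lev
  refine Computable.nat_rec (h := fun a p => nx (v a) p.2) ht (Computable.const 0) ?_
  unfold Computable₂
  refine CMP_nx (α := α × ℕ × ℕ) (v := fun x => v x.1) ?_ (Computable.snd.comp Computable.snd)
  exact hv.comp ((Computable.fst.comp Computable.fst).pair Computable.snd)

theorem CMP_cnt {e : α → List ℕ} {x : α → Str} (he : Computable e) (hx : Computable x) :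
    Computable fun a => cnt (e a) (x a) := by
  unfold cnt
  refine Computable.list_length.comp (CMP_filter he ?_)
  unfold Computable₂
  exact Computable.comp (f := fun p : Str × ℕ => kst p.1 p.2) (g := fun p : α × ℕ => (x p.1, p.2))
    C1_kst.to_comp ((hx.comp Computable.fst).pair Computable.snd)

theorem CMP_hst {r : α → Code} {x : α → Str} {n : α → ℕ} (hr : Computable r) (hx : Computable x)
    (hn : Computable n) : Computable fun a => hst (r a) (x a) (n a) :=
  C1_hst.to_comp.comp (hr.pair (hx.pair hn))

theorem CMP_Go {d i : α → ℕ} {x y : α → Str} (hd : Computable d) (hi : Computable i)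
    (hx : Computable x) (hy : Computable y) :
    Computable fun a => decide (Go (rD (d a)) (mD (d a)) (νD (d a)) (eD (d a)) (i a) (x a) (y a)) := by
  have h1 : Computable fun a => (decide (0 < i a) && (decide (mD (d a) - i a < cnt (eD (d a)) (x a)) &&
      (decide (i a = mD (d a)) || hst (rD (d a)) (y a) (νD (d a) (i a))))) := by
    refine cand (CMP_lt (Computable.const 0) hi) (cand (CMP_lt (csub (CMP_mD hd) hi)
      (CMP_cnt (CMP_eD hd) hx)) (cor (CMP_beq hi (CMP_mD hd)) ?_))
    exact CMP_hst (CMP_rD hd) hy (CMP_nD hd hi)
  refine h1.of_eq fun a => ?_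
  rw [Bool.eq_iff_iff, decide_eq_true_eq]
  unfold Go
  simp only [Bool.and_eq_true, decide_eq_true_eq, Bool.or_eq_true]

theorem CMP_dstp (h : P_EV1) {d : α → ℕ} {w : α → Str} {q : α → Str × ℕ × ℕ}
    (hd : Computable d) (hw : Computable w) (hq : Computable q) :
    Computable fun a => dstp (rD (d a)) (mD (d a)) (cD (d a)) (νD (d a)) (eD (d a)) (w a) (q a) := by
  have q1 : Computable fun a => (q a).1 := Computable.fst.comp hq
  have q2 : Computable fun a => (q a).2.1 := Computable.fst.comp (Computable.snd.comp hq)
  have q3 : Computable fun a => (q a).2.2 := Computable.snd.comp (Computable.snd.comp hq)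
  have hl : Computable fun a => nx (uv (cD (d a) (q a).2.1) (νD (d a) (q a).2.1)) (q a).2.2 := by
    refine CMP_nx (v := fun a => uv (cD (d a) (q a).2.1) (νD (d a) (q a).2.1)) ?_ q3
    exact CMP_uv h (CMP_cD (hd.comp Computable.fst) (q2.comp Computable.fst))
      (CMP_nD (hd.comp Computable.fst) (q2.comp Computable.fst)) Computable.snd
  have hb := CMP_bv h (CMP_cD hd q2) (CMP_nD hd q2) (CMP_take hw q3) (CMP_take hw hl)
  have hx : Computable fun a => (q a).1 ++ [bv (cD (d a) (q a).2.1) (νD (d a) (q a).2.1)
      ((w a).take (q a).2.2) ((w a).take (nx (uv (cD (d a) (q a).2.1) (νD (d a) (q a).2.1))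
        (q a).2.2))] :=
    Computable.list_append.comp q1 (Computable.list_cons.comp hb (Computable.const []))
  have q2' : Computable fun a => (q a).2.1 - 1 := csub q2 (Computable.const 1)
  have hlev : Computable fun a => lev (uv (cD (d a) ((q a).2.1 - 1)) (νD (d a) ((q a).2.1 - 1)))
      (nx (uv (cD (d a) (q a).2.1) (νD (d a) (q a).2.1)) (q a).2.2) := by
    refine CMP_lev (v := fun a => uv (cD (d a) ((q a).2.1 - 1)) (νD (d a) ((q a).2.1 - 1))) ?_ hl
    exact CMP_uv h (CMP_cD (hd.comp Computable.fst) (q2'.comp Computable.fst))
      (CMP_nD (hd.comp Computable.fst) (q2'.comp Computable.fst)) Computable.snd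
  have hgo := CMP_Go hd q2 hx (CMP_take hw hl)
  refine (Computable.cond hgo (hx.pair (q2'.pair hlev)) (hx.pair (q2.pair hl))).of_eq fun a => ?_
  unfold dstp
  simp only [cond_eq_ite, decide_eq_true_eq]

theorem CMP_out2 (h : P_EV1) {d t : α → ℕ} {w : α → Str}
    (hd : Computable d) (ht : Computable t) (hw : Computable w) :
    Computable fun a => out2 (rD (d a)) (mD (d a)) (cD (d a)) (νD (d a)) (eD (d a)) (t a) (w a) := by
  unfold out2 dmach
  refine Computable.fst.comp ?_
  refine Computable.nat_rec (h := fun a p =>
    dstp (rD (d a)) (mD (d a)) (cD (d a)) (νD (d a)) (eD (d a)) (w a) p.2) ht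
    ((Computable.const []).pair ((CMP_mD hd).pair (Computable.const 0))) ?_
  unfold Computable₂
  exact CMP_dstp h (hd.comp Computable.fst) (hw.comp Computable.fst)
    (Computable.snd.comp Computable.snd)

theorem CMP_use2 (h : P_EV1) {d t : α → ℕ} (hd : Computable d) (ht : Computable t) :
    Computable fun a => use2 (mD (d a)) (cD (d a)) (νD (d a)) (t a) := by
  unfold use2
  refine Computable.nat_rec (h := fun a (p : ℕ × ℕ) => ((List.range (mD (d a) + 1)).map fun i =>
    ((List.range (mD (d a) + 1)).map fun j => lev (uv (cD (d a) j) (νD (d a) j))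
      (nx (uv (cD (d a) i) (νD (d a) i)) p.2)).sum).sum) ht (Computable.const 0) ?_
  unfold Computable₂
  have hd1 : Computable fun x : α × ℕ × ℕ => d x.1 := hd.comp Computable.fst
  have hb1 : Computable fun x : α × ℕ × ℕ => x.2.2 := Computable.snd.comp Computable.snd
  refine CMP_sum (CMP_map (f := fun x : α × ℕ × ℕ => List.range (mD (d x.1) + 1))
    (g := fun x i => ((List.range (mD (d x.1) + 1)).map fun j =>
      lev (uv (cD (d x.1) j) (νD (d x.1) j)) (nx (uv (cD (d x.1) i) (νD (d x.1) i)) x.2.2)).sum)
    (CMP_range (cadd (CMP_mD hd1) (Computable.const 1))) ?_)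
  unfold Computable₂
  have hd2 : Computable fun y : (α × ℕ × ℕ) × ℕ => d y.1.1 := hd1.comp Computable.fst
  have hb2 : Computable fun y : (α × ℕ × ℕ) × ℕ => y.1.2.2 := hb1.comp Computable.fst
  have hi2 : Computable fun y : (α × ℕ × ℕ) × ℕ => y.2 := Computable.snd
  refine CMP_sum (CMP_map (f := fun y : (α × ℕ × ℕ) × ℕ => List.range (mD (d y.1.1) + 1))
    (g := fun y j => lev (uv (cD (d y.1.1) j) (νD (d y.1.1) j))
      (nx (uv (cD (d y.1.1) y.2) (νD (d y.1.1) y.2)) y.1.2.2))
    (CMP_range (cadd (CMP_mD hd2) (Computable.const 1))) ?_)
  unfold Computable₂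
  have hd3 : Computable fun z : ((α × ℕ × ℕ) × ℕ) × ℕ => d z.1.1.1 := hd2.comp Computable.fst
  have hb3 : Computable fun z : ((α × ℕ × ℕ) × ℕ) × ℕ => z.1.1.2.2 := hb2.comp Computable.fst
  have hi3 : Computable fun z : ((α × ℕ × ℕ) × ℕ) × ℕ => z.1.2 := hi2.comp Computable.fst
  have hj3 : Computable fun z : ((α × ℕ × ℕ) × ℕ) × ℕ => z.2 := Computable.snd
  refine CMP_lev (v := fun z : ((α × ℕ × ℕ) × ℕ) × ℕ =>
    uv (cD (d z.1.1.1) z.2) (νD (d z.1.1.1) z.2)) ?_ ?_
  · exact CMP_uv h (CMP_cD (hd3.comp Computable.fst) (hj3.comp Computable.fst))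
      (CMP_nD (hd3.comp Computable.fst) (hj3.comp Computable.fst)) Computable.snd
  · refine CMP_nx (v := fun z : ((α × ℕ × ℕ) × ℕ) × ℕ =>
      uv (cD (d z.1.1.1) z.1.2) (νD (d z.1.1.1) z.1.2)) ?_ hb3
    exact CMP_uv h (CMP_cD (hd3.comp Computable.fst) (hi3.comp Computable.fst))
      (CMP_nD (hd3.comp Computable.fst) (hi3.comp Computable.fst)) Computable.snd

end basic

theorem t_CMP (h : P_EV1) : P_CMP := by
  constructor
  · refine CMP_pull (B := fun d => use1 (eD d)) (Θ := fun d => out1 (eD d)) ?_ ?_
    · exact CMP_use1 (CMP_eD Computable.fst) Computable.snd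
    · exact CMP_out1 (CMP_eD Computable.fst) (Computable.fst.comp Computable.snd)
        (Computable.snd.comp Computable.snd)
  · refine CMP_pull (B := fun d => use2 (mD d) (cD d) (νD d))
      (Θ := fun d => out2 (rD d) (mD d) (cD d) (νD d) (eD d)) ?_ ?_
    · exact CMP_use2 h Computable.fst Computable.snd
    · exact CMP_out2 h Computable.fst (Computable.fst.comp Computable.snd)
        (Computable.snd.comp Computable.snd)

end Pool.Agent.N584.PI
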