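import Pool.Agent.N584.PI.Stm

/-!
The coding along a chain of games.
-/

set_option autoImplicit false

namespace Pool.Agent.N584.PI

open Nat.Partrec (Code)
open Encodable
open Pool.Agent.Helper446.Defs Pool.Agent.Helper446.Oracle
open Pool.Agent.H639.LU

theorem CORE_seglen (X : ℕ → Bool) (t : ℕ) : (seg X t).length = t := by simp [seg]

theorem CORE_segsucc (X : ℕ → Bool) (t : ℕ) : seg X (t + 1) = seg X t ++ [X t] := by
  simp [seg, List.range_succ]

theorem CORE_segpre (X : ℕ → Bool) {s t : ℕ} (h : s ≤ t) : seg X s <+: seg X t := by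
  obtain ⟨k, rfl⟩ := Nat.exists_eq_add_of_le h
  induction k with
  | zero => exact List.prefix_rfl
  | succ k ih =>
    rw [← Nat.add_assoc, CORE_segsucc]
    exact (ih (by omega)).trans (List.prefix_append _ _)

theorem lev_ge (v : ℕ → ℕ) (t : ℕ) : t ≤ lev v t := by
  induction t with
  | zero => exact Nat.zero_le _
  | succ t ih =>
    change t + 1 ≤ nx v (lev v t)
    unfold nx
    exact le_max_of_le_left (by omega)

theorem CORE_go {r : Code} {m : ℕ} {ν ν' : ℕ → ℕ} {ee : List ℕ} {i : ℕ} {x y : Str}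
    (h : ν' i = ν i) : Go r m ν' ee i x y ↔ Go r m ν ee i x y := by
  unfold Go
  rw [h]

theorem CORE_enc {r : Code} {c c' : ℕ → Code} {ν ν' : ℕ → ℕ} {m : ℕ} {ee : List ℕ}
    {st : Str → ℕ × Str} (h : Enc r c ν m ee st) (hc : ∀ i ≤ m, c' i = c i)
    (hν : ∀ i ≤ m, ν' i = ν i) : Enc r c' ν' m ee st := by
  refine ⟨h.init, fun x b => ?_, h.le, fun x j hj => ?_, fun x j hj hj' => ?_, fun X => ?_⟩
  · have hi := h.le x
    rw [hc _ hi, hν _ hi, hc ((st x).1 - 1) (by omega), hν ((st x).1 - 1) (by omega)]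
    obtain ⟨y', h1, h2, h3⟩ := h.step x b
    exact ⟨y', h1, fun hg => h2 ((CORE_go (hν _ hi)).1 hg),
      fun hg => h3 fun hg' => hg ((CORE_go (hν _ hi)).2 hg')⟩
  · have hi := h.le x
    rw [hν j (by omega)]
    exact h.notyet x j hj
  · rw [hν j (by omega)]
    exact h.done x j hj hj'
  · obtain ⟨T, hT⟩ := h.fin X
    refine ⟨T, fun t ht => ⟨(hT t ht).1, fun h1 => ?_⟩⟩
    rw [hν _ (by omega)]
    exact (hT t ht).2 h1

theorem CORE_pre {r : Code} {c : ℕ → Code} {ν : ℕ → ℕ} {m : ℕ} {ee : List ℕ}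
    {st : Str → ℕ × Str} (h : Enc r c ν m ee st) (x : Str) (b : Bool) :
    (st x).2 <+: (st (x ++ [b])).2 ∧ (st x).2.length < (st (x ++ [b])).2.length := by
  obtain ⟨y', ⟨h1, h2, -⟩, h3, h4⟩ := h.step x b
  have h5 : (st x).2.length < y'.length := by
    rw [h2]; unfold nx; exact lt_max_of_lt_left (by omega)
  by_cases hg : Go r m ν ee (st x).1 (x ++ [b]) y'
  · obtain ⟨-, h6, -⟩ := h3 hg
    exact ⟨h1.trans h6, lt_of_lt_of_le h5 h6.length_le⟩
  · rw [h4 hg]
    exact ⟨h1, h5⟩

theorem CORE_len {r : Code} {c : ℕ → Code} {ν : ℕ → ℕ} {m : ℕ} {ee : List ℕ}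
    {st : Str → ℕ × Str} (h : Enc r c ν m ee st) (x : Str) : x.length ≤ (st x).2.length := by
  induction x using List.reverseRecOn with
  | nil => simp
  | append_singleton x b ih =>
    have := (CORE_pre h x b).2
    rw [List.length_append, List.length_singleton]
    omega

theorem t_CORE (h1 : P_CHN) (h2 : P_ENC) (h3 : P_DM) (h4 : P_Z1) : P_CORE := by
  classical
  intro r z₀ hr m
  obtain ⟨G, c, ν, hch⟩ := h1 r z₀ hr
  have h5 : ∀ ee : List ℕ, ∃ Yp : Str → Str, (∀ x b, Yp x <+: Yp (x ++ [b])) ∧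
      (∀ x, x.length ≤ (Yp x).length) ∧
      (ee.length ≤ m → ∃ st, Enc r c ν m ee st ∧ Yp = fun x => (st x).2) := by
    intro ee
    by_cases hee : ee.length ≤ m
    · obtain ⟨st, hE⟩ := h2 r G c ν hch m ee hee
      exact ⟨fun x => (st x).2, fun x b => (CORE_pre hE x b).1, CORE_len hE,
        fun _ => ⟨st, hE, rfl⟩⟩
    · exact ⟨fun x => x, fun x b => List.prefix_append _ _, fun x => le_refl _,
        fun h => absurd h hee⟩
  choose Yp hY1 hY2 hY3 using h5
  obtain ⟨ζ, hζ⟩ := h4 Yp hY1 hY2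
  have hcs : ∀ i ≤ m, ((List.range (m + 1)).map c).getD i Code.zero = c i := by
    intro i hi
    have : i < m + 1 := by omega
    simp [List.getD, this]
  have hνs : ∀ i ≤ m, ((List.range (m + 1)).map ν).getD i 0 = ν i := by
    intro i hi
    have : i < m + 1 := by omega
    simp [List.getD, this]
  refine ⟨ζ, (List.range (m + 1)).map c, (List.range (m + 1)).map ν, fun X hX ee hee => ?_⟩
  obtain ⟨Y, hY⟩ := L1 (Yp ee) (hY1 ee) (hY2 ee) X
  obtain ⟨st, hE, hYst⟩ := hY3 ee hee
  have hY' : ∀ t, seg Y (st (seg X t)).2.length = (st (seg X t)).2 := by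
    intro t
    have := hY t
    rw [hYst] at this
    exact this
  refine ⟨Y, hζ ee X Y hX hY, ?_, fun j hj => ?_⟩
  · refine h3 r m _ _ ee st (CORE_enc hE hcs hνs) (fun i hi => ?_) X Y hY'
    rw [hcs i hi, hνs i hi]
    exact hch.mono i
  · rw [hνs j hj.le]
    obtain ⟨T, hT⟩ := hE.fin X
    constructor
    · intro hW
      by_contra hlt
      push Not at hlt
      obtain ⟨s, hs⟩ := ((N2 N1).1 r Y (ν j)).1 hW
      have ht := hT (max T s) (le_max_left _ _)
      have h6 := hE.notyet (seg X (max T s)) j (by rw [ht.1]; exact hlt)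
      have h7 : seg Y s <+: (st (seg X (max T s))).2 := by
        rw [← hY' (max T s)]
        refine CORE_segpre Y ?_
        have := CORE_len hE (seg X (max T s))
        rw [CORE_seglen] at this
        exact le_trans (le_max_right _ _) this
      rw [(N2 N1).2.1 r _ _ _ h7 hs] at h6
      exact absurd h6 (by simp)
    · intro hle
      have ht := hT T (le_refl _)
      have h6 : hst r (st (seg X T)).2 (ν j) = true := by
        rcases Nat.lt_or_ge (m - cntP (J X) ee) j with h7 | h7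
        · exact hE.done (seg X T) j hj (by rw [ht.1]; exact h7)
        · have h8 : m - cntP (J X) ee = j := by omega
          rw [← h8]
          exact ht.2 (by omega)
      refine ((N2 N1).1 r Y (ν j)).2 ⟨(st (seg X T)).2.length, ?_⟩
      rw [hY' T]
      exact h6

end Pool.Agent.N584.PI
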