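import Pool.Agent.N584.PI.Stm
import Pool.Agent.Helper446.Comp

/-!
Project PI, part CSB: the computable Cantor-Schroeder-Bernstein theorem.
-/

set_option autoImplicit false

namespace Pool.Agent.N584.PI

open Pool.Agent.Helper446.RE

/-- `p` has a preimage under `CSB_im h` -/
def CSB_ok (h : ℕ → ℕ) (p : ℕ) : Bool :=
  (!(p.unpair.1 == 0)) && (h (p.unpair.1 - 1).unpair.2 == p.unpair.2)

/-- the injection given by a many-one reduction -/
def CSB_im (h : ℕ → ℕ) (p : ℕ) : ℕ := Nat.pair (p + 1) (h p.unpair.2)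

theorem CSB_im_pre (h : ℕ → ℕ) (q : ℕ) : (CSB_im h q).unpair.1 - 1 = q := by
  simp [CSB_im]

theorem CSB_im_snd (h : ℕ → ℕ) (q : ℕ) : (CSB_im h q).unpair.2 = h q.unpair.2 := by
  simp [CSB_im]

theorem CSB_ok_im (h : ℕ → ℕ) (q : ℕ) : CSB_ok h (CSB_im h q) = true := by
  simp [CSB_im, CSB_ok]

theorem CSB_of_ok {h : ℕ → ℕ} {p : ℕ} (hp : CSB_ok h p = true) :
    CSB_im h (p.unpair.1 - 1) = p := by
  simp only [CSB_ok, Bool.and_eq_true, Bool.not_eq_true', beq_eq_false_iff_ne, beq_iff_eq] at hp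
  have h1 : p.unpair.1 - 1 + 1 = p.unpair.1 := by omega
  rw [CSB_im, h1, hp.2, Nat.pair_unpair]

theorem CSB_lt {h : ℕ → ℕ} {p : ℕ} (hp : CSB_ok h p = true) : p.unpair.1 - 1 < p := by
  simp only [CSB_ok, Bool.and_eq_true, Bool.not_eq_true', beq_eq_false_iff_ne, beq_iff_eq] at hp
  have := Nat.unpair_left_le p
  omega

/-- one step back; the second component is the side -/
def CSB_st (f g : ℕ → ℕ) (s : ℕ × Bool) : ℕ × Bool :=
  bif s.2 then (bif CSB_ok g s.1 then (s.1.unpair.1 - 1, false) else s)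
  else (bif CSB_ok f s.1 then (s.1.unpair.1 - 1, true) else s)

theorem CSB_st_true {f g : ℕ → ℕ} {p : ℕ} (h : CSB_ok g p = true) :
    CSB_st f g (p, true) = (p.unpair.1 - 1, false) := by
  simp [CSB_st, h]

theorem CSB_st_true' {f g : ℕ → ℕ} {p : ℕ} (h : CSB_ok g p = false) :
    CSB_st f g (p, true) = (p, true) := by
  simp [CSB_st, h]

theorem CSB_st_false {f g : ℕ → ℕ} {p : ℕ} (h : CSB_ok f p = true) :
    CSB_st f g (p, false) = (p.unpair.1 - 1, true) := by
  simp [CSB_st, h]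

theorem CSB_st_false' {f g : ℕ → ℕ} {p : ℕ} (h : CSB_ok f p = false) :
    CSB_st f g (p, false) = (p, false) := by
  simp [CSB_st, h]

theorem CSB_st_lt (f g : ℕ → ℕ) (s : ℕ × Bool) : CSB_st f g s = s ∨ (CSB_st f g s).1 < s.1 := by
  rcases s with ⟨p, b⟩
  cases b
  · cases h : CSB_ok f p
    · exact Or.inl (CSB_st_false' h)
    · rw [CSB_st_false h]
      exact Or.inr (CSB_lt h)
  · cases h : CSB_ok g p
    · exact Or.inl (CSB_st_true' h)
    · rw [CSB_st_true h]
      exact Or.inr (CSB_lt h)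

theorem CSB_stab (f g : ℕ → ℕ) : ∀ (m : ℕ) (s : ℕ × Bool), s.1 = m → ∀ n, m ≤ n →
    (CSB_st f g)^[n] s = (CSB_st f g)^[m] s := by
  intro m
  induction m using Nat.strong_induction_on with
  | _ m ih =>
    intro s hs n hn
    rcases CSB_st_lt f g s with h | h
    · rw [Function.iterate_fixed h, Function.iterate_fixed h]
    · rw [hs] at h
      obtain ⟨m', rfl⟩ : ∃ m', m = m' + 1 := ⟨m - 1, by omega⟩
      obtain ⟨n', rfl⟩ : ∃ n', n = n' + 1 := ⟨n - 1, by omega⟩
      rw [Function.iterate_succ_apply, Function.iterate_succ_apply,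
        ih _ h _ rfl n' (by omega), ih _ h _ rfl m' (by omega)]

/-- the end of the chain -/
def CSB_fin (f g : ℕ → ℕ) (s : ℕ × Bool) : ℕ × Bool := (CSB_st f g)^[s.1] s

theorem CSB_fin_fix {f g : ℕ → ℕ} {s : ℕ × Bool} (h : CSB_st f g s = s) : CSB_fin f g s = s :=
  Function.iterate_fixed h _

theorem CSB_fin_st (f g : ℕ → ℕ) (s : ℕ × Bool) : CSB_fin f g (CSB_st f g s) = CSB_fin f g s := by
  rcases CSB_st_lt f g s with h | h
  · rw [h]
  · unfold CSB_fin
    obtain ⟨m', hm⟩ : ∃ m', s.1 = m' + 1 := ⟨s.1 - 1, by omega⟩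
    rw [hm, Function.iterate_succ_apply, CSB_stab f g _ _ rfl m' (by omega)]

/-- the permutation -/
def CSB_pi (f g : ℕ → ℕ) (p : ℕ) : ℕ :=
  bif (CSB_fin f g (p, true)).2 then CSB_im f p else p.unpair.1 - 1

/-- its inverse -/
def CSB_si (f g : ℕ → ℕ) (p : ℕ) : ℕ :=
  bif (CSB_fin f g (p, false)).2 then p.unpair.1 - 1 else CSB_im g p

theorem CSB_true {f g : ℕ → ℕ} {p : ℕ} (h : (CSB_fin f g (p, true)).2 = false) :
    CSB_ok g p = true := by
  by_contra hcon
  rw [CSB_fin_fix (CSB_st_true' (by simpa using hcon))] at h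
  simp at h

theorem CSB_false {f g : ℕ → ℕ} {p : ℕ} (h : (CSB_fin f g (p, false)).2 = true) :
    CSB_ok f p = true := by
  by_contra hcon
  rw [CSB_fin_fix (CSB_st_false' (by simpa using hcon))] at h
  simp at h

theorem CSB_fin_f (f g : ℕ → ℕ) (p : ℕ) :
    CSB_fin f g (CSB_im f p, false) = CSB_fin f g (p, true) := by
  rw [← CSB_fin_st, CSB_st_false (CSB_ok_im f p), CSB_im_pre]

theorem CSB_fin_g (f g : ℕ → ℕ) (p : ℕ) :
    CSB_fin f g (CSB_im g p, true) = CSB_fin f g (p, false) := by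
  rw [← CSB_fin_st, CSB_st_true (CSB_ok_im g p), CSB_im_pre]

theorem CSB_left (f g : ℕ → ℕ) (p : ℕ) : CSB_si f g (CSB_pi f g p) = p := by
  cases h : (CSB_fin f g (p, true)).2
  · have h1 := CSB_of_ok (CSB_true h)
    have h2 : CSB_pi f g p = p.unpair.1 - 1 := by simp [CSB_pi, h]
    have h3 : (CSB_fin f g (p.unpair.1 - 1, false)).2 = false := by
      rw [← CSB_fin_g, h1, h]
    rw [h2, CSB_si, h3, cond_false, h1]
  · have h2 : CSB_pi f g p = CSB_im f p := by simp [CSB_pi, h]
    rw [h2, CSB_si, CSB_fin_f, h, cond_true, CSB_im_pre]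

theorem CSB_right (f g : ℕ → ℕ) (p : ℕ) : CSB_pi f g (CSB_si f g p) = p := by
  cases h : (CSB_fin f g (p, false)).2
  · have h2 : CSB_si f g p = CSB_im g p := by simp [CSB_si, h]
    rw [h2, CSB_pi, CSB_fin_g, h, cond_false, CSB_im_pre]
  · have h1 := CSB_of_ok (CSB_false h)
    have h2 : CSB_si f g p = p.unpair.1 - 1 := by simp [CSB_si, h]
    have h3 : (CSB_fin f g (p.unpair.1 - 1, true)).2 = true := by
      rw [← CSB_fin_f, h1, h]
    rw [h2, CSB_pi, h3, cond_true, h1]

/-- the permutation -/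
def CSB_perm (f g : ℕ → ℕ) : Equiv.Perm ℕ where
  toFun := CSB_pi f g
  invFun := CSB_si f g
  left_inv := CSB_left f g
  right_inv := CSB_right f g

/-! ### computability -/

theorem CSB_beq {α : Type} [Primcodable α] {u v : α → ℕ} (hu : Computable u) (hv : Computable v) :
    Computable (fun x => u x == v x) := Primrec.beq.to_comp.comp hu hv

theorem CSB_cok {f : ℕ → ℕ → ℕ} (hf : Computable₂ f) {α : Type} [Primcodable α] {d q : α → ℕ}
    (hd : Computable d) (hq : Computable q) : Computable (fun x => CSB_ok (f (d x)) (q x)) := by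
  have h1 : Computable fun x => (q x).unpair.1 := cfst (cunpair hq)
  have h2 : Computable fun x => (q x).unpair.2 := csnd (cunpair hq)
  have h3 : Computable fun x => ((q x).unpair.1 - 1).unpair.2 :=
    csnd (cunpair (csub h1 (cconst 1)))
  have h4 : Computable fun x => f (d x) (((q x).unpair.1 - 1).unpair.2) := hf.comp hd h3
  exact cand (cnot (CSB_beq h1 (cconst 0))) (CSB_beq h4 h2)

theorem CSB_cim {f : ℕ → ℕ → ℕ} (hf : Computable₂ f) {α : Type} [Primcodable α] {d q : α → ℕ}
    (hd : Computable d) (hq : Computable q) : Computable (fun x => CSB_im (f (d x)) (q x)) := by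
  have h2 : Computable fun x => (q x).unpair.2 := csnd (cunpair hq)
  exact cnatpair (cadd hq (cconst 1)) (hf.comp hd h2)

theorem CSB_cst {f g : ℕ → ℕ → ℕ} (hf : Computable₂ f) (hg : Computable₂ g) {α : Type}
    [Primcodable α] {d : α → ℕ} {s : α → ℕ × Bool} (hd : Computable d) (hs : Computable s) :
    Computable (fun x => CSB_st (f (d x)) (g (d x)) (s x)) := by
  have h1 : Computable fun x => (s x).1 := cfst hs
  have h2 : Computable fun x => (s x).2 := csnd hs
  have h3 : Computable fun x => (s x).1.unpair.1 - 1 := csub (cfst (cunpair h1)) (cconst 1)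
  exact ccond h2 (ccond (CSB_cok hg hd h1) (cpair h3 (cconst false)) hs)
    (ccond (CSB_cok hf hd h1) (cpair h3 (cconst true)) hs)

theorem CSB_cfin {f g : ℕ → ℕ → ℕ} (hf : Computable₂ f) (hg : Computable₂ g) {α : Type}
    [Primcodable α] {d : α → ℕ} {s : α → ℕ × Bool} (hd : Computable d) (hs : Computable s) :
    Computable (fun x => CSB_fin (f (d x)) (g (d x)) (s x)) := by
  have h1 : Computable fun x => (s x).1 := cfst hs
  have h2 : Computable₂ (fun (x : α) (y : ℕ × (ℕ × Bool)) => CSB_st (f (d x)) (g (d x)) y.2) :=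
    CSB_cst (d := fun p : α × (ℕ × (ℕ × Bool)) => d p.1)
      (s := fun p : α × (ℕ × (ℕ × Bool)) => p.2.2) hf hg (hd.comp Computable.fst)
      (Computable.snd.comp Computable.snd)
  refine (Computable.nat_rec h1 hs h2).of_eq fun x => ?_
  have h3 : ∀ n : ℕ, (Nat.rec (motive := fun _ => ℕ × Bool) (s x)
      (fun y IH => CSB_st (f (d x)) (g (d x)) (y, IH).2) n : ℕ × Bool) =
      (CSB_st (f (d x)) (g (d x)))^[n] (s x) := by
    intro n
    induction n with
    | zero => rfl
    | succ n ih =>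
      rw [Function.iterate_succ_apply', ← ih]
  exact h3 _

theorem t_CSB : P_CSB := by
  refine ⟨CSB_perm, fun f g P Q hQ hP p => ?_, fun f g hf hg => ⟨?_, ?_⟩⟩
  · show Q p.unpair.2 = P (CSB_pi f g p).unpair.2
    cases h : (CSB_fin f g (p, true)).2
    · have h1 := CSB_of_ok (CSB_true h)
      have h2 : CSB_pi f g p = p.unpair.1 - 1 := by simp [CSB_pi, h]
      rw [h2, hP, ← CSB_im_snd g, h1]
    · have h2 : CSB_pi f g p = CSB_im f p := by simp [CSB_pi, h]
      rw [h2, CSB_im_snd, hQ]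
  · have hd : Computable (fun x : ℕ × ℕ => x.1) := Computable.fst
    have hp : Computable (fun x : ℕ × ℕ => x.2) := Computable.snd
    exact ccond (csnd (CSB_cfin hf hg hd (cpair hp (cconst true)))) (CSB_cim hf hd hp)
      (csub (cfst (cunpair hp)) (cconst 1))
  · have hd : Computable (fun x : ℕ × ℕ => x.1) := Computable.fst
    have hp : Computable (fun x : ℕ × ℕ => x.2) := Computable.snd
    exact ccond (csnd (CSB_cfin hf hg hd (cpair hp (cconst false))))
      (csub (cfst (cunpair hp)) (cconst 1)) (CSB_cim hg hd hp)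

end Pool.Agent.N584.PI
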