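import Pool.Agent.N584.PI.Two

/-!
Invariance under computable permutations gives a degree invariant operation between the jump and the
double jump.
-/

set_option autoImplicit false

namespace Pool.Agent.N584.PI

open Nat.Partrec (Code)
open Encodable
open Pool.Agent.Helper446.Defs Pool.Agent.Helper446.Oracle
open Pool.Agent.H639.LU Pool.Agent.R616.DI Pool.Agent.Y579.PP Pool.Agent.H869R3.FN

/-- computability of the preimages -/
def P_PLC : Prop := ∀ (B : ℕ → ℕ) (Θ : ℕ → Str → Str), Computable B →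
  Computable (fun p : ℕ × Str => Θ p.1 p.2) → Computable (pull B Θ)

theorem DEG_tt (i : Code) : ∃ (B : ℕ → ℕ) (Θ : ℕ → Str → Str), Computable B ∧
    Computable (fun p : ℕ × Str => Θ p.1 p.2) ∧
    ∀ X Y : ℕ → Bool, Red i X Y → TT B Θ (ch (J X)) (ch (J Y)) := by
  obtain ⟨r, hr⟩ := w_jump
  obtain ⟨r', hr'⟩ := w_comp r i
  refine ⟨fun t => Nat.pair (encode r') t + 1, fun t w => (List.range t).map fun n =>
    w.getD (Nat.pair (encode r') n) false, by fun_prop, ?_, fun X Y h t s hs => ?_⟩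
  · have h1 : Primrec₂ (fun (p : ℕ × Str) (n : ℕ) =>
        p.2.getD (Nat.pair (encode r') n) false) :=
      (Primrec.list_getD false).comp (Primrec.snd.comp Primrec.fst)
        (Primrec₂.natPair.comp (Primrec.const _) Primrec.snd)
    exact (Primrec.list_map (Primrec.list_range.comp Primrec.fst) h1).to_comp
  · show (List.range t).map _ = (List.range t).map _
    refine List.map_congr_left fun n hn => ?_
    have hn' := List.mem_range.1 hn
    have h3 : Nat.pair (encode r') n < s := by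
      have : Nat.pair (encode r') n < Nat.pair (encode r') t := Nat.pair_lt_pair_right _ hn'
      have hs' : Nat.pair (encode r') t + 1 ≤ s := hs
      omega
    rw [OPR_get _ h3]
    have e : J X (Nat.pair (encode r') n) ↔ J Y n := by
      unfold J
      rw [Nat.unpair_pair]
      simp only [Denumerable.ofNat_encode]
      rw [hr' X Y h n, hr Y]
      rfl
    rw [Bool.eq_iff_iff, ch_true, ch_true]
    exact e

/-- The degree invariant operation. -/
def P_DEG : Prop := ∀ (r : Code) (z₀ : ℕ → Bool), Post r z₀ →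
  (∀ π : Equiv.Perm ℕ, Computable π → Computable π.symm → ∀ X, le z₀ X →
    le (ch (W r (X ∘ π))) (ch (W r X))) →
  ∃ s : Code,
    (∀ Z, le z₀ Z → le (ch (J Z)) (ch (W s (ch (J Z)))) ∧
      ¬ le (ch (W s (ch (J Z)))) (ch (J Z)) ∧
      ¬ le (ch (J (ch (J Z)))) (ch (W s (ch (J Z))))) ∧
    ∀ Z Z', le z₀ Z → le Z Z' → le Z' Z →
      le (ch (W s (ch (J Z')))) (ch (W s (ch (J Z))))

theorem le_jump' (Z : ℕ → Bool) : le Z (ch (J Z)) := by
  obtain ⟨c, hc⟩ : ∃ c : Code, ∀ X : ℕ → Bool, ∀ n, W c X n ↔ X n = true := by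
    obtain ⟨c, hc⟩ := w_of_fun (f := fun p : ℕ × Str => p.2.getD p.1 false)
      (((Primrec.list_getD false).comp Primrec.snd Primrec.fst).to_comp)
    refine ⟨c, fun X n => ?_⟩
    rw [hc]
    constructor
    · rintro ⟨s, hs⟩
      by_cases h : n < s
      · rw [OPR_get X h] at hs
        exact hs
      · have : (seg X s).getD n false = false := by
          rw [List.getD_eq_default]
          rw [seg_len]
          omega
        rw [this] at hs
        exact absurd hs (by simp)
    · intro h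
      exact ⟨n + 1, by rw [OPR_get X (by omega)]; exact h⟩
  refine le_trans' (K4.2.2.2 (ch (W c Z)) Z (fun n => n) Computable.id fun n => ?_)
    (w_le_jump c Z)
  rw [Bool.eq_iff_iff, ch_true]
  exact (hc Z n).symm

theorem t_DEG (hP : P_PUL) (hH : P_HAT) (hM : P_PLC) (hS : P_CSB) : P_DEG := by
  intro r z₀ hr hinv
  obtain ⟨Pm, hPm, hPc⟩ := hS
  have hHat := hH
  obtain ⟨-, H, hHc, hHh⟩ := hHat
  obtain ⟨s, hs⟩ := t_OPR hat H hHc hHh r
  have hs' : ∀ X, ch (W s X) = ch (W r (hat X)) := fun X => ch_congr (hs X)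
  refine ⟨s, fun Z hZ => ?_, fun Z Z' hZ h1 h2 => ?_⟩
  · have h1 : le z₀ (hat (ch (J Z))) :=
      le_trans' hZ (le_trans' (le_jump' Z) (LOC_hat hH _).1)
    obtain ⟨h2, h3, h4⟩ := hr _ h1
    rw [hs']
    exact ⟨le_trans' (LOC_hat hH _).1 h2, fun h => h3 (le_trans' h (LOC_hat hH _).1),
      fun h => h4 (le_trans' (LOC_jump (LOC_hat hH _).2) h)⟩
  · obtain ⟨i, hi⟩ := (le_iff _ _).1 h2
    obtain ⟨j, hj⟩ := (le_iff _ _).1 h1
    obtain ⟨B, Θ, hB, hΘ, hT⟩ := DEG_tt i
    obtain ⟨B', Θ', hB', hΘ', hT'⟩ := DEG_tt j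
    have e1 := hP B Θ _ _ (hT Z Z' hi)
    have e2 := hP B' Θ' _ _ (hT' Z' Z hj)
    have e3 := hPm (pull B Θ) (pull B' Θ') (val (ch (J Z))) (val (ch (J Z'))) e1 e2
    have hc := hPc (fun _ => pull B Θ) (fun _ => pull B' Θ')
      ((hM B Θ hB hΘ).comp Computable.snd) ((hM B' Θ' hB' hΘ').comp Computable.snd)
    have hc1 : Computable (Pm (pull B Θ) (pull B' Θ')) :=
      hc.1.comp (Computable.const 0) Computable.id
    have hc2 : Computable (Pm (pull B Θ) (pull B' Θ')).symm :=
      hc.2.comp (Computable.const 0) Computable.id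
    have h3 : le z₀ (hat (ch (J Z))) :=
      le_trans' hZ (le_trans' (le_jump' Z) (LOC_hat hH _).1)
    have h4 := hinv _ hc1 hc2 _ h3
    rw [hs', hs']
    have e4 : hat (ch (J Z')) = hat (ch (J Z)) ∘ (Pm (pull B Θ) (pull B' Θ')) := funext e3
    rw [e4]
    exact h4

end Pool.Agent.N584.PI
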