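import Pool.Agent.N584.PI.Stm

/-!
Project PI, task DM (helper227): the decoding machine works.
-/

set_option autoImplicit false

namespace Pool.Agent.N584.PI

open Nat.Partrec (Code)
open Encodable
open Pool.Agent.Helper446.Defs Pool.Agent.Helper446.Oracle
open Pool.Agent.H639.LU

theorem DM_nx_gt (v : ℕ → ℕ) (ℓ : ℕ) : ℓ + 1 ≤ nx v ℓ := le_max_left _ _

theorem DM_nx_mono {v : ℕ → ℕ} (hv : Monotone v) : Monotone (nx v) := by
  intro a b h
  exact max_le_max (Nat.succ_le_succ h) (hv h)

theorem DM_lev_succ (v : ℕ → ℕ) (t : ℕ) : lev v (t + 1) = nx v (lev v t) := rfl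

theorem DM_lev_mono (v : ℕ → ℕ) : Monotone (lev v) := by
  apply monotone_nat_of_le_succ
  intro n
  rw [DM_lev_succ]
  exact (Nat.le_succ _).trans (DM_nx_gt v _)

theorem DM_lev_ge (v : ℕ → ℕ) (t : ℕ) : t ≤ lev v t := by
  induction t with
  | zero => exact Nat.zero_le _
  | succ n ih =>
    rw [DM_lev_succ]
    exact (Nat.succ_le_succ ih).trans (DM_nx_gt v _)

theorem DM_use2_succ (m : ℕ) (c : ℕ → Code) (ν : ℕ → ℕ) (t : ℕ) {i j : ℕ} (hi : i ≤ m)
    (hj : j ≤ m) :
    lev (uv (c j) (ν j)) (nx (uv (c i) (ν i)) (use2 m c ν t)) ≤ use2 m c ν (t + 1) := by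
  have h1 : use2 m c ν (t + 1) = ((List.range (m + 1)).map fun i => ((List.range (m + 1)).map
      fun j => lev (uv (c j) (ν j)) (nx (uv (c i) (ν i)) (use2 m c ν t))).sum).sum := rfl
  rw [h1]
  have h2 : lev (uv (c j) (ν j)) (nx (uv (c i) (ν i)) (use2 m c ν t)) ≤
      ((List.range (m + 1)).map fun j =>
        lev (uv (c j) (ν j)) (nx (uv (c i) (ν i)) (use2 m c ν t))).sum := by
    apply List.single_le_sum (fun _ _ => Nat.zero_le _)
    exact List.mem_map.2 ⟨j, List.mem_range.2 (by omega), rfl⟩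
  refine h2.trans ?_
  apply List.single_le_sum (fun _ _ => Nat.zero_le _)
  exact List.mem_map.2 ⟨i, List.mem_range.2 (by omega), rfl⟩

theorem DM_seg_succ (X : ℕ → Bool) (t : ℕ) : seg X (t + 1) = seg X t ++ [X t] := by
  unfold seg
  rw [List.range_succ, List.map_append]
  rfl

theorem DM_seg_length (X : ℕ → Bool) (t : ℕ) : (seg X t).length = t := by
  unfold seg
  rw [List.length_map, List.length_range]

theorem DM_seg_take (X : ℕ → Bool) {s l : ℕ} (h : l ≤ s) : (seg X s).take l = seg X l := by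
  unfold seg
  rw [← List.map_take, List.take_range, min_eq_left h]

theorem DM_prefix {X : ℕ → Bool} {y z : Str} (h : y <+: z) (hz : seg X z.length = z) :
    seg X y.length = y := by
  have h1 : z.take y.length = y := (List.prefix_iff_eq_take.1 h).symm
  rw [← hz, DM_seg_take X h.length_le] at h1
  exact h1

theorem t_DM : P_DM := by
  intro r m c ν ee st hE hmono X Y hY
  have key : ∀ t, (st (seg X t)).2.length ≤ use2 m c ν t ∧ ∀ s, use2 m c ν t ≤ s →
      dmach r m c ν ee (seg Y s) t = (seg X t, (st (seg X t)).1, (st (seg X t)).2.length) := by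
    intro t
    induction t with
    | zero =>
      have h0 : seg X 0 = [] := rfl
      rw [h0, hE.init]
      exact ⟨Nat.zero_le _, fun s _ => rfl⟩
    | succ t ih =>
      obtain ⟨ih1, ih2⟩ := ih
      obtain ⟨i, hi⟩ : ∃ i, i = (st (seg X t)).1 := ⟨_, rfl⟩
      obtain ⟨y, hy⟩ : ∃ y, y = (st (seg X t)).2 := ⟨_, rfl⟩
      have him : i ≤ m := hi ▸ hE.le _
      have hYt := hY t
      have hYt' := hY (t + 1)
      obtain ⟨y', ⟨hc1, hc2, hc3⟩, hgo, hngo⟩ := hE.step (seg X t) (X t)
      rw [← DM_seg_succ] at hgo hngo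
      rw [← hi] at hgo hngo
      rw [← hi, ← hy] at hc2 hc3 ih2
      rw [← hy] at hc1 ih1 hYt
      obtain ⟨u, hu⟩ : ∃ u, u = use2 m c ν t := ⟨_, rfl⟩
      rw [← hu] at ih1 ih2
      have hstep : ∀ j, j ≤ m → lev (uv (c j) (ν j)) (nx (uv (c i) (ν i)) u) ≤
          use2 m c ν (t + 1) := fun j hj => hu ▸ DM_use2_succ m c ν t him hj
      have hnx : nx (uv (c i) (ν i)) y.length ≤ nx (uv (c i) (ν i)) u :=
        DM_nx_mono (hmono i him) ih1
      have hy'u : y'.length ≤ use2 m c ν (t + 1) := by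
        rw [hc2]
        exact hnx.trans ((DM_lev_ge _ _).trans (hstep i him))
      have huu : u ≤ use2 m c ν (t + 1) :=
        ((Nat.le_succ u).trans (DM_nx_gt _ u)).trans ((DM_lev_ge _ _).trans (hstep i him))
      -- the step of the machine
      have hmach : ∀ s, use2 m c ν (t + 1) ≤ s → seg Y y'.length = y' →
          dmach r m c ν ee (seg Y s) (t + 1) =
            if Go r m ν ee i (seg X (t + 1)) y' then
              (seg X (t + 1), i - 1, lev (uv (c (i - 1)) (ν (i - 1))) y'.length)
            else (seg X (t + 1), i, y'.length) := by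
        intro s hs hYy'
        have h1 : dmach r m c ν ee (seg Y s) (t + 1) =
            dstp r m c ν ee (seg Y s) (dmach r m c ν ee (seg Y s) t) := rfl
        rw [h1, ih2 s (huu.trans hs)]
        have h2 : (seg Y s).take y.length = y := by
          rw [DM_seg_take Y (ih1.trans (huu.trans hs)), hYt]
        have h3 : (seg Y s).take y'.length = y' := by
          rw [DM_seg_take Y (hy'u.trans hs), hYy']
        unfold dstp
        simp only
        rw [← hc2, h2, h3, hc3, ← DM_seg_succ]
      by_cases hG : Go r m ν ee i (seg X (t + 1)) y'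
      · obtain ⟨g1, g2, g3⟩ := hgo hG
        have hYy' : seg Y y'.length = y' := DM_prefix g2 hYt'
        refine ⟨?_, fun s hs => ?_⟩
        · rw [g3, hc2]
          exact (DM_lev_mono _ hnx).trans (hstep (i - 1) (by omega))
        · rw [hmach s hs hYy', if_pos hG, g1, g3]
      · have hg := hngo hG
        rw [hg] at hYt' ⊢
        refine ⟨hy'u, fun s hs => ?_⟩
        rw [hmach s hs hYt', if_neg hG]
  intro t s hs
  unfold out2
  rw [(key t).2 s hs]

end Pool.Agent.N584.PI
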