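import Pool.Agent.N584.PI.Stm
import Pool.Agent.H639.LU.N1
import Pool.Agent.H639.LU.N2
import Pool.Agent.H639.LU.D2
import Pool.Agent.H639.LU.M3

/-!
Project PI, file Enc: the coding machine (helper348).
-/

set_option autoImplicit false

namespace Pool.Agent.N584.PI

open Nat.Partrec (Code)
open Encodable
open Pool.Agent.Helper446.Defs Pool.Agent.Helper446.Oracle
open Pool.Agent.H639.LU

theorem Enc_lev (v : ℕ → ℕ) (t : ℕ) : t ≤ lev v t := by
  induction t with
  | zero => exact Nat.zero_le _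
  | succ t ih =>
    show t + 1 ≤ nx v (lev v t)
    unfold nx
    exact (Nat.succ_le_succ ih).trans (le_max_left _ _)

/-- the rank -/
noncomputable def Enc_rk (r : Code) (G : ℕ → Set (ℕ → Bool)) (c : ℕ → Code) (ν : ℕ → ℕ) (i : ℕ)
    (y : Str) : ℕ := sInf {s | RT (G i) r (ν i) (uv (c i) (ν i)) (bv (c i) (ν i)) s y}

/-- the invariant -/
structure Enc_Inv (r : Code) (G : ℕ → Set (ℕ → Bool)) (c : ℕ → Code) (ν : ℕ → ℕ) (m : ℕ)
    (ee : List ℕ) (x : Str) (p : ℕ × Str) : Prop where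
  le : p.1 ≤ m
  cc : CC (G p.1) (uv (c p.1) (ν p.1)) (bv (c p.1) (ν p.1)) p.2
  rr : p.1 < m → hst r p.2 (ν p.1) = false →
    RR (G p.1) r (ν p.1) (uv (c p.1) (ν p.1)) (bv (c p.1) (ν p.1)) p.2
  ct : m - p.1 ≤ cnt ee x
  en : ∀ j, p.1 < j → j < m → hst r p.2 (ν j) = true

/-- one step -/
def Enc_SR (r : Code) (G : ℕ → Set (ℕ → Bool)) (c : ℕ → Code) (ν : ℕ → ℕ) (m : ℕ)
    (ee : List ℕ) (x : Str) (b : Bool) (p p' : ℕ × Str) : Prop :=
  ∃ y', Child (uv (c p.1) (ν p.1)) (bv (c p.1) (ν p.1)) b p.2 y' ∧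
    (p.1 < m → hst r p.2 (ν p.1) = false → Enc_rk r G c ν p.1 y' < Enc_rk r G c ν p.1 p.2) ∧
    ((Go r m ν ee p.1 (x ++ [b]) y' ∧ p'.1 = p.1 - 1 ∧ y' <+: p'.2 ∧
      p'.2.length = lev (uv (c (p.1 - 1)) (ν (p.1 - 1))) y'.length) ∨
    (¬ Go r m ν ee p.1 (x ++ [b]) y' ∧ p' = (p.1, y')))

theorem Enc_step (h1 : P_GAME) {r : Code} {G : ℕ → Set (ℕ → Bool)} {c : ℕ → Code}
    {ν : ℕ → ℕ} (hch : Chn r G c ν) {m : ℕ} {ee : List ℕ} (x : Str) (b : Bool) (p : ℕ × Str)
    (hI : Enc_Inv r G c ν m ee x p) :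
    ∃ p', Enc_Inv r G c ν m ee (x ++ [b]) p' ∧ Enc_SR r G c ν m ee x b p p' := by
  obtain ⟨i, y⟩ := p
  obtain ⟨hle, hcc, hrr, hct, hen⟩ := hI
  simp only at hle hcc hrr hct hen
  obtain ⟨n2a, n2b, n2c, n2d⟩ := N2 N1
  obtain ⟨d2a, d2b, d2c, d2d, d2e⟩ := D2 N1 N2
  obtain ⟨g1, g2, g3, g4, g5, g6, g7, g8⟩ := h1 (G i) r (ν i) (uv (c i) (ν i)) (bv (c i) (ν i))
  have hcx : cnt ee x ≤ cnt ee (x ++ [b]) := d2a ee x (x ++ [b]) (List.prefix_append _ _)
  -- the child
  obtain ⟨y', hy1, hy2, hy3, hy4⟩ : ∃ y', Child (uv (c i) (ν i)) (bv (c i) (ν i)) b y y' ∧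
      CC (G i) (uv (c i) (ν i)) (bv (c i) (ν i)) y' ∧
      (i < m → hst r y (ν i) = false → Enc_rk r G c ν i y' < Enc_rk r G c ν i y) ∧
      (i < m → hst r y' (ν i) = false →
        RR (G i) r (ν i) (uv (c i) (ν i)) (bv (c i) (ν i)) y') := by
    by_cases h : i < m ∧ hst r y (ν i) = false
    · have hrr' := hrr h.1 h.2
      have hmem : RT (G i) r (ν i) (uv (c i) (ν i)) (bv (c i) (ν i)) (Enc_rk r G c ν i y) y :=
        Nat.sInf_mem hrr'
      obtain ⟨s', hs', hb⟩ := g5 _ y hmem h.2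
      obtain ⟨y', hy', hR⟩ := hb b
      have hR' : RR (G i) r (ν i) (uv (c i) (ν i)) (bv (c i) (ν i)) y' := ⟨s', hR⟩
      exact ⟨y', hy', g4 y' hR', fun _ _ => (Nat.sInf_le hR).trans_lt hs', fun _ _ => hR'⟩
    · obtain ⟨y', hy', hC⟩ := g3 y hcc b
      refine ⟨y', hy', hC, fun ha hb => absurd ⟨ha, hb⟩ h, fun ha hb => ?_⟩
      exfalso
      apply h
      refine ⟨ha, ?_⟩
      by_contra hne
      have := n2b r y y' (ν i) hy'.1 (by simpa using hne)
      rw [this] at hb
      exact absurd hb (by simp)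
  by_cases hGo : Go r m ν ee i (x ++ [b]) y'
  · obtain ⟨j, rfl⟩ : ∃ j, i = j + 1 := ⟨i - 1, by have := hGo.1; omega⟩
    obtain ⟨X', hX', hseg⟩ := g2 y' hy2
    rw [hch.next j] at hX'
    have hQ := hX' y'.length
    obtain ⟨-, -, -, k4, -, -, -, k8⟩ := h1 (G j) r (ν j) (uv (c j) (ν j)) (bv (c j) (ν j))
    obtain ⟨q1, q2, -⟩ := k8 _ hQ
    have hpre : y' <+: seg X' (lev (uv (c j) (ν j)) y'.length) := by
      have := D2_seg_prefix X' (Enc_lev (uv (c j) (ν j)) y'.length)
      rwa [hseg] at this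
    refine ⟨(j, seg X' (lev (uv (c j) (ν j)) y'.length)), ⟨?_, ?_, ?_, ?_, ?_⟩, y', hy1, hy3,
      Or.inl ⟨hGo, ?_, hpre, ?_⟩⟩
    · show j ≤ m
      omega
    · exact k4 _ q1
    · exact fun _ _ => q1
    · show m - j ≤ cnt ee (x ++ [b])
      have := hGo.2.1
      omega
    · intro j' hj1 hj2
      simp only at hj1 ⊢
      by_cases hjj : j' = j + 1
      · subst hjj
        rcases hGo.2.2 with h | h
        · omega
        · exact n2b r y' _ _ hpre h
      · exact n2b r y _ _ (hy1.1.trans hpre) (hen j' (by omega) hj2)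
    · simp
    · simp only [Nat.add_sub_cancel]
      exact N1_len X' _
  · refine ⟨(i, y'), ⟨hle, hy2, hy4, ?_, ?_⟩, y', hy1, hy3, Or.inr ⟨hGo, rfl⟩⟩
    · exact hct.trans hcx
    · intro j hj1 hj2
      exact n2b r y y' _ hy1.1 (hen j hj1 hj2)

/-- a nonincreasing sequence of natural numbers is eventually constant -/
theorem Enc_const (f : ℕ → ℕ) (hf : ∀ t, f (t + 1) ≤ f t) : ∃ T, ∀ t ≥ T, f t = f T := by
  have hanti : Antitone f := antitone_nat_of_succ_le hf
  obtain ⟨T, hT⟩ : ∃ T, f T = sInf (Set.range f) :=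
    Nat.sInf_mem (s := Set.range f) (Set.range_nonempty f)
  refine ⟨T, fun t ht => le_antisymm (hanti ht) ?_⟩
  rw [hT]
  exact Nat.sInf_le ⟨t, rfl⟩

/-- no strictly decreasing sequences -/
theorem Enc_dec (f : ℕ → ℕ) (T : ℕ) (hf : ∀ t ≥ T, f (t + 1) < f t) : False := by
  have : ∀ k, f (T + k) + k ≤ f T := by
    intro k
    induction k with
    | zero => simp
    | succ k ih =>
      have := hf (T + k) (by omega)
      rw [← add_assoc T k 1]
      omega
  have := this (f T + 1)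
  omega

theorem t_ENC (h1 : P_GAME) (h2 : P_NXT) : P_ENC := by
  classical
  intro r G c ν hch m ee hee
  obtain ⟨n2a, n2b, n2c, n2d⟩ := N2 N1
  obtain ⟨d2a, d2b, d2c, d2d, d2e⟩ := D2 N1 N2
  -- the machine
  obtain ⟨st, st0, stS⟩ := M3_rec (β := ℕ × Str) (m, []) (fun p x' =>
    if h : ∃ p', ∀ x b, x' = x ++ [b] → Enc_Inv r G c ν m ee x p →
      Enc_Inv r G c ν m ee x' p' ∧ Enc_SR r G c ν m ee x b p p' then h.choose else p)
  have hstep : ∀ x b, Enc_Inv r G c ν m ee x (st x) →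
      Enc_Inv r G c ν m ee (x ++ [b]) (st (x ++ [b])) ∧
        Enc_SR r G c ν m ee x b (st x) (st (x ++ [b])) := by
    intro x b hI
    have hex : ∃ p', ∀ x2 b2, x ++ [b] = x2 ++ [b2] → Enc_Inv r G c ν m ee x2 (st x) →
        Enc_Inv r G c ν m ee (x ++ [b]) p' ∧ Enc_SR r G c ν m ee x2 b2 (st x) p' := by
      obtain ⟨p', hp1, hp2⟩ := Enc_step h1 hch x b (st x) hI
      refine ⟨p', fun x2 b2 hxx _ => ?_⟩
      obtain ⟨e1, e2⟩ := List.append_inj' hxx rfl
      have e3 : b = b2 := by simpa using e2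
      subst e1 e3
      exact ⟨hp1, hp2⟩
    rw [stS, dif_pos hex]
    exact hex.choose_spec x b rfl hI
  obtain ⟨-, -, -, k4, -, -, -, k8⟩ := h1 (G m) r (ν m) (uv (c m) (ν m)) (bv (c m) (ν m))
  have hI : ∀ x, Enc_Inv r G c ν m ee x (st x) := by
    intro x
    induction x using List.reverseRecOn with
    | nil =>
      rw [st0]
      refine ⟨le_rfl, k4 _ (k8 _ (hch.root m)).1, fun h => absurd h (lt_irrefl _), ?_, ?_⟩
      · simp
      · intro j hj1 hj2
        simp only at hj1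
        omega
    | append_singleton x b ih => exact (hstep x b ih).1
  have hS : ∀ x b, Enc_SR r G c ν m ee x b (st x) (st (x ++ [b])) := fun x b =>
    (hstep x b (hI x)).2
  have hsub1 : ∀ i, G (i + 1) ⊆ G i := by
    intro i
    rw [hch.next i]
    exact (h2 (G i) r (ν i) (c i) (hch.clo i) (hch.root i)).2.2.1
  have hsub : ∀ i j, j ≤ i → G i ⊆ G j := by
    intro i j hij
    induction i, hij using Nat.le_induction with
    | base => exact subset_rfl
    | succ i _ ih => exact (hsub1 i).trans ih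
  refine ⟨st, ⟨st0, ?_, fun x => (hI x).le, ?_, fun x j hj1 hj2 => (hI x).en j hj2 hj1, ?_⟩⟩
  · intro x b
    obtain ⟨y', hy1, -, hy2⟩ := hS x b
    refine ⟨y', hy1, fun hGo => ?_, fun hGo => ?_⟩
    · rcases hy2 with h | h
      · exact h.2
      · exact absurd hGo h.1
    · rcases hy2 with h | h
      · exact absurd h.1 hGo
      · exact h.2
  · intro x j hj
    obtain ⟨-, g2, -⟩ := h1 (G (st x).1) r (ν (st x).1) (uv (c (st x).1) (ν (st x).1))
      (bv (c (st x).1) (ν (st x).1))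
    obtain ⟨X, hX, hseg⟩ := g2 _ (hI x).cc
    have hX' : X ∈ G (j + 1) := hsub _ _ hj hX
    rw [hch.next j] at hX'
    have hW := (h2 (G j) r (ν j) (c j) (hch.clo j) (hch.root j)).2.2.2 X hX'
    by_contra hne
    apply hW
    rw [n2a]
    refine ⟨(st x).2.length, ?_⟩
    rw [hseg]
    simpa using hne
  · intro X
    set N := cntP (J X) ee with hN
    obtain ⟨T0, hT0⟩ := d2d ee X
    have hNm : N ≤ m := by
      rw [hN, ← hT0 T0 le_rfl]
      exact (d2b ee _).trans hee
    have hsucc : ∀ t, seg X (t + 1) = seg X t ++ [X t] := by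
      intro t
      unfold seg
      rw [List.range_succ, List.map_append]
      rfl
    have hS' : ∀ t, Enc_SR r G c ν m ee (seg X t) (X t) (st (seg X t)) (st (seg X (t + 1))) := by
      intro t
      rw [hsucc]
      exact hS _ _
    have hdec1 : ∀ t, (st (seg X (t + 1))).1 ≤ (st (seg X t)).1 := by
      intro t
      obtain ⟨y', -, -, h | h⟩ := hS' t
      · rw [h.2.1]
        omega
      · rw [h.2]
    have hlow : ∀ t, m - N ≤ (st (seg X t)).1 := by
      intro t
      have h3 := (hI (seg X t)).ct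
      have h4 := d2c ee X t
      omega
    obtain ⟨T1, hT1⟩ := Enc_const (fun t => (st (seg X t)).1) hdec1
    set i := (st (seg X T1)).1 with hi
    set T2 := max T0 T1 with hT2
    -- a step with constant level
    have hcon : ∀ t ≥ T2, ∃ y', Child (uv (c i) (ν i)) (bv (c i) (ν i)) (X t) (st (seg X t)).2 y' ∧
        (i < m → hst r (st (seg X t)).2 (ν i) = false →
          Enc_rk r G c ν i y' < Enc_rk r G c ν i (st (seg X t)).2) ∧
        ¬ Go r m ν ee i (seg X (t + 1)) y' ∧ (st (seg X (t + 1))).2 = y' := by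
      intro t ht
      have e1 := hT1 t ((le_max_right _ _).trans ht)
      have e2 := hT1 (t + 1) (((le_max_right _ _).trans ht).trans (Nat.le_succ t))
      obtain ⟨y', hy1, hy2, h | h⟩ := hS' t
      · exfalso
        have h3 := h.1.1
        have h4 := h.2.1
        omega
      · rw [e1] at hy1 hy2 h
        rw [← hsucc] at h
        exact ⟨y', hy1, hy2, h.1, by rw [h.2]⟩
    have him : i ≤ m := (hI (seg X T1)).le
    -- the enumeration
    have hen : i < m → ∃ T, T2 ≤ T ∧ hst r (st (seg X T)).2 (ν i) = true := by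
      intro hlt
      by_contra hno
      push Not at hno
      have hfa : ∀ t ≥ T2, hst r (st (seg X t)).2 (ν i) = false := fun t ht => by
        have := hno t ht
        simpa using this
      refine Enc_dec (fun t => Enc_rk r G c ν i (st (seg X t)).2) T2 fun t ht => ?_
      obtain ⟨y', -, hy2, -, hy4⟩ := hcon t ht
      rw [hy4]
      exact hy2 hlt (hfa t ht)
    have hpers : ∀ T ≥ T2, hst r (st (seg X T)).2 (ν i) = true →
        ∀ t ≥ T, hst r (st (seg X t)).2 (ν i) = true := by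
      intro T hT hh t ht
      induction t, ht using Nat.le_induction with
      | base => exact hh
      | succ t ht ih =>
        obtain ⟨y', hy1, -, -, hy4⟩ := hcon t (hT.trans ht)
        rw [hy4]
        exact n2b r _ _ _ hy1.1 ih
    have hiN : i = m - N := by
      by_contra hne
      have hlow' : m - N ≤ i := hlow T1
      have h0 : 0 < i := by omega
      have hno : ∀ t ≥ T2, ¬ (i = m ∨ hst r (st (seg X (t + 1))).2 (ν i) = true) := by
        intro t ht h3
        obtain ⟨y', -, -, hy3, hy4⟩ := hcon t ht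
        apply hy3
        refine ⟨h0, ?_, ?_⟩
        · rw [hT0 (t + 1) (((le_max_left _ _).trans ht).trans (Nat.le_succ t)), ← hN]
          omega
        · rw [← hy4]
          exact h3
      have hlt : i < m := by
        rcases Nat.lt_or_ge i m with h | h
        · exact h
        · exact absurd (Or.inl (le_antisymm him h)) (hno T2 le_rfl)
      obtain ⟨T, hT, hh⟩ := hen hlt
      exact hno T hT (Or.inr (hpers T hT hh (T + 1) (Nat.le_succ T)))
    by_cases hlt : i < m
    · obtain ⟨T, hT, hh⟩ := hen hlt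
      refine ⟨T, fun t ht => ⟨?_, fun _ => ?_⟩⟩
      · rw [← hiN]
        exact hT1 t ((le_max_right T0 T1).trans (hT.trans ht))
      · rw [← hiN]
        exact hpers T hT hh t ht
    · refine ⟨T2, fun t ht => ⟨?_, fun h => ?_⟩⟩
      · rw [← hiN]
        exact hT1 t ((le_max_right T0 T1).trans ht)
      · rw [← hiN] at h
        exact absurd h hlt

end Pool.Agent.N584.PI
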