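import Pool.Agent.H639.LU.All
import Pool.Agent.H639.LU.K7
import Pool.Agent.H639.LU.K9

/-!
Project PI: solutions to Post's problem and computable permutations. Definitions and statements.
-/

set_option autoImplicit false

namespace Pool.Agent.N584.PI

open Nat.Partrec (Code)
open Encodable
open Pool.Agent.Helper446.Defs Pool.Agent.Helper446.Oracle
open Pool.Agent.H639.LU

/-! ### Primitive recursive programs -/

/-- The function computed by a program, unbounded search replaced by `0`. -/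
def ev : Code → ℕ → ℕ
  | .zero, _ => 0
  | .succ, x => x + 1
  | .left, x => x.unpair.1
  | .right, x => x.unpair.2
  | .pair a b, x => Nat.pair (ev a x) (ev b x)
  | .comp a b, x => ev a (ev b x)
  | .prec a b, x =>
    Nat.rec (ev a x.unpair.1) (fun y i => ev b (Nat.pair x.unpair.1 (Nat.pair y i))) x.unpair.2
  | .rfind' _, _ => 0

/-- the lengths given by a program -/
def uv (c : Code) (n ℓ : ℕ) : ℕ := ev c (encode ((0 : ℕ), n, ℓ))

/-- the bits given by a program -/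
def bv (c : Code) (n : ℕ) (σ y : Str) : Bool := ev c (encode ((1 : ℕ), n, σ, y)) == 1

/-- EV1: `ev` is computable. -/
def P_EV1 : Prop := Computable (fun p : Code × ℕ => ev p.1 p.2)

/-- EV2: `ev c` is primitive recursive. -/
def P_EV2 : Prop := ∀ c : Code, Primrec (ev c)

/-- EV3: the recursion theorem for primitive recursive functions. -/
def P_EV3 : Prop := ∀ F : Code → ℕ → ℕ, Primrec (fun p : Code × ℕ => F p.1 p.2) →
  ∃ c : Code, ∀ x, ev c x = F c x

/-- FIX (from EV3). -/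
def P_FIX : Prop := ∀ (v : ℕ → ℕ) (ψ : ℕ → Str → Bool), Primrec v →
  Primrec (fun p : ℕ × Str => ψ p.1 p.2) →
  ∃ c : Code, (∀ n ℓ, uv c n ℓ = v (encode ((0 : ℕ), c, n, List.replicate ℓ true))) ∧
    ∀ n σ y, bv c n σ y = ψ (encode ((0 : ℕ), c, n, σ)) y

/-! ### The game

Player I plays bits, player II plays finite strings `y₀ ≺ y₁ ≺ …` of prescribed lengths, starting
with the empty string; the next bit is decoded from two consecutive strings. -/

/-- the next length -/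
def nx (v : ℕ → ℕ) (ℓ : ℕ) : ℕ := max (ℓ + 1) (v ℓ)

/-- the lengths of the positions -/
def lev (v : ℕ → ℕ) (t : ℕ) : ℕ := Nat.rec 0 (fun _ ℓ => nx v ℓ) t

/-- extendible in `F` -/
def Ext (F : Set (ℕ → Bool)) (y : Str) : Prop := ∃ X ∈ F, seg X y.length = y

/-- `y'` is an answer of player II to the bit `b` in the position `y` -/
def Child (v : ℕ → ℕ) (ψ : Str → Str → Bool) (b : Bool) (y y' : Str) : Prop :=
  y <+: y' ∧ y'.length = nx v y.length ∧ ψ y y' = b

/-- player II can survive `T` rounds -/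
def CT (F : Set (ℕ → Bool)) (v : ℕ → ℕ) (ψ : Str → Str → Bool) : ℕ → Str → Prop
  | 0, y => Ext F y
  | T + 1, y => Ext F y ∧ ∀ b, ∃ y', Child v ψ b y y' ∧ CT F v ψ T y'

/-- player II can survive forever -/
def CC (F : Set (ℕ → Bool)) (v : ℕ → ℕ) (ψ : Str → Str → Bool) (y : Str) : Prop :=
  ∀ T, CT F v ψ T y

/-- player II can reach, in `s` rounds, a position in which she can survive forever and in which
`n` is enumerated -/
def RT (F : Set (ℕ → Bool)) (r : Code) (n : ℕ) (v : ℕ → ℕ) (ψ : Str → Str → Bool) :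
    ℕ → Str → Prop
  | 0, y => CC F v ψ y ∧ hst r y n = true
  | s + 1, y => RT F r n v ψ s y ∨
      (CC F v ψ y ∧ ∀ b, ∃ y', Child v ψ b y y' ∧ RT F r n v ψ s y')

/-- … in finitely many rounds -/
def RR (F : Set (ℕ → Bool)) (r : Code) (n : ℕ) (v : ℕ → ℕ) (ψ : Str → Str → Bool) (y : Str) :
    Prop := ∃ s, RT F r n v ψ s y

/-- player II can stay for `T` rounds in the positions in `RR` in which `n` is not enumerated -/
def QT (F : Set (ℕ → Bool)) (r : Code) (n : ℕ) (v : ℕ → ℕ) (ψ : Str → Str → Bool) :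
    ℕ → Str → Prop
  | 0, y => RR F r n v ψ y ∧ hst r y n = false
  | T + 1, y => (RR F r n v ψ y ∧ hst r y n = false) ∧
      ∀ b, ∃ y', Child v ψ b y y' ∧ QT F r n v ψ T y'

/-- … forever -/
def QQ (F : Set (ℕ → Bool)) (r : Code) (n : ℕ) (v : ℕ → ℕ) (ψ : Str → Str → Bool) (y : Str) :
    Prop := ∀ T, QT F r n v ψ T y

/-- the set of the results of plays in `QQ` -/
def Nxt (F : Set (ℕ → Bool)) (r : Code) (n : ℕ) (v : ℕ → ℕ) (ψ : Str → Str → Bool) :
    Set (ℕ → Bool) := {X | ∀ t, QQ F r n v ψ (seg X (lev v t))}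

/-- GAME: the compactness arguments. -/
def P_GAME : Prop := ∀ (F : Set (ℕ → Bool)) (r : Code) (n : ℕ) (v : ℕ → ℕ)
    (ψ : Str → Str → Bool),
  (∀ T y, CT F v ψ (T + 1) y → CT F v ψ T y) ∧
  (∀ y, CC F v ψ y → Ext F y) ∧
  (∀ y, CC F v ψ y → ∀ b, ∃ y', Child v ψ b y y' ∧ CC F v ψ y') ∧
  (∀ y, RR F r n v ψ y → CC F v ψ y) ∧
  (∀ s y, RT F r n v ψ s y → hst r y n = false →
    ∃ s' < s, ∀ b, ∃ y', Child v ψ b y y' ∧ RT F r n v ψ s' y') ∧
  (∀ y, CC F v ψ y → ¬ RR F r n v ψ y → ∃ b, ∀ y', Child v ψ b y y' → ¬ RR F r n v ψ y') ∧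
  (∀ T y, QT F r n v ψ (T + 1) y → QT F r n v ψ T y) ∧
  (∀ y, QQ F r n v ψ y → RR F r n v ψ y ∧ hst r y n = false ∧
    ∀ b, ∃ y', Child v ψ b y y' ∧ QQ F r n v ψ y')

/-- STR (from GAME, N1, N2): a strategy for player I. -/
def P_STR : Prop := ∀ (F : Set (ℕ → Bool)) (r : Code) (n : ℕ) (v : ℕ → ℕ)
    (ψ : Str → Str → Bool), ¬ QQ F r n v ψ [] →
  ∃ β : Str → Bool, ∀ Y ∈ F,
    (∀ t, ψ (seg Y (lev v t)) (seg Y (lev v (t + 1))) = β (seg Y (lev v t))) →
    (¬ W r Y n ↔ ∃ t, ¬ RR F r n v ψ (seg Y (lev v t)))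

/-- every oracle is primitive recursive (in the truth-table sense) in a member of `F` -/
def Cofp (F : Set (ℕ → Bool)) : Prop := ∀ z : ℕ → Bool, ∃ X ∈ F,
  ∃ (v : ℕ → ℕ) (ψ : ℕ → Str → Bool), Primrec v ∧ Primrec (fun p : ℕ × Str => ψ p.1 p.2) ∧
    Monotone v ∧ ∀ p s, v p ≤ s → ψ p (seg X s) = z p

/-- KEY (from STR, FIX, EV1 and the library). -/
def P_KEY : Prop := ∀ (r : Code) (z₀ : ℕ → Bool), (∀ X, le z₀ X → ¬ le (ch (W r X)) X) →
  ∀ F : Set (ℕ → Bool), Cofp F →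
    ∃ (n : ℕ) (c : Code), Monotone (uv c n) ∧ QQ F r n (uv c n) (bv c n) []

/-- NXT (from GAME, EV2, N2). -/
def P_NXT : Prop := ∀ (F : Set (ℕ → Bool)) (r : Code) (n : ℕ) (c : Code), Clo F →
  QQ F r n (uv c n) (bv c n) [] →
    Clo (Nxt F r n (uv c n) (bv c n)) ∧ Cofp (Nxt F r n (uv c n) (bv c n)) ∧
    Nxt F r n (uv c n) (bv c n) ⊆ F ∧ ∀ X ∈ Nxt F r n (uv c n) (bv c n), ¬ W r X n

/-- a chain of games -/
structure Chn (r : Code) (G : ℕ → Set (ℕ → Bool)) (c : ℕ → Code) (ν : ℕ → ℕ) : Prop where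
  clo : ∀ i, Clo (G i)
  mono : ∀ i, Monotone (uv (c i) (ν i))
  root : ∀ i, QQ (G i) r (ν i) (uv (c i) (ν i)) (bv (c i) (ν i)) []
  next : ∀ i, G (i + 1) = Nxt (G i) r (ν i) (uv (c i) (ν i)) (bv (c i) (ν i))

/-- CHN (from KEY, NXT): the existence of a chain. -/
def P_CHN : Prop := ∀ (r : Code) (z₀ : ℕ → Bool), (∀ X, le z₀ X → ¬ le (ch (W r X)) X) →
  ∃ (G : ℕ → Set (ℕ → Bool)) (c : ℕ → Code) (ν : ℕ → ℕ), Chn r G c ν

/-! ### The coding -/

/-- the event: the coding machine goes from `i` to `i - 1`; `x` is the sequence coded so far, `y`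
the code -/
def Go (r : Code) (m : ℕ) (ν : ℕ → ℕ) (ee : List ℕ) (i : ℕ) (x y : Str) : Prop :=
  0 < i ∧ m - i < cnt ee x ∧ (i = m ∨ hst r y (ν i) = true)

instance (r : Code) (m : ℕ) (ν : ℕ → ℕ) (ee : List ℕ) (i : ℕ) (x y : Str) :
    Decidable (Go r m ν ee i x y) := by unfold Go; infer_instance

/-- The properties of the coding machine `st`: for the string `x` it has the state
`(i, y) = st x`, and `y` is the code of `x`. -/
structure Enc (r : Code) (c : ℕ → Code) (ν : ℕ → ℕ) (m : ℕ) (ee : List ℕ) (st : Str → ℕ × Str) :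
    Prop where
  init : st [] = (m, [])
  step : ∀ x b, ∃ y', Child (uv (c (st x).1) (ν (st x).1)) (bv (c (st x).1) (ν (st x).1)) b
      (st x).2 y' ∧
    (Go r m ν ee (st x).1 (x ++ [b]) y' → (st (x ++ [b])).1 = (st x).1 - 1 ∧
      y' <+: (st (x ++ [b])).2 ∧
      (st (x ++ [b])).2.length =
        lev (uv (c ((st x).1 - 1)) (ν ((st x).1 - 1))) y'.length) ∧
    (¬ Go r m ν ee (st x).1 (x ++ [b]) y' → st (x ++ [b]) = ((st x).1, y'))
  le : ∀ x, (st x).1 ≤ m
  notyet : ∀ x, ∀ j < (st x).1, hst r (st x).2 (ν j) = false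
  done : ∀ x, ∀ j < m, (st x).1 < j → hst r (st x).2 (ν j) = true
  fin : ∀ X : ℕ → Bool, ∃ T, ∀ t ≥ T, (st (seg X t)).1 = m - cntP (J X) ee ∧
    (m - cntP (J X) ee < m → hst r (st (seg X t)).2 (ν (m - cntP (J X) ee)) = true)

/-- ENC (from GAME, NXT, N1, N2, D2): the coding machine exists. -/
def P_ENC : Prop := ∀ (r : Code) (G : ℕ → Set (ℕ → Bool)) (c : ℕ → Code) (ν : ℕ → ℕ),
  Chn r G c ν → ∀ (m : ℕ) (ee : List ℕ), ee.length ≤ m →
    ∃ st : Str → ℕ × Str, Enc r c ν m ee st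

/-- truth-table reduction of `Y` to `X`: `Θ t` computes the first `t` values of `Y` from each
initial segment of `X` of length at least `B t` -/
def TT (B : ℕ → ℕ) (Θ : ℕ → Str → Str) (X Y : ℕ → Bool) : Prop :=
  ∀ t s, B t ≤ s → Θ t (seg X s) = seg Y t

/-- one step of the decoding machine; the state is (the sequence decoded, the level, the length
read) -/
def dstp (r : Code) (m : ℕ) (c : ℕ → Code) (ν : ℕ → ℕ) (ee : List ℕ) (w : Str)
    (q : Str × ℕ × ℕ) : Str × ℕ × ℕ :=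
  let ℓ' := nx (uv (c q.2.1) (ν q.2.1)) q.2.2
  let x' := q.1 ++ [bv (c q.2.1) (ν q.2.1) (w.take q.2.2) (w.take ℓ')]
  if Go r m ν ee q.2.1 x' (w.take ℓ') then
    (x', q.2.1 - 1, lev (uv (c (q.2.1 - 1)) (ν (q.2.1 - 1))) ℓ')
  else (x', q.2.1, ℓ')

/-- the state of the decoding machine after `t` steps -/
def dmach (r : Code) (m : ℕ) (c : ℕ → Code) (ν : ℕ → ℕ) (ee : List ℕ) (w : Str) (t : ℕ) :
    Str × ℕ × ℕ :=
  Nat.rec ([], m, 0) (fun _ q => dstp r m c ν ee w q) t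

/-- the use of the decoding machine -/
def use2 (m : ℕ) (c : ℕ → Code) (ν : ℕ → ℕ) (t : ℕ) : ℕ :=
  Nat.rec 0 (fun _ b => ((List.range (m + 1)).map fun i => ((List.range (m + 1)).map fun j =>
    lev (uv (c j) (ν j)) (nx (uv (c i) (ν i)) b)).sum).sum) t

/-- the sequence decoded after `t` steps -/
def out2 (r : Code) (m : ℕ) (c : ℕ → Code) (ν : ℕ → ℕ) (ee : List ℕ) (t : ℕ) (w : Str) : Str :=
  (dmach r m c ν ee w t).1

/-- DM: the decoding machine works. -/
def P_DM : Prop := ∀ (r : Code) (m : ℕ) (c : ℕ → Code) (ν : ℕ → ℕ) (ee : List ℕ)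
    (st : Str → ℕ × Str), Enc r c ν m ee st → (∀ i ≤ m, Monotone (uv (c i) (ν i))) →
  ∀ X Y : ℕ → Bool, (∀ t, seg Y (st (seg X t)).2.length = (st (seg X t)).2) →
    TT (use2 m c ν) (out2 r m c ν ee) Y X

/-- the positions of the table of the codes in the oracle -/
def use1 (ee : List ℕ) (t : ℕ) : ℕ := 2 * encode (ee, List.replicate t true, t) + t + 1

/-- reading the code from the oracle -/
def out1 (ee : List ℕ) (t : ℕ) (w : Str) : Str :=
  (List.range t).map (fun n => w.getD (2 * encode (ee, w.take (n + 1), n)) false)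

/-- Z1: the table of the codes. -/
def P_Z1 : Prop := ∀ Yp : List ℕ → Str → Str, (∀ ee x b, Yp ee x <+: Yp ee (x ++ [b])) →
  (∀ ee x, x.length ≤ (Yp ee x).length) → ∃ ζ : ℕ → Bool, ∀ (ee : List ℕ) (X Y : ℕ → Bool),
    (∀ n, X (2 * n) = ζ n) → (∀ t, seg Y (Yp ee (seg X t)).length = Yp ee (seg X t)) →
      TT (use1 ee) (out1 ee) X Y

/-- CORE (from CHN, ENC, DM, Z1, L1, N1, N2, D2). -/
def P_CORE : Prop := ∀ (r : Code) (z₀ : ℕ → Bool), (∀ X, le z₀ X → ¬ le (ch (W r X)) X) →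
  ∀ m : ℕ, ∃ (ζ : ℕ → Bool) (cs : List Code) (νs : List ℕ),
    ∀ X : ℕ → Bool, (∀ n, X (2 * n) = ζ n) → ∀ ee : List ℕ, ee.length ≤ m → ∃ Y : ℕ → Bool,
      TT (use1 ee) (out1 ee) X Y ∧
      TT (use2 m (fun i => cs.getD i Code.zero) (fun i => νs.getD i 0))
        (out2 r m (fun i => cs.getD i Code.zero) (fun i => νs.getD i 0) ee) Y X ∧
      ∀ j < m, (W r Y (νs.getD j 0) ↔ m - cntP (J X) ee ≤ j)

/-! ### Clopen sets -/

/-- all strings of length `n` -/
def strs : ℕ → List Str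
  | 0 => [[]]
  | n + 1 => (strs n).flatMap (fun s => [s ++ [false], s ++ [true]])

/-- some member of `L` is an initial segment of `w` -/
def inC (L : List Str) (w : Str) : Bool := L.any (fun σ => decide (σ <+: w))

/-- the maximal length -/
def ml (L : List Str) : ℕ := (L.map List.length).foldr max 0

/-- the list of strings with code `l` -/
def dL (l : ℕ) : List Str := (decode (α := List Str) l).getD []

/-- `X` belongs to the clopen set with code `l` -/
def val (X : ℕ → Bool) (l : ℕ) : Bool := inC (dL l) (seg X l)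

/-- the oracle which answers all questions about clopen sets, with infinitely many copies of each
question -/
def hat (X : ℕ → Bool) (p : ℕ) : Bool := val X p.unpair.2

/-- the preimage of a clopen set under a truth-table functional -/
def pull (B : ℕ → ℕ) (Θ : ℕ → Str → Str) (l : ℕ) : ℕ :=
  encode ((strs (B (ml (dL l)))).filter (fun w => inC (dL l) (Θ (ml (dL l)) w)))

/-- PUL: preimages of clopen sets. -/
def P_PUL : Prop := ∀ (B : ℕ → ℕ) (Θ : ℕ → Str → Str) (X Y : ℕ → Bool), TT B Θ X Y →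
  ∀ l, val Y l = val X (pull B Θ l)

/-- HAT: `X` and `hat X` compute each other uniformly, by total functionals. -/
def P_HAT : Prop :=
  (∃ f : ℕ → ℕ, Computable f ∧ ∀ (X : ℕ → Bool) (n : ℕ), X n = hat X (f n)) ∧
  ∃ H : Str → Str, Computable H ∧ ∀ (X : ℕ → Bool) (t : ℕ), H (seg X t) = seg (hat X) t

/-- the data of the reductions -/
def rD (d : ℕ) : Code := (Denumerable.ofNat (Code × ℕ × List Code × List ℕ × List ℕ) d).1
def mD (d : ℕ) : ℕ := (Denumerable.ofNat (Code × ℕ × List Code × List ℕ × List ℕ) d).2.1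
def cD (d i : ℕ) : Code :=
  (Denumerable.ofNat (Code × ℕ × List Code × List ℕ × List ℕ) d).2.2.1.getD i Code.zero
def νD (d i : ℕ) : ℕ :=
  (Denumerable.ofNat (Code × ℕ × List Code × List ℕ × List ℕ) d).2.2.2.1.getD i 0
def eD (d : ℕ) : List ℕ :=
  (Denumerable.ofNat (Code × ℕ × List Code × List ℕ × List ℕ) d).2.2.2.2

/-- CMP (from EV1, C1): the preimages of clopen sets under the functionals are computed
uniformly. -/
def P_CMP : Prop :=
  Computable₂ (fun d l : ℕ => pull (use1 (eD d)) (out1 (eD d)) l) ∧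
  Computable₂ (fun d l : ℕ => pull (use2 (mD d) (cD d) (νD d))
    (out2 (rD d) (mD d) (cD d) (νD d) (eD d)) l)

/-- CSB: the Cantor-Schröder-Bernstein construction. -/
def P_CSB : Prop := ∃ Pm : (ℕ → ℕ) → (ℕ → ℕ) → Equiv.Perm ℕ,
  (∀ (f g : ℕ → ℕ) (P Q : ℕ → Bool), (∀ l, Q l = P (f l)) → (∀ l, P l = Q (g l)) →
    ∀ p, Q p.unpair.2 = P (Pm f g p).unpair.2) ∧
  ∀ f g : ℕ → ℕ → ℕ, Computable₂ f → Computable₂ g →
    Computable₂ (fun d p => Pm (f d) (g d) p) ∧ Computable₂ (fun d p => (Pm (f d) (g d)).symm p)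

/-- OPR (from N1, N2, C1, K1): composition of an operator with a total functional. -/
def P_OPR : Prop := ∀ (h : (ℕ → Bool) → ℕ → Bool) (H : Str → Str), Computable H →
  (∀ X t, H (seg X t) = seg (h X) t) → ∀ r : Code, ∃ r' : Code, ∀ X n, W r' X n ↔ W r (h X) n

/-- RED (from K1): total functionals as programs. -/
def P_RED : Prop := ∀ (B : ℕ → ℕ) (Θ : ℕ → Str → Str), Computable B →
  Computable (fun p : ℕ × Str => Θ p.1 p.2) → ∃ c : Code, ∀ X Y, TT B Θ X Y → Red c X Y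

end Pool.Agent.N584.PI
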