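import Mathlib
import Pool.Agent.N584.PI.Stm

/-!
Project PI: primitive recursive programs and the recursion theorem (helper457).
-/

set_option autoImplicit false

namespace Pool.Agent.N584.PI

open Nat.Partrec (Code)
open Encodable
open Pool.Agent.Helper446.Defs Pool.Agent.Helper446.Oracle
open Pool.Agent.H639.LU

/-! ### `ev` is computable -/

/-- the program without unbounded search -/
def EV_tr (c : Code) : Code :=
  Nat.Partrec.Code.recOn c Code.zero Code.succ Code.left Code.right
    (fun _ _ a b => Code.pair a b) (fun _ _ a b => Code.comp a b)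
    (fun _ _ a b => Code.prec a b) (fun _ _ => Code.zero)

theorem EV_tr_primrec : Primrec EV_tr := by
  have h1 : Primrec fun p : Code × Code × Code × Code × Code => p.2.2.2.1 :=
    Primrec.fst.comp (Primrec.snd.comp (Primrec.snd.comp Primrec.snd))
  have h2 : Primrec fun p : Code × Code × Code × Code × Code => p.2.2.2.2 :=
    Primrec.snd.comp (Primrec.snd.comp (Primrec.snd.comp Primrec.snd))
  exact Nat.Partrec.Code.primrec_recOn (α := Code) (σ := Code) (c := fun c => c)
    (z := fun _ => Code.zero) (s := fun _ => Code.succ) (l := fun _ => Code.left)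
    (r := fun _ => Code.right) (pr := fun _ _ _ a b => Code.pair a b)
    (co := fun _ _ _ a b => Code.comp a b) (pc := fun _ _ _ a b => Code.prec a b)
    (rf := fun _ _ _ => Code.zero) Primrec.id (Primrec.const _) (Primrec.const _)
    (Primrec.const _) (Primrec.const _) (Nat.Partrec.Code.primrec₂_pair.comp h1 h2)
    (Nat.Partrec.Code.primrec₂_comp.comp h1 h2) (Nat.Partrec.Code.primrec₂_prec.comp h1 h2)
    (Primrec.const _)

theorem EV_eval_tr : ∀ (c : Code) (x : ℕ), (EV_tr c).eval x = Part.some (ev c x) := by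
  intro c
  induction c with
  | zero => intro x; rfl
  | succ => intro x; rfl
  | left => intro x; rfl
  | right => intro x; rfl
  | pair a b iha ihb =>
    intro x
    show (Code.pair (EV_tr a) (EV_tr b)).eval x = Part.some (Nat.pair (ev a x) (ev b x))
    simp [Nat.Partrec.Code.eval, iha, ihb, Seq.seq]
  | comp a b iha ihb =>
    intro x
    show Part.bind ((EV_tr b).eval x) (EV_tr a).eval = Part.some (ev a (ev b x))
    rw [ihb]
    exact (Part.bind_some _ _).trans (iha _)
  | prec a b iha ihb =>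
    intro x
    show (Code.prec (EV_tr a) (EV_tr b)).eval x = Part.some (Nat.rec (ev a x.unpair.1)
      (fun y i => ev b (Nat.pair x.unpair.1 (Nat.pair y i))) x.unpair.2)
    have h : ∀ (u n : ℕ), (Code.prec (EV_tr a) (EV_tr b)).eval (Nat.pair u n) =
        Part.some (Nat.rec (ev a u) (fun y i => ev b (Nat.pair u (Nat.pair y i))) n) := by
      intro u n
      induction n with
      | zero =>
        rw [Nat.Partrec.Code.eval_prec_zero, iha]
        rfl
      | succ n ih =>
        rw [Nat.Partrec.Code.eval_prec_succ, ih]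
        simp [ihb]
    have h2 := h x.unpair.1 x.unpair.2
    rwa [Nat.pair_unpair] at h2
  | rfind' a _ => intro x; rfl

/-- EV1 -/
theorem t_EV1 : P_EV1 := by
  have h1 : Partrec fun p : Code × ℕ => (EV_tr p.1).eval p.2 :=
    Nat.Partrec.Code.eval_part.comp (EV_tr_primrec.to_comp.comp Computable.fst) Computable.snd
  exact h1.of_eq fun p => EV_eval_tr p.1 p.2

/-! ### `ev c` is primitive recursive -/

theorem EV_prim : ∀ c : Code, Nat.Primrec (ev c) := by
  intro c
  induction c with
  | zero => exact Nat.Primrec.zero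
  | succ => exact Nat.Primrec.succ
  | left => exact Nat.Primrec.left
  | right => exact Nat.Primrec.right
  | pair a b iha ihb => exact Nat.Primrec.pair iha ihb
  | comp a b iha ihb =>
    have h : Nat.Primrec fun n => ev a (ev b n) := Nat.Primrec.comp iha ihb
    exact h
  | prec a b iha ihb => exact Nat.Primrec.prec iha ihb
  | rfind' a _ => exact Nat.Primrec.zero

/-- EV2 -/
theorem t_EV2 : P_EV2 := fun c => Primrec.nat_iff.2 (EV_prim c)

/-! ### The recursion theorem -/

theorem EV_code {f : ℕ → ℕ} (hf : Nat.Primrec f) : ∃ c : Code, ∀ x, ev c x = f x := by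
  induction hf with
  | zero => exact ⟨Code.zero, fun _ => rfl⟩
  | succ => exact ⟨Code.succ, fun _ => rfl⟩
  | left => exact ⟨Code.left, fun _ => rfl⟩
  | right => exact ⟨Code.right, fun _ => rfl⟩
  | pair _ _ ihf ihg =>
    obtain ⟨a, ha⟩ := ihf
    obtain ⟨b, hb⟩ := ihg
    refine ⟨Code.pair a b, fun x => ?_⟩
    show Nat.pair (ev a x) (ev b x) = _
    rw [ha, hb]
  | comp _ _ ihf ihg =>
    obtain ⟨a, ha⟩ := ihf
    obtain ⟨b, hb⟩ := ihg
    refine ⟨Code.comp a b, fun x => ?_⟩
    show ev a (ev b x) = _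
    rw [ha, hb]
  | prec _ _ ihf ihg =>
    obtain ⟨a, ha⟩ := ihf
    obtain ⟨b, hb⟩ := ihg
    refine ⟨Code.prec a b, fun x => ?_⟩
    show (Nat.rec (ev a x.unpair.1)
      (fun y i => ev b (Nat.pair x.unpair.1 (Nat.pair y i))) x.unpair.2 : ℕ) = _
    simp only [ha, hb]

theorem EV_const (n x : ℕ) : ev (Code.const n) x = n := by
  induction n with
  | zero => rfl
  | succ n ih =>
    show ev (Code.const n) x + 1 = n + 1
    rw [ih]

theorem EV_id (x : ℕ) : ev Code.id x = x := Nat.pair_unpair x

theorem EV_curry (c : Code) (n x : ℕ) : ev (Code.curry c n) x = ev c (Nat.pair n x) := by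
  show ev c (Nat.pair (ev (Code.const n) x) (ev Code.id x)) = _
  rw [EV_const, EV_id]

/-- EV3 -/
theorem t_EV3 : P_EV3 := by
  intro F hF
  have h1 : Primrec fun z : ℕ => F (Code.curry (Denumerable.ofNat Code z.unpair.1) z.unpair.1)
      z.unpair.2 := by
    have h2 : Primrec fun z : ℕ => z.unpair.1 := Primrec.fst.comp Primrec.unpair
    have h3 : Primrec fun z : ℕ => z.unpair.2 := Primrec.snd.comp Primrec.unpair
    exact hF.comp ((Nat.Partrec.Code.primrec₂_curry.comp ((Primrec.ofNat Code).comp h2) h2).pair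
      h3)
  obtain ⟨a, ha⟩ := EV_code (Primrec.nat_iff.1 h1)
  refine ⟨Code.curry a (encode a), fun x => ?_⟩
  rw [EV_curry, ha]
  simp

theorem EV_replicate (n : ℕ) : List.replicate n true = (List.range n).map fun _ => true := by
  rw [List.map_const', List.length_range]

theorem EV_replicate_primrec : Primrec fun n : ℕ => List.replicate n true :=
  (Primrec.list_map Primrec.list_range (Primrec₂.const true)).of_eq fun n =>
    (EV_replicate n).symm

/-- decoding of the arguments -/
def EV_d (z : ℕ) : ℕ × Str × Str := (decode (α := ℕ × Str × Str) z).getD (0, [], [])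

theorem EV_d_primrec : Primrec EV_d :=
  Primrec.option_getD.comp Primrec.decode (Primrec.const _)

theorem EV_d_encode (q : ℕ × Str × Str) : EV_d (encode q) = q := by
  unfold EV_d
  rw [encodek]
  rfl

/-- the code of a tuple -/
def EV_e (q : Code × ℕ × Str) : ℕ := encode ((0 : ℕ), q.1, q.2.1, q.2.2)

theorem EV_e_primrec : Primrec EV_e := by
  have h1 : Primrec fun q : Code × ℕ × Str => q.2.1 := Primrec.fst.comp Primrec.snd
  have h2 : Primrec fun q : Code × ℕ × Str => q.2.2 := Primrec.snd.comp Primrec.snd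
  exact Primrec.encode.comp ((Primrec.const 0).pair (Primrec.fst.pair (h1.pair h2)))

attribute [local irreducible] EV_d EV_e

/-- FIX -/
theorem t_FIX (h : P_EV3) : P_FIX := by
  intro v ψ hv hψ
  have u1 : Primrec fun p : Code × ℕ => p.2.unpair.2 :=
    Primrec.snd.comp (Primrec.unpair.comp Primrec.snd)
  have u0 : Primrec fun p : Code × ℕ => p.2.unpair.1 :=
    Primrec.fst.comp (Primrec.unpair.comp Primrec.snd)
  have u2 : Primrec fun p : Code × ℕ => p.2.unpair.2.unpair.1 :=
    Primrec.fst.comp (Primrec.unpair.comp u1)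
  have u3 : Primrec fun p : Code × ℕ => List.replicate p.2.unpair.2.unpair.2 true :=
    EV_replicate_primrec.comp (Primrec.snd.comp (Primrec.unpair.comp u1))
  have h1 : Primrec fun p : Code × ℕ => v (EV_e (p.1, p.2.unpair.2.unpair.1,
      List.replicate p.2.unpair.2.unpair.2 true)) :=
    hv.comp (EV_e_primrec.comp (Primrec.fst.pair (u2.pair u3)))
  have d1 : Primrec fun p : Code × ℕ => EV_d p.2.unpair.2 := EV_d_primrec.comp u1
  have d2 : Primrec fun p : Code × ℕ => (EV_d p.2.unpair.2).1 := Primrec.fst.comp d1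
  have d3 : Primrec fun p : Code × ℕ => (EV_d p.2.unpair.2).2.1 :=
    Primrec.fst.comp (Primrec.snd.comp d1)
  have d4 : Primrec fun p : Code × ℕ => (EV_d p.2.unpair.2).2.2 :=
    Primrec.snd.comp (Primrec.snd.comp d1)
  have d5 : Primrec fun p : Code × ℕ =>
      EV_e (p.1, (EV_d p.2.unpair.2).1, (EV_d p.2.unpair.2).2.1) :=
    EV_e_primrec.comp (Primrec.fst.pair (d2.pair d3))
  have h2 : Primrec fun p : Code × ℕ =>
      ψ (EV_e (p.1, (EV_d p.2.unpair.2).1, (EV_d p.2.unpair.2).2.1)) (EV_d p.2.unpair.2).2.2 :=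
    hψ.comp (d5.pair d4)
  have h3 : Primrec fun p : Code × ℕ => Bool.toNat (ψ (EV_e (p.1, (EV_d p.2.unpair.2).1,
      (EV_d p.2.unpair.2).2.1)) (EV_d p.2.unpair.2).2.2) :=
    (Primrec.dom_bool Bool.toNat).comp h2
  have h4 : Primrec fun p : Code × ℕ => if p.2.unpair.1 = 0 then
      v (EV_e (p.1, p.2.unpair.2.unpair.1, List.replicate p.2.unpair.2.unpair.2 true))
      else Bool.toNat (ψ (EV_e (p.1, (EV_d p.2.unpair.2).1,
      (EV_d p.2.unpair.2).2.1)) (EV_d p.2.unpair.2).2.2) :=
    Primrec.ite (Primrec.eq.comp u0 (Primrec.const 0)) h1 h3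
  obtain ⟨c, hc⟩ := h (fun c x => if x.unpair.1 = 0 then
      v (EV_e (c, x.unpair.2.unpair.1, List.replicate x.unpair.2.unpair.2 true))
      else Bool.toNat (ψ (EV_e (c, (EV_d x.unpair.2).1,
      (EV_d x.unpair.2).2.1)) (EV_d x.unpair.2).2.2)) h4
  refine ⟨c, fun n ℓ => ?_, fun n σ y => ?_⟩
  · unfold uv
    rw [hc]
    have e1 : encode ((0 : ℕ), n, ℓ) = Nat.pair 0 (Nat.pair n ℓ) := rfl
    rw [e1, Nat.unpair_pair, if_pos rfl]
    dsimp only
    rw [Nat.unpair_pair]
    unfold EV_e
    rfl
  · unfold bv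
    rw [hc]
    have e1 : encode ((1 : ℕ), n, σ, y) = Nat.pair 1 (encode (n, σ, y)) := rfl
    rw [e1, Nat.unpair_pair, if_neg one_ne_zero]
    dsimp only
    rw [EV_d_encode]
    unfold EV_e
    dsimp only
    cases ψ (encode ((0 : ℕ), c, n, σ)) y <;> rfl

end Pool.Agent.N584.PI
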