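import Pool.Agent.N584.PI.Stm

/-!
Project PI: the compactness lemmas for the game.
-/

set_option autoImplicit false

namespace Pool.Agent.N584.PI

open Nat.Partrec (Code)
open Encodable
open Pool.Agent.Helper446.Defs Pool.Agent.Helper446.Oracle
open Pool.Agent.H639.LU

theorem GAME_anti {P : ℕ → Str → Prop} (hP : ∀ T y, P (T + 1) y → P T y) {T T' : ℕ}
    (h : T ≤ T') {y : Str} (hy : P T' y) : P T y := by
  induction h with
  | refl => exact hy
  | step _ ih => exact ih (hP _ _ hy)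

theorem GAME_compact (L : ℕ) (K : Str → Prop) (hK : ∀ y, K y → y.length = L)
    (P : ℕ → Str → Prop) (hP : ∀ T y, P (T + 1) y → P T y)
    (h : ∀ T, ∃ y, K y ∧ P T y) : ∃ y, K y ∧ ∀ T, P T y := by
  by_contra hcon
  push Not at hcon
  have hex : ∀ y : Str, ∃ T, K y → ¬ P T y := by
    intro y
    by_cases hy : K y
    · obtain ⟨T, hT⟩ := hcon y hy
      exact ⟨T, fun _ => hT⟩
    · exact ⟨0, fun h => absurd h hy⟩
  choose T hT using hex
  have hfin : {y : Str | y.length = L}.Finite := List.finite_length_eq Bool L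
  obtain ⟨M, hM⟩ := (hfin.image T).bddAbove
  obtain ⟨y, hy, hPy⟩ := h M
  refine hT y hy (GAME_anti hP ?_ hPy)
  exact hM ⟨y, hK y hy, rfl⟩

theorem GAME_CT (F : Set (ℕ → Bool)) (v : ℕ → ℕ) (ψ : Str → Str → Bool) :
    ∀ T y, CT F v ψ (T + 1) y → CT F v ψ T y := by
  intro T
  induction T with
  | zero => exact fun y h => h.1
  | succ T ih =>
    intro y h
    refine ⟨h.1, fun b => ?_⟩
    obtain ⟨y', h1, h2⟩ := h.2 b
    exact ⟨y', h1, ih y' h2⟩

theorem GAME_RT_succ {F : Set (ℕ → Bool)} {r : Code} {n : ℕ} {v : ℕ → ℕ}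
    {ψ : Str → Str → Bool} {s s' : ℕ} (h : s ≤ s') {y : Str} (hy : RT F r n v ψ s y) :
    RT F r n v ψ s' y := by
  induction h with
  | refl => exact hy
  | step _ ih => exact Or.inl ih

theorem GAME_RT_CC (F : Set (ℕ → Bool)) (r : Code) (n : ℕ) (v : ℕ → ℕ)
    (ψ : Str → Str → Bool) : ∀ s y, RT F r n v ψ s y → CC F v ψ y := by
  intro s
  induction s with
  | zero => exact fun y h => h.1
  | succ s ih =>
    rintro y (h | h)
    · exact ih y h
    · exact h.1

theorem GAME_RT_lt (F : Set (ℕ → Bool)) (r : Code) (n : ℕ) (v : ℕ → ℕ)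
    (ψ : Str → Str → Bool) : ∀ s y, RT F r n v ψ s y → hst r y n = false →
    ∃ s' < s, ∀ b, ∃ y', Child v ψ b y y' ∧ RT F r n v ψ s' y' := by
  intro s
  induction s with
  | zero =>
    intro y h h0
    rw [h.2] at h0
    exact absurd h0 (by decide)
  | succ s ih =>
    rintro y (h | h) h0
    · obtain ⟨s', h1, h2⟩ := ih y h h0
      exact ⟨s', by omega, h2⟩
    · exact ⟨s, Nat.lt_succ_self s, h.2⟩

theorem GAME_QT (F : Set (ℕ → Bool)) (r : Code) (n : ℕ) (v : ℕ → ℕ) (ψ : Str → Str → Bool) :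
    ∀ T y, QT F r n v ψ (T + 1) y → QT F r n v ψ T y := by
  intro T
  induction T with
  | zero => exact fun y h => h.1
  | succ T ih =>
    intro y h
    refine ⟨h.1, fun b => ?_⟩
    obtain ⟨y', h1, h2⟩ := h.2 b
    exact ⟨y', h1, ih y' h2⟩

theorem t_GAME : P_GAME := by
  intro F r n v ψ
  refine ⟨GAME_CT F v ψ, fun y h => h 0, fun y h b => ?_, fun y h => ?_,
    GAME_RT_lt F r n v ψ, fun y hC hR => ?_, GAME_QT F r n v ψ, fun y h => ?_⟩
  · exact GAME_compact (nx v y.length) (Child v ψ b y) (fun y' h' => h'.2.1) (CT F v ψ)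
      (GAME_CT F v ψ) fun T => (h (T + 1)).2 b
  · obtain ⟨s, hs⟩ := h
    exact GAME_RT_CC F r n v ψ s y hs
  · by_contra hcon
    push Not at hcon
    obtain ⟨y0, h0, s0, hs0⟩ := hcon false
    obtain ⟨y1, h1, s1, hs1⟩ := hcon true
    refine hR ⟨max s0 s1 + 1, Or.inr ⟨hC, fun b => ?_⟩⟩
    cases b with
    | false => exact ⟨y0, h0, GAME_RT_succ (le_max_left _ _) hs0⟩
    | true => exact ⟨y1, h1, GAME_RT_succ (le_max_right _ _) hs1⟩
  · refine ⟨(h 0).1, (h 0).2, fun b => ?_⟩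
    exact GAME_compact (nx v y.length) (Child v ψ b y) (fun y' h' => h'.2.1) (QT F r n v ψ)
      (GAME_QT F r n v ψ) fun T => (h (T + 1)).2 b

end Pool.Agent.N584.PI
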