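import Pool.Agent.N584.PI.Stm

/-!
Project PI, KEY: the key lemma, by the recursion theorem and Post's theorem.
-/

set_option autoImplicit false

namespace Pool.Agent.N584.PI

open Nat.Partrec (Code)
open Encodable
open Pool.Agent.Helper446 Pool.Agent.Helper446.Defs Pool.Agent.Helper446.Oracle
open Pool.Agent.H639.LU

theorem KEY_len (X : ℕ → Bool) (t : ℕ) : (seg X t).length = t := by simp [seg]

theorem KEY_pair_mono {a a' b b' : ℕ} (ha : a ≤ a') (hb : b ≤ b') :
    Nat.pair a b ≤ Nat.pair a' b' := by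
  have h1 : Nat.pair a b ≤ Nat.pair a' b := by
    rcases ha.lt_or_eq with h | h
    · exact (Nat.pair_lt_pair_left b h).le
    · rw [h]
  have h2 : Nat.pair a' b ≤ Nat.pair a' b' := by
    rcases hb.lt_or_eq with h | h
    · exact (Nat.pair_lt_pair_right a' h).le
    · rw [h]
  exact h1.trans h2

theorem KEY_enc (σ : Str) : ∀ ℓ : ℕ, σ.length ≤ ℓ → encode σ ≤ encode (List.replicate ℓ true) := by
  induction σ with
  | nil =>
    intro ℓ _
    simp
  | cons b σ ih =>
    intro ℓ hℓ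
    obtain ⟨ℓ', rfl⟩ : ∃ ℓ', ℓ = ℓ' + 1 := ⟨ℓ - 1, by simp at hℓ; omega⟩
    rw [List.replicate_succ, encode_list_cons, encode_list_cons]
    refine Nat.succ_le_succ (KEY_pair_mono ?_ (ih ℓ' (by simpa using hℓ)))
    cases b <;> decide

theorem KEY_enc_mono {ℓ ℓ' : ℕ} (h : ℓ ≤ ℓ') :
    encode (List.replicate ℓ true) ≤ encode (List.replicate ℓ' true) :=
  KEY_enc _ _ (by simpa using h)

theorem KEY_enc4 {k n : ℕ} {c : Code} {σ τ : Str} (h : encode σ ≤ encode τ) :
    encode (k, c, n, σ) ≤ encode (k, c, n, τ) := by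
  rw [encode_prod_val, encode_prod_val, encode_prod_val, encode_prod_val, encode_prod_val,
    encode_prod_val]
  exact KEY_pair_mono le_rfl (KEY_pair_mono le_rfl (KEY_pair_mono le_rfl h))

open Classical in
/-- the code of all the oracles -/
noncomputable def KEY_z (F : Set (ℕ → Bool)) (r : Code) (β : ℕ → Code → Str → Bool)
    (z₀ : ℕ → Bool) (p : ℕ) : Bool :=
  match (decode p : Option (ℕ × Code × ℕ × Str)) with
  | none => false
  | some (0, c, n, σ) => β n c σ
  | some (1, c, n, σ) => decide (¬ RR F r n (uv c n) (bv c n) σ)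
  | some (_, _, n, _) => z₀ n

theorem KEY_uv_comp (h3 : P_EV1) (c : Code) : Computable (fun q : ℕ × ℕ => uv c q.1 q.2) := by
  have hp : Computable (fun q : ℕ × ℕ => (c, encode ((0 : ℕ), q.1, q.2))) :=
    (Computable.const c).pair (by fun_prop)
  have h := Computable.comp (f := fun p : Code × ℕ => ev p.1 p.2) h3 hp
  simp only at h
  simp only [uv]
  exact h

theorem KEY_lev_comp (h3 : P_EV1) (c : Code) :
    Computable (fun p : ℕ × ℕ => lev (uv c p.1) p.2) := by
  obtain ⟨u, hu⟩ : ∃ u : ℕ × ℕ → ℕ, ∀ q, u q = uv c q.1 q.2 := ⟨_, fun _ => rfl⟩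
  have huc : Computable u := (KEY_uv_comp h3 c).of_eq fun q => (hu q).symm
  have h4 : Computable₂ (fun (p : ℕ × ℕ) (q : ℕ × ℕ) => max (q.2 + 1) (u (p.1, q.2))) := by
    refine Computable.to₂ (f := fun x : (ℕ × ℕ) × (ℕ × ℕ) => max (x.2.2 + 1) (u (x.1.1, x.2.2))) ?_
    exact RE.cmax (by fun_prop) (huc.comp (by fun_prop))
  have h5 := Computable.nat_rec (f := fun p : ℕ × ℕ => p.2) (g := fun _ : ℕ × ℕ => (0 : ℕ))
    (by fun_prop) (by fun_prop) h4
  refine h5.of_eq fun p => ?_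
  unfold lev
  generalize p.2 = t
  induction t with
  | zero => rfl
  | succ t ih =>
    simp only at ih ⊢
    rw [ih, nx, hu]

theorem KEY_zex (F : Set (ℕ → Bool)) (r : Code) (β : ℕ → Code → Str → Bool) (z₀ : ℕ → Bool) :
    ∃ z : ℕ → Bool, (∀ (c : Code) (n : ℕ) (σ : Str), z (encode ((0 : ℕ), c, n, σ)) = β n c σ) ∧
      (∀ (c : Code) (n : ℕ) (σ : Str), z (encode ((1 : ℕ), c, n, σ)) = true ↔
        ¬ RR F r n (uv c n) (bv c n) σ) ∧
      ∀ (c : Code) (n : ℕ), z₀ n = z (encode ((2 : ℕ), c, n, ([] : Str))) := by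
  refine ⟨KEY_z F r β z₀, fun c n σ => ?_, fun c n σ => ?_, fun c n => ?_⟩
  · simp only [KEY_z, encodek]
  · simp only [KEY_z, encodek, decide_eq_true_eq]
  · simp only [KEY_z, encodek]

theorem t_KEY (h1 : P_STR) (h2 : P_FIX) (h3 : P_EV1) : P_KEY := by
  intro r z₀ hz0 F hF
  by_contra hcon
  have hno : ∀ n c, Monotone (uv c n) → ¬ QQ F r n (uv c n) (bv c n) [] := by
    intro n c hm hq
    exact hcon ⟨n, c, hm, hq⟩
  have hstr : ∀ n c, ∃ β : Str → Bool, Monotone (uv c n) → ∀ Y ∈ F,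
      (∀ t, bv c n (seg Y (lev (uv c n) t)) (seg Y (lev (uv c n) (t + 1))) =
        β (seg Y (lev (uv c n) t))) →
      (¬ W r Y n ↔ ∃ t, ¬ RR F r n (uv c n) (bv c n) (seg Y (lev (uv c n) t))) := by
    intro n c
    by_cases hm : Monotone (uv c n)
    · obtain ⟨β, hβ⟩ := h1 F r n (uv c n) (bv c n) (hno n c hm)
      exact ⟨β, fun _ => hβ⟩
    · exact ⟨fun _ => false, fun h => absurd h hm⟩
  choose β hβ using hstr
  obtain ⟨z, zA, zB, zC⟩ := KEY_zex F r β z₀
  obtain ⟨X, hXF, v, ψ, hv, hψ, hvm, hz⟩ := hF z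
  obtain ⟨c, hc1, hc2⟩ := h2 v ψ hv hψ
  have hmono : ∀ n, Monotone (uv c n) := by
    intro n ℓ ℓ' h
    rw [hc1, hc1]
    exact hvm (KEY_enc4 (KEY_enc_mono h))
  have hz0' : ∀ n σ, z (encode ((0 : ℕ), c, n, σ)) = β n c σ := zA c
  have hz1' : ∀ n σ, z (encode ((1 : ℕ), c, n, σ)) = true ↔
      ¬ RR F r n (uv c n) (bv c n) σ := zB c
  have hz2' : ∀ n, z₀ n = z (encode ((2 : ℕ), c, n, ([] : Str))) := zC c
  -- the strategy is followed
  have hplay : ∀ n t, bv c n (seg X (lev (uv c n) t)) (seg X (lev (uv c n) (t + 1))) =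
      β n c (seg X (lev (uv c n) t)) := by
    intro n t
    rw [hc2, hz, hz0']
    have h4 : lev (uv c n) (t + 1) = nx (uv c n) (lev (uv c n) t) := rfl
    rw [h4]
    refine le_trans ?_ (le_max_right _ _)
    rw [hc1]
    exact hvm (KEY_enc4 (KEY_enc _ _ (by rw [KEY_len])))
  have hW : ∀ n, ¬ W r X n ↔ ∃ t, ¬ RR F r n (uv c n) (bv c n) (seg X (lev (uv c n) t)) :=
    fun n => hβ n c (hmono n) X hXF (hplay n)
  -- the oracle `z` is below `X`
  have hre : ∀ b : Bool, REIn (St X) (fun p : ℕ => z p = b) := by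
    intro b
    refine (K2 ℕ X _).2 ⟨fun p s => min (v p) s.length = v p ∧ ψ p s = b, ?_, fun p => ?_⟩
    · have hv' : Computable v := hv.to_comp
      have hψ' : Computable (fun p : ℕ × Str => ψ p.1 p.2) := hψ.to_comp
      have hv2 : Computable (fun x : ℕ × Str => v x.1) := hv'.comp (by fun_prop)
      refine RE.and (RE.eq (RE.cmin hv2 (by fun_prop)) hv2) (RE.eq hψ' (by fun_prop))
    · constructor
      · intro h
        refine ⟨v p, ?_, ?_⟩
        · rw [KEY_len, min_self]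
        · rw [hz p _ le_rfl]
          exact h
      · rintro ⟨s, h4, h5⟩
        rw [KEY_len] at h4
        rw [← hz p s (by omega)]
        exact h5
  have hzX : le (z) X := by
    refine turingReducible_iff.2 ⟨?_, ?_⟩
    · exact (hre true).of_eq fun p => Iff.rfl
    · refine (hre false).of_eq fun p => ?_
      simp [St]
  obtain ⟨-, htr, -, hmo⟩ := K4
  obtain ⟨hWre, -, hpost, -⟩ := K5 K2
  have hle0 : le z₀ X :=
    htr _ _ _ (hmo _ _ (fun n => encode ((2 : ℕ), c, n, ([] : Str))) (by fun_prop) hz2') hzX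
  -- the complement of `W r X`
  obtain ⟨e1, he1⟩ : ∃ e1 : ℕ × Str → ℕ, ∀ x, e1 x = encode ((1 : ℕ), c, x.1, x.2) :=
    ⟨_, fun _ => rfl⟩
  have he1c : Computable e1 := by
    have : Computable (fun x : ℕ × Str => encode ((1 : ℕ), c, x.1, x.2)) := by fun_prop
    exact this.of_eq fun x => (he1 x).symm
  obtain ⟨lv, hlv⟩ : ∃ lv : ℕ × ℕ → ℕ, ∀ q, lv q = lev (uv c q.1) q.2 := ⟨_, fun _ => rfl⟩
  have hlvc : Computable lv := (KEY_lev_comp h3 c).of_eq fun q => (hlv q).symm
  have hz1 : ∀ n σ, z (e1 (n, σ)) = true ↔ ¬ RR F r n (uv c n) (bv c n) σ := by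
    intro n σ
    rw [he1]
    exact hz1' n σ
  have hco : REIn (St X) (fun n => ¬ W r X n) := by
    have hkey : ∀ n, (∃ y : ℕ × Str, y.2.length = lv (n, y.1) ∧ y.2 = seg X y.2.length ∧
        z (e1 (n, y.2)) = true) ↔ ¬ W r X n := by
      intro n
      rw [hW n]
      constructor
      · rintro ⟨⟨t, s⟩, h4, h5, h6⟩
        simp only at h4 h5 h6
        rw [hlv] at h4
        refine ⟨t, ?_⟩
        simp only at h4
        rw [← h4, ← h5]
        exact (hz1 n s).1 h6
      · rintro ⟨t, ht⟩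
        refine ⟨(t, seg X (lev (uv c n) t)), ?_, ?_, ?_⟩
        · rw [hlv]
          exact KEY_len _ _
        · simp only
          rw [KEY_len]
        · exact (hz1 n _).2 ht
    refine REIn.of_eq ?_ hkey
    refine REIn.ex (S := fun (n : ℕ) (y : ℕ × Str) => y.2.length = lv (n, y.1) ∧
      y.2 = seg X y.2.length ∧ z (e1 (n, y.2)) = true) ?_
    refine REIn.and (S := fun x : ℕ × (ℕ × Str) => x.2.2.length = lv (x.1, x.2.1)) ?_
      (REIn.and (S := fun x : ℕ × (ℕ × Str) => x.2.2 = seg X x.2.2.length) ?_ ?_)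
    · exact REIn.of_re (RE.eq (f := fun x : ℕ × (ℕ × Str) => x.2.2.length)
        (g := fun x : ℕ × (ℕ × Str) => lv (x.1, x.2.1)) (by fun_prop)
        (hlvc.comp (by fun_prop)))
    · refine (K2 (ℕ × (ℕ × Str)) X _).2 ⟨fun a s => a.2.2 = s, RE.eq (by fun_prop) (by fun_prop), ?_⟩
      intro a
      constructor
      · intro h
        exact ⟨_, h⟩
      · rintro ⟨t, ht⟩
        rw [ht, KEY_len]
    · exact (hre true).comp (f := fun x : ℕ × (ℕ × Str) => e1 (x.1, x.2.2))
        (he1c.comp (by fun_prop))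
  exact hz0 X hle0 (hpost X _ (hWre r X) hco)

end Pool.Agent.N584.PI
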