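import Pool.Agent.N584.PI.Stm
import Pool.Agent.H639.LU.N1
import Pool.Agent.H639.LU.N2
import Pool.Agent.H639.LU.L1

/-!
Project PI, NXT: the next closed set.
-/

set_option autoImplicit false

namespace Pool.Agent.N584.PI

open Nat.Partrec (Code)
open Encodable
open Pool.Agent.Helper446.Defs Pool.Agent.Helper446.Oracle
open Pool.Agent.H639.LU

theorem NXT_nx (v : ℕ → ℕ) (l : ℕ) : l < nx v l := by
  unfold nx
  omega

theorem NXT_lev_zero (v : ℕ → ℕ) : lev v 0 = 0 := rfl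

theorem NXT_lev_succ (v : ℕ → ℕ) (t : ℕ) : lev v (t + 1) = nx v (lev v t) := rfl

theorem NXT_lev_strict (v : ℕ → ℕ) : StrictMono (lev v) :=
  strictMono_nat_of_lt_succ (fun t => by rw [NXT_lev_succ]; exact NXT_nx v _)

theorem NXT_le_lev (v : ℕ → ℕ) (t : ℕ) : t ≤ lev v t := (NXT_lev_strict v).id_le t

theorem NXT_seg_le (X X' : ℕ → Bool) (s t : ℕ) (h : s ≤ t) (e : seg X t = seg X' t) :
    seg X s = seg X' s := by
  rw [← N1_take X h, ← N1_take X' h, e]

theorem NXT_pre (X : ℕ → Bool) (s t : ℕ) (h : s ≤ t) : seg X s <+: seg X t := by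
  rw [← N1_take X h]
  exact List.take_prefix _ _

/-- the set of the results of plays is closed -/
theorem NXT_clo (F : Set (ℕ → Bool)) (r : Code) (n : ℕ) (v : ℕ → ℕ) (ψ : Str → Str → Bool) :
    Clo (Nxt F r n v ψ) := by
  intro X hX t
  obtain ⟨X', hX', e⟩ := hX (lev v t)
  rw [← e]
  exact hX' t

theorem NXT_sub (h : P_GAME) (F : Set (ℕ → Bool)) (r : Code) (n : ℕ) (v : ℕ → ℕ)
    (ψ : Str → Str → Bool) (hF : Clo F) : Nxt F r n v ψ ⊆ F := by
  obtain ⟨-, g2, -, g4, -, -, -, g8⟩ := h F r n v ψ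
  intro X hX
  apply hF
  intro t
  obtain ⟨X', hX', e⟩ := g2 _ (g4 _ (g8 _ (hX t)).1)
  rw [N1_len] at e
  exact ⟨X', hX', NXT_seg_le _ _ _ _ (NXT_le_lev v t) e⟩

theorem NXT_notW (h : P_GAME) (F : Set (ℕ → Bool)) (r : Code) (n : ℕ) (v : ℕ → ℕ)
    (ψ : Str → Str → Bool) (X : ℕ → Bool) (hX : X ∈ Nxt F r n v ψ) : ¬ W r X n := by
  obtain ⟨-, -, -, -, -, -, -, g8⟩ := h F r n v ψ
  obtain ⟨w1, w2, -, -⟩ := N2 N1
  intro hW
  obtain ⟨t, ht⟩ := (w1 r X n).1 hW
  have h1 := w2 r _ _ n (NXT_pre X t (lev v t) (NXT_le_lev v t)) ht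
  rw [(g8 _ (hX t)).2.1] at h1
  exact absurd h1 (by decide)

/-- the play of player II against `z` -/
theorem NXT_play (h : P_GAME) (F : Set (ℕ → Bool)) (r : Code) (n : ℕ) (v : ℕ → ℕ)
    (ψ : Str → Str → Bool) (h0 : QQ F r n v ψ []) (z : ℕ → Bool) :
    ∃ Y : ℕ → Str, Y 0 = [] ∧ (∀ t, Child v ψ (z t) (Y t) (Y (t + 1))) ∧
      ∀ t, QQ F r n v ψ (Y t) := by
  obtain ⟨-, -, -, -, -, -, -, g8⟩ := h F r n v ψ
  have h1 : ∀ (y : {y : Str // QQ F r n v ψ y}) (b : Bool),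
      ∃ y' : {y : Str // QQ F r n v ψ y}, Child v ψ b y.1 y'.1 := by
    intro y b
    obtain ⟨y', h1, h2⟩ := (g8 y.1 y.2).2.2 b
    exact ⟨⟨y', h2⟩, h1⟩
  choose f hf using h1
  let Y : ℕ → {y : Str // QQ F r n v ψ y} :=
    fun t => Nat.rec ⟨[], h0⟩ (fun s y => f y (z s)) t
  exact ⟨fun t => (Y t).1, rfl, fun t => hf (Y t) (z t), fun t => (Y t).2⟩

theorem NXT_lim (v : ℕ → ℕ) (ψ : Str → Str → Bool) (z : ℕ → Bool) (Y : ℕ → Str)
    (h0 : Y 0 = []) (h1 : ∀ t, Child v ψ (z t) (Y t) (Y (t + 1))) :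
    (∀ t, (Y t).length = lev v t) ∧ ∃ X : ℕ → Bool, ∀ t, seg X (lev v t) = Y t := by
  have hl : ∀ t, (Y t).length = lev v t := by
    intro t
    induction t with
    | zero => rw [h0]; rfl
    | succ t ih => rw [(h1 t).2.1, ih, NXT_lev_succ]
  refine ⟨hl, ?_⟩
  obtain ⟨X, hX⟩ := L1 (fun x => Y x.length)
    (fun x b => by
      simp only [List.length_append, List.length_singleton]
      exact (h1 _).1)
    (fun x => by
      rw [hl]
      exact NXT_le_lev v _) (fun _ => false)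
  refine ⟨X, fun t => ?_⟩
  have h2 := hX t
  simp only [N1_len, hl] at h2
  exact h2

theorem NXT_prim_uv (h2 : P_EV2) (c : Code) (n : ℕ) : Primrec (uv c n) := by
  unfold uv
  exact (h2 c).comp (Primrec.encode.comp
    (Primrec.pair (Primrec.const 0) (Primrec.pair (Primrec.const n) Primrec.id)))

theorem NXT_prim_lev (h2 : P_EV2) (c : Code) (n : ℕ) : Primrec (lev (uv c n)) := by
  unfold lev
  refine Primrec.nat_rec₁ (α := ℕ) 0 ?_
  unfold nx
  exact Primrec.nat_max.comp (Primrec.succ.comp Primrec.snd)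
    ((NXT_prim_uv h2 c n).comp Primrec.snd)

theorem NXT_prim_bv (h2 : P_EV2) (c : Code) (n : ℕ) :
    Primrec (fun p : Str × Str => bv c n p.1 p.2) := by
  unfold bv
  exact (Primrec.beq (α := ℕ)).comp ((h2 c).comp (Primrec.encode.comp
    (Primrec.pair (Primrec.const 1) (Primrec.pair (Primrec.const n) Primrec.id))))
    (Primrec.const 1)

theorem NXT_prim_gen (f : ℕ → ℕ) (b : Str → Str → Bool) (hf : Primrec f)
    (hb : Primrec (fun p : Str × Str => b p.1 p.2)) :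
    Primrec (fun p : ℕ × Str => b (p.2.take (f p.1)) (p.2.take (f (p.1 + 1)))) := by
  have e1 : Primrec (fun p : ℕ × Str => p.2.take (f p.1)) :=
    Primrec.list_take.comp (hf.comp Primrec.fst) Primrec.snd
  have e2 : Primrec (fun p : ℕ × Str => p.2.take (f (p.1 + 1))) :=
    Primrec.list_take.comp (hf.comp (Primrec.succ.comp Primrec.fst)) Primrec.snd
  exact hb.comp (Primrec.pair e1 e2)

/-- NXT: the next closed set. -/
theorem t_NXT (h : P_GAME) (h2 : P_EV2) : P_NXT := by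
  intro F r n c hF h0
  refine ⟨NXT_clo _ _ _ _ _, ?_, NXT_sub h _ _ _ _ _ hF, fun X hX => NXT_notW h _ _ _ _ _ X hX⟩
  intro z
  obtain ⟨Y, y0, y1, y2⟩ := NXT_play h F r n (uv c n) (bv c n) h0 z
  obtain ⟨hl, X, hX⟩ := NXT_lim (uv c n) (bv c n) z Y y0 y1
  refine ⟨X, fun t => by rw [hX]; exact y2 t, fun p => lev (uv c n) (p + 1),
    fun p y => bv c n (y.take (lev (uv c n) p)) (y.take (lev (uv c n) (p + 1))), ?_, ?_, ?_, ?_⟩
  · exact (NXT_prim_lev h2 c n).comp Primrec.succ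
  · exact NXT_prim_gen (lev (uv c n)) (bv c n) (NXT_prim_lev h2 c n) (NXT_prim_bv h2 c n)
  · intro p q hpq
    exact (NXT_lev_strict _).monotone (Nat.add_le_add_right hpq 1)
  · intro p s hs
    have e1 : lev (uv c n) p ≤ s :=
      ((NXT_lev_strict (uv c n)).monotone (Nat.le_succ p)).trans hs
    have hs' : lev (uv c n) (p + 1) ≤ s := hs
    change bv c n ((seg X s).take (lev (uv c n) p)) ((seg X s).take (lev (uv c n) (p + 1))) = z p
    rw [N1_take X e1, N1_take X hs', hX, hX]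
    exact (y1 p).2.2

end Pool.Agent.N584.PI
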