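import Pool.Agent.N584.PI.Stm

/-!
Project PI: clopen sets (helper99, tasks PUL and HAT).
-/

set_option autoImplicit false

namespace Pool.Agent.N584.PI

open Encodable
open Pool.Agent.Helper446.Defs Pool.Agent.Helper446.Oracle
open Pool.Agent.H639.LU

/-! ### strings -/

theorem Pul_strs (n : ℕ) (w : Str) : w ∈ strs n ↔ w.length = n := by
  induction n generalizing w with
  | zero => simp [strs]
  | succ n ih =>
    simp only [strs, List.mem_flatMap, List.mem_cons, List.not_mem_nil, or_false]
    constructor
    · rintro ⟨s, hs, rfl | rfl⟩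
      · rw [List.length_append, (ih s).1 hs]; rfl
      · rw [List.length_append, (ih s).1 hs]; rfl
    · intro h
      have hne : w ≠ [] := by
        intro h0
        rw [h0] at h
        simp at h
      refine ⟨w.dropLast, (ih _).2 (by rw [List.length_dropLast, h]; rfl), ?_⟩
      have h1 := List.dropLast_append_getLast hne
      cases hb : w.getLast hne
      · left; rw [← hb]; exact h1.symm
      · right; rw [← hb]; exact h1.symm

theorem Pul_seg_length (X : ℕ → Bool) (n : ℕ) : (seg X n).length = n := by
  simp [seg]

theorem Pul_seg_take (X : ℕ → Bool) {k n : ℕ} (h : k ≤ n) : (seg X n).take k = seg X k := by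
  unfold seg
  rw [← List.map_take, List.take_range, min_eq_left h]

theorem Pul_seg_succ (X : ℕ → Bool) (n : ℕ) : seg X (n + 1) = seg X n ++ [X n] := by
  unfold seg
  rw [List.range_succ, List.map_append]
  rfl

theorem Pul_prefix (X : ℕ → Bool) {σ : Str} {n : ℕ} : σ <+: seg X n ↔
    σ.length ≤ n ∧ σ = seg X σ.length := by
  constructor
  · intro h
    have h1 : σ.length ≤ n := by
      have := h.length_le
      rwa [Pul_seg_length] at this
    refine ⟨h1, ?_⟩
    have h2 := List.prefix_iff_eq_take.1 h
    rwa [Pul_seg_take X h1] at h2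
  · rintro ⟨h1, h2⟩
    rw [List.prefix_iff_eq_take, Pul_seg_take X h1]
    exact h2

theorem Pul_inC (L : List Str) (w : Str) : inC L w = true ↔ ∃ σ ∈ L, σ <+: w := by
  simp [inC]

theorem Pul_mem_encode {α : Type*} [Encodable α] {a : α} {l : List α} (h : a ∈ l) :
    encode a < encode l := by
  induction l with
  | nil => simp at h
  | cons b l ih =>
    rw [Encodable.encode_list_cons]
    rcases List.mem_cons.1 h with rfl | h
    · exact Nat.lt_succ_of_le (Nat.left_le_pair _ _)
    · exact Nat.lt_succ_of_le ((ih h).le.trans (Nat.right_le_pair _ _))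

/-- the clopen set given by strings of length `k` -/
theorem Pul_len (X : ℕ → Bool) (F : List Str) (k : ℕ) (hF : ∀ σ ∈ F, σ.length = k) :
    inC F (seg X (encode F)) = true ↔ seg X k ∈ F := by
  rw [Pul_inC]
  constructor
  · rintro ⟨σ, hσ, h⟩
    have h1 := (Pul_prefix X).1 h
    rw [hF σ hσ] at h1
    rw [← h1.2]
    exact hσ
  · intro h
    refine ⟨_, h, (Pul_prefix X).2 ⟨?_, ?_⟩⟩
    · exact (Encodable.length_le_encode _).trans (Pul_mem_encode h).le
    · rw [Pul_seg_length]

theorem Pul_ml {L : List Str} {σ : Str} (h : σ ∈ L) : σ.length ≤ ml L := by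
  unfold ml
  induction L with
  | nil => simp at h
  | cons τ L ih =>
    rw [List.map_cons, List.foldr_cons]
    rcases List.mem_cons.1 h with rfl | h
    · exact le_max_left _ _
    · exact (ih h).trans (le_max_right _ _)

theorem Pul_ml_le {L : List Str} {n : ℕ} (h : ∀ σ ∈ L, σ.length ≤ n) : ml L ≤ n := by
  unfold ml
  induction L with
  | nil => simp
  | cons τ L ih =>
    rw [List.map_cons, List.foldr_cons]
    exact max_le (h τ List.mem_cons_self) (ih fun σ hσ => h σ (List.mem_cons_of_mem _ hσ))

/-- decoding is partial inverse of encoding -/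
def PulGood (α : Type) [Encodable α] : Prop := ∀ (n : ℕ) (a : α), decode n = some a → encode a = n

theorem Pul_bool : PulGood Bool := by
  intro n a h
  rcases n with _ | _ | n
  · have : decode (α := Bool) 0 = some false := rfl
    rw [this] at h
    cases h
    rfl
  · have : decode (α := Bool) 1 = some true := rfl
    rw [zero_add, this] at h
    cases h
    rfl
  · have : decode (α := Bool) (n + 2) = none := Encodable.decode_ge_two _ (by omega)
    rw [this] at h
    exact absurd h (by simp)

theorem Pul_list {α : Type} [Encodable α] (hα : PulGood α) : PulGood (List α) := by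
  intro n
  induction n using Nat.strong_induction_on with
  | _ n ih =>
    intro l h
    cases n with
    | zero =>
      rw [Encodable.decode_list_zero] at h
      cases h
      rfl
    | succ v =>
      rw [show v + 1 = Nat.succ v from rfl, Encodable.decode_list_succ] at h
      cases h1 : decode (α := α) v.unpair.1 with
      | none =>
        rw [h1] at h
        exact absurd (show (none : Option (List α)) = some l from h) (by simp)
      | some a =>
        cases h2 : decode (α := List α) v.unpair.2 with
        | none =>
          rw [h1, h2] at h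
          exact absurd (show (none : Option (List α)) = some l from h) (by simp)
        | some l' =>
          rw [h1, h2] at h
          have h3 : some (a :: l') = some l := h
          cases h3
          rw [Encodable.encode_list_cons, hα _ _ h1,
            ih _ (Nat.lt_succ_of_le (Nat.unpair_right_le v)) _ h2, Nat.pair_unpair]

theorem Pul_dL (l : ℕ) : ml (dL l) ≤ l := by
  unfold dL
  cases h : decode (α := List Str) l with
  | none => exact Nat.zero_le _
  | some L =>
    have h1 : encode L = l := Pul_list (Pul_list Pul_bool) l L h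
    apply Pul_ml_le
    intro σ hσ
    rw [← h1]
    exact (Encodable.length_le_encode _).trans (Pul_mem_encode hσ).le

theorem Pul_inC_eq (X : ℕ → Bool) (L : List Str) {s s' : ℕ} (h : ml L ≤ s) (h' : ml L ≤ s') :
    inC L (seg X s) = inC L (seg X s') := by
  have key : ∀ s s' : ℕ, ml L ≤ s' → inC L (seg X s) = true → inC L (seg X s') = true := by
    intro s s' h' h1
    rw [Pul_inC] at h1 ⊢
    obtain ⟨σ, hσ, h2⟩ := h1
    exact ⟨σ, hσ, (Pul_prefix X).2 ⟨(Pul_ml hσ).trans h', ((Pul_prefix X).1 h2).2⟩⟩
  rw [Bool.eq_iff_iff]
  exact ⟨key s s' h', key s' s h⟩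

/-- preimages of clopen sets -/
theorem t_PUL : P_PUL := by
  intro B Θ X Y hT l
  rw [Bool.eq_iff_iff]
  unfold pull val
  set L := dL l with hL
  set F := (strs (B (ml L))).filter (fun w => inC L (Θ (ml L) w)) with hF
  have hdF : dL (encode F) = F := by
    unfold dL
    rw [Encodable.encodek]
    rfl
  rw [hdF, Pul_len X F (B (ml L)) (fun σ hσ => by
    rw [hF, List.mem_filter] at hσ
    exact (Pul_strs _ _).1 hσ.1), hF, List.mem_filter, Pul_strs, Pul_seg_length,
    hT (ml L) (B (ml L)) le_rfl, Pul_inC_eq Y L (Pul_dL l) le_rfl]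
  simp

/-! ### the completed oracle -/

theorem Pul_strs_primrec : Primrec strs := by
  have h : Primrec fun n : ℕ => (Nat.rec [[]] (fun _ (s : List Str) =>
      s.flatMap (fun s => [s ++ [false], s ++ [true]])) n : List Str) := by
    refine Primrec.nat_rec₁ _ ?_
    refine Primrec.list_flatMap Primrec.snd ?_
    refine Primrec.list_cons.comp ?_ (Primrec.list_cons.comp ?_ (Primrec.const []))
    · exact Primrec.list_append.comp Primrec.snd (Primrec.const [false])
    · exact Primrec.list_append.comp Primrec.snd (Primrec.const [true])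
  refine h.of_eq fun n => ?_
  induction n with
  | zero => rfl
  | succ n ih => simp only [strs]; rw [← ih]

/-- the code of the question about the `n`-th value -/
def Pul_f (n : ℕ) : ℕ := Nat.pair 0 (encode ((strs n).map fun w => w ++ [true]))

theorem Pul_f_comp : Computable Pul_f := by
  refine Primrec.to_comp ?_
  refine Primrec₂.natPair.comp (Primrec.const 0) (Primrec.encode.comp ?_)
  refine Primrec.list_map Pul_strs_primrec ?_
  exact Primrec.list_append.comp Primrec.snd (Primrec.const [true])

theorem Pul_f_spec (X : ℕ → Bool) (n : ℕ) : X n = hat X (Pul_f n) := by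
  unfold hat Pul_f
  rw [Nat.unpair_pair]
  simp only
  unfold val
  set F := (strs n).map fun w => w ++ [true] with hF
  have hdF : dL (encode F) = F := by
    unfold dL
    rw [Encodable.encodek]
    rfl
  rw [hdF, Bool.eq_iff_iff, Pul_len X F (n + 1) (fun σ hσ => by
    rw [hF, List.mem_map] at hσ
    obtain ⟨w, hw, rfl⟩ := hσ
    rw [List.length_append, (Pul_strs _ _).1 hw]
    rfl), hF, List.mem_map, Pul_seg_succ]
  constructor
  · intro h
    exact ⟨seg X n, (Pul_strs _ _).2 (Pul_seg_length X n), by rw [h]⟩
  · rintro ⟨w, hw, h⟩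
    have h1 := (List.append_inj h (by rw [(Pul_strs _ _).1 hw, Pul_seg_length])).2
    simpa using h1.symm

/-- the functional -/
def Pul_H (w : Str) : Str :=
  (List.range w.length).map (fun p => inC (dL p.unpair.2) (w.take p.unpair.2))

theorem Pul_inC_primrec : Primrec₂ inC := by
  have h1 : PrimrecRel fun (σ w : Str) => σ = w.take σ.length :=
    Primrec.eq.comp Primrec.fst (Primrec.list_take.comp (Primrec.list_length.comp Primrec.fst)
      Primrec.snd)
  have h2 := (PrimrecRel.exists_mem_list h1).decide
  refine h2.of_eq fun L w => ?_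
  rw [Bool.eq_iff_iff, decide_eq_true_eq, Pul_inC]
  simp only [List.prefix_iff_eq_take]

theorem Pul_dL_primrec : Primrec dL :=
  Primrec.option_getD.comp (Primrec.decode (α := List Str)) (Primrec.const [])

theorem Pul_H_comp : Computable Pul_H := by
  refine Primrec.to_comp ?_
  refine Primrec.list_map (Primrec.list_range.comp Primrec.list_length) ?_
  have h1 : Primrec fun q : Str × ℕ => q.2.unpair.2 :=
    Primrec.snd.comp (Primrec.unpair.comp Primrec.snd)
  exact Pul_inC_primrec.comp (Pul_dL_primrec.comp h1) (Primrec.list_take.comp h1 Primrec.fst)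

theorem Pul_H_spec (X : ℕ → Bool) (t : ℕ) : Pul_H (seg X t) = seg (hat X) t := by
  unfold Pul_H
  rw [Pul_seg_length]
  conv_rhs => unfold seg
  refine List.map_congr_left fun p hp => ?_
  rw [List.mem_range] at hp
  rw [Pul_seg_take X ((Nat.unpair_right_le p).trans hp.le)]
  rfl

/-- the completed oracle -/
theorem t_HAT : P_HAT :=
  ⟨⟨Pul_f, Pul_f_comp, Pul_f_spec⟩, Pul_H, Pul_H_comp, Pul_H_spec⟩

end Pool.Agent.N584.PI
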