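import Pool.Agent.N584.PI.Stm

/-!
Project PI: the strategy of player I.
-/

set_option autoImplicit false

namespace Pool.Agent.N584.PI

open Nat.Partrec (Code)
open Encodable
open Pool.Agent.Helper446.Defs Pool.Agent.Helper446.Oracle
open Pool.Agent.H639.LU

theorem STR_anti {P : ℕ → Prop} (hP : ∀ T, P (T + 1) → P T) {T T' : ℕ}
    (h : T ≤ T') (hy : P T') : P T := by
  induction h with
  | refl => exact hy
  | step _ ih => exact ih (hP _ hy)

/-- the last round is unique -/
theorem STR_uniq {P : ℕ → Prop} (hP : ∀ T, P (T + 1) → P T) {T T' : ℕ} (h : P T)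
    (h1 : ¬ P (T + 1)) (h' : P T') (h1' : ¬ P (T' + 1)) : T = T' := by
  rcases lt_trichotomy T T' with h2 | h2 | h2
  · exact absurd (STR_anti hP h2 h') h1
  · exact h2
  · exact absurd (STR_anti hP h2 h) h1'

theorem STR_last {P : ℕ → Prop} (h : ¬ ∀ T, P T) : ¬ P 0 ∨ ∃ T, P T ∧ ¬ P (T + 1) := by
  classical
  push Not at h
  by_cases h0 : P 0
  · right
    have hs := Nat.find_spec h
    have hm := fun {m : ℕ} => Nat.find_min h (m := m)
    generalize Nat.find h = T at hs hm
    cases T with
    | zero => exact absurd h0 hs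
    | succ T => exact ⟨T, not_not.1 (hm (Nat.lt_succ_self T)), hs⟩
  · exact Or.inl h0

theorem STR_len (X : ℕ → Bool) (s : ℕ) : (seg X s).length = s := by simp [seg]

theorem STR_prefix (X : ℕ → Bool) {s t : ℕ} (h : s ≤ t) : seg X s <+: seg X t := by
  have h1 : seg X s = (seg X t).take s := by
    unfold seg
    rw [← List.map_take, List.take_range, min_eq_left h]
  rw [h1]
  exact List.take_prefix _ _

theorem STR_lev_succ (v : ℕ → ℕ) (t : ℕ) : lev v (t + 1) = nx v (lev v t) := rfl

theorem STR_lev_le (v : ℕ → ℕ) (t : ℕ) : lev v t ≤ lev v (t + 1) := by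
  rw [STR_lev_succ]
  exact (Nat.le_succ _).trans (le_max_left _ _)

theorem STR_le_lev (v : ℕ → ℕ) (t : ℕ) : t ≤ lev v t := by
  induction t with
  | zero => exact Nat.zero_le _
  | succ t ih =>
    rw [STR_lev_succ]
    exact (Nat.succ_le_succ ih).trans (le_max_left _ _)

theorem t_STR (h : P_GAME) : P_STR := by
  classical
  obtain ⟨hW, hmono, -, -⟩ := N2 N1
  intro F r n v ψ hQ
  obtain ⟨g1, g2, g3, g4, g5, g6, g7, g8⟩ := h F r n v ψ
  -- the strategy
  have hβ : ∀ y : Str, ∃ b : Bool,
      (∀ T, CT F v ψ T y → ¬ CT F v ψ (T + 1) y → ∀ y', Child v ψ b y y' → ¬ CT F v ψ T y') ∧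
      (CC F v ψ y → ¬ RR F r n v ψ y → ∀ y', Child v ψ b y y' → ¬ RR F r n v ψ y') ∧
      (RR F r n v ψ y → hst r y n = false → ∀ T, QT F r n v ψ T y → ¬ QT F r n v ψ (T + 1) y →
        ∀ y', Child v ψ b y y' → ¬ QT F r n v ψ T y') := by
    intro y
    by_cases hC : CC F v ψ y
    · by_cases hR : RR F r n v ψ y
      · by_cases hq : QQ F r n v ψ y
        · exact ⟨false, fun T _ h => absurd (hC (T + 1)) h, fun _ h => absurd hR h,
            fun _ _ T _ h => absurd (hq (T + 1)) h⟩
        · by_cases hh : hst r y n = false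
          · have h0 : QT F r n v ψ 0 y := ⟨hR, hh⟩
            rcases STR_last (P := fun T => QT F r n v ψ T y) hq with h' | ⟨T, hT, hT'⟩
            · exact absurd h0 h'
            · have hb : ∃ b, ∀ y', Child v ψ b y y' → ¬ QT F r n v ψ T y' := by
                by_contra hcon
                push Not at hcon
                exact hT' ⟨⟨hR, hh⟩, hcon⟩
              obtain ⟨b, hb⟩ := hb
              refine ⟨b, fun T _ h => absurd (hC (T + 1)) h, fun _ h => absurd hR h,
                fun _ _ T' h3 h4 => ?_⟩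
              obtain rfl := STR_uniq (P := fun T => QT F r n v ψ T y) (fun T => g7 T y) hT hT' h3 h4
              exact hb
          · exact ⟨false, fun T _ h => absurd (hC (T + 1)) h, fun _ h => absurd hR h,
              fun _ h => absurd h hh⟩
      · obtain ⟨b, hb⟩ := g6 y hC hR
        exact ⟨b, fun T _ h => absurd (hC (T + 1)) h, fun _ _ => hb, fun h => absurd h hR⟩
    · rcases STR_last (P := fun T => CT F v ψ T y) hC with h' | ⟨T, hT, hT'⟩
      · refine ⟨false, fun T h3 => absurd ?_ h', fun h => absurd h hC,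
          fun h => absurd (g4 y h) hC⟩
        exact STR_anti (P := fun T => CT F v ψ T y) (fun T => g1 T y) (Nat.zero_le T) h3
      · have hb : ∃ b, ∀ y', Child v ψ b y y' → ¬ CT F v ψ T y' := by
          by_contra hcon
          push Not at hcon
          have hE : CT F v ψ 0 y :=
            STR_anti (P := fun T => CT F v ψ T y) (fun T => g1 T y) (Nat.zero_le T) hT
          exact hT' ⟨hE, hcon⟩
        obtain ⟨b, hb⟩ := hb
        refine ⟨b, fun T' h3 h4 => ?_, fun h => absurd h hC, fun h => absurd (g4 y h) hC⟩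
        obtain rfl := STR_uniq (P := fun T => CT F v ψ T y) (fun T => g1 T y) hT hT' h3 h4
        exact hb
  choose β hβ1 hβ2 hβ3 using hβ
  refine ⟨β, fun Y hY hplay => ?_⟩
  -- the positions of the play
  have hchild : ∀ t, Child v ψ (β (seg Y (lev v t))) (seg Y (lev v t)) (seg Y (lev v (t + 1))) := by
    intro t
    refine ⟨STR_prefix Y (STR_lev_le v t), ?_, hplay t⟩
    rw [STR_len, STR_len]
    rfl
  have hext : ∀ t, CT F v ψ 0 (seg Y (lev v t)) := fun t => ⟨Y, hY, by rw [STR_len]⟩
  have hCC : ∀ t, CC F v ψ (seg Y (lev v t)) := by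
    intro t T
    by_contra hcon
    induction T generalizing t with
    | zero => exact hcon (hext t)
    | succ T ih =>
      by_cases h3 : CT F v ψ T (seg Y (lev v t))
      · exact ih (t + 1) (hβ1 _ T h3 hcon _ (hchild t))
      · exact ih t h3
  constructor
  · -- not enumerated
    intro hnW
    by_contra hcon
    push Not at hcon
    have hh : ∀ t, hst r (seg Y (lev v t)) n = false := by
      intro t
      by_contra h3
      rw [Bool.not_eq_false] at h3
      exact hnW ((hW r Y n).2 ⟨_, h3⟩)
    apply hQ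
    have h0 : ∀ T t, QT F r n v ψ T (seg Y (lev v t)) := by
      intro T t
      by_contra hcon'
      induction T generalizing t with
      | zero => exact hcon' ⟨hcon t, hh t⟩
      | succ T ih =>
        by_cases h3 : QT F r n v ψ T (seg Y (lev v t))
        · exact ih (t + 1) (hβ3 _ (hcon t) (hh t) T h3 hcon' _ (hchild t))
        · exact ih t h3
    intro T
    exact h0 T 0
  · rintro ⟨t, ht⟩ hWY
    have hs : ∀ s, t ≤ s → ¬ RR F r n v ψ (seg Y (lev v s)) := by
      intro s hs
      induction hs with
      | refl => exact ht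
      | step _ ih => exact hβ2 _ (hCC _) ih _ (hchild _)
    obtain ⟨s, hs'⟩ := (hW r Y n).1 hWY
    have h3 : hst r (seg Y (lev v (max s t))) n = true :=
      hmono r _ _ n (STR_prefix Y ((le_max_left s t).trans (STR_le_lev v _))) hs'
    exact hs (max s t) (le_max_right s t) ⟨0, hCC _, h3⟩

end Pool.Agent.N584.PI
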