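import Pool.Agent.N584.PI.Stm

/-!
Project PI: the table of the codes.
-/

set_option autoImplicit false

namespace Pool.Agent.N584.PI

open Nat.Partrec (Code)
open Encodable
open Pool.Agent.Helper446.Defs Pool.Agent.Helper446.Oracle
open Pool.Agent.H639.LU

theorem Z1_pair_le {a b c d : ℕ} (h : a ≤ b) (h' : c ≤ d) : Nat.pair a c ≤ Nat.pair b d := by
  have h1 : Nat.pair a c ≤ Nat.pair b c := by
    rcases h.lt_or_eq with h | h
    · exact (Nat.pair_lt_pair_left c h).le
    · rw [h]
  have h2 : Nat.pair b c ≤ Nat.pair b d := by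
    rcases h'.lt_or_eq with h | h
    · exact (Nat.pair_lt_pair_right b h).le
    · rw [h]
  exact h1.trans h2

theorem Z1_enc_bool (b : Bool) : encode b ≤ encode true := by
  cases b
  · rw [Encodable.encode_false]
    exact Nat.zero_le _
  · exact le_rfl

theorem Z1_enc (σ : List Bool) : ∀ t : ℕ, σ.length ≤ t →
    encode σ ≤ encode (List.replicate t true) := by
  induction σ with
  | nil => intro t _; rw [Encodable.encode_list_nil]; exact Nat.zero_le _
  | cons a σ ih =>
    intro t ht
    obtain ⟨t', rfl⟩ : ∃ t', t = t' + 1 := by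
      refine ⟨t - 1, ?_⟩
      rw [List.length_cons] at ht
      omega
    rw [List.length_cons] at ht
    rw [List.replicate_succ, Encodable.encode_list_cons, Encodable.encode_list_cons]
    exact Nat.succ_le_succ (Z1_pair_le (Z1_enc_bool a) (ih t' (by omega)))

theorem Z1_take (X : ℕ → Bool) {m n : ℕ} (hmn : m ≤ n) : (seg X n).take m = seg X m := by
  unfold seg
  rw [← List.map_take, List.take_range, min_eq_left hmn]

theorem Z1_getD (X : ℕ → Bool) {m n : ℕ} (hmn : m < n) : (seg X n).getD m false = X m := by
  unfold seg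
  rw [List.getD_eq_getElem?_getD, List.getElem?_map, List.getElem?_range hmn]
  rfl

theorem Z1_len (X : ℕ → Bool) (n : ℕ) : (seg X n).length = n := by
  unfold seg
  rw [List.length_map, List.length_range]

/-- the table of the codes -/
def Z1_zeta (Yp : List ℕ → Str → Str) (k : ℕ) : Bool :=
  match (decode k : Option (List ℕ × Str × ℕ)) with
  | some (ee, x, n) => (Yp ee x).getD n false
  | none => false

theorem Z1_zeta_encode (Yp : List ℕ → Str → Str) (ee : List ℕ) (x : Str) (n : ℕ) :
    Z1_zeta Yp (encode (ee, x, n)) = (Yp ee x).getD n false := by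
  unfold Z1_zeta
  rw [encodek]

theorem t_Z1 : P_Z1 := by
  intro Yp _ hlen
  refine ⟨Z1_zeta Yp, fun ee X Y hX hY t s hs => ?_⟩
  unfold out1
  have e0 : seg Y t = (List.range t).map Y := rfl
  rw [e0]
  refine List.map_congr_left fun n hn => ?_
  have hn' : n < t := List.mem_range.1 hn
  unfold use1 at hs
  rw [Z1_take X (show n + 1 ≤ s by omega)]
  have h1 : encode (ee, seg X (n + 1), n) ≤ encode (ee, List.replicate t true, t) := by
    rw [Encodable.encode_prod_val, Encodable.encode_prod_val, Encodable.encode_prod_val,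
      Encodable.encode_prod_val]
    refine Z1_pair_le le_rfl (Z1_pair_le (Z1_enc _ t ?_) ?_)
    · rw [Z1_len]
      exact hn'
    · exact hn'.le
  rw [Z1_getD X (show 2 * encode (ee, seg X (n + 1), n) < s by omega), hX, Z1_zeta_encode]
  have h2 := hlen ee (seg X (n + 1))
  rw [Z1_len] at h2
  have h3 := hY (n + 1)
  rw [← h3, Z1_getD Y (by omega)]

end Pool.Agent.N584.PI
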