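import Pool.Agent.N584.PI.Deg
import Pool.Agent.N584.PI.Chn
import Pool.Agent.N584.PI.Core
import Pool.Agent.N584.PI.Ev
import Pool.Agent.N584.PI.Game
import Pool.Agent.N584.PI.Str
import Pool.Agent.N584.PI.Key
import Pool.Agent.N584.PI.Nxt
import Pool.Agent.N584.PI.Enc
import Pool.Agent.N584.PI.Dm
import Pool.Agent.N584.PI.Z1
import Pool.Agent.N584.PI.Pul
import Pool.Agent.N584.PI.Csb
import Pool.Agent.N584.PI.Cmp

/-!
The results.
-/

set_option autoImplicit false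

namespace Pool.Agent.N584.PI

open Nat.Partrec (Code)
open Encodable
open Pool.Agent.H639.LU

theorem fin_NXT : P_NXT := t_NXT t_GAME t_EV2

theorem fin_KEY : P_KEY := t_KEY (t_STR t_GAME) (t_FIX t_EV3) t_EV1

theorem fin_CORE : P_CORE := t_CORE (t_CHN fin_KEY fin_NXT) (t_ENC t_GAME fin_NXT) t_DM t_Z1

theorem fin_LOC : P_LOC := t_LOC fin_CORE t_PUL t_HAT (t_CMP t_EV1) t_CSB

theorem fin_TWO : P_TWO := t_TWO fin_CORE t_PUL t_HAT (t_CMP t_EV1) t_CSB

theorem fin_GLB (r : Code) (z₀ : ℕ → Bool) (hr : Post r z₀) (k : ℕ) :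
    ∃ π : Equiv.Perm ℕ, Computable π ∧ Computable π.symm ∧
      ∀ L : Finset Code, L.card ≤ k → ∀ z : ℕ → Bool, ∃ X : ℕ → Bool, le z X ∧
        ∀ l ∈ L, ¬ Red l (ch (W r X)) (ch (W r (X ∘ π))) := t_GLB fin_LOC r z₀ hr k

theorem fin_PLC : P_PLC := by
  intro B Θ hB hΘ
  have h := CMP_pull (B := fun _ => B) (Θ := fun _ => Θ) (hB.comp Computable.snd)
    (hΘ.comp Computable.snd)
  exact h.comp (Computable.const 0) Computable.id

theorem fin_DEG : P_DEG := t_DEG t_PUL t_HAT fin_PLC t_CSB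

end Pool.Agent.N584.PI
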