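import Pool.Agent.N584.PI.Loc

/-!
One computable permutation without `k` candidates.
-/

set_option autoImplicit false

namespace Pool.Agent.N584.PI

open Nat.Partrec (Code)
open Encodable
open Pool.Agent.Helper446.Defs Pool.Agent.Helper446.Oracle
open Pool.Agent.H639.LU Pool.Agent.R616.DI Pool.Agent.Y579.PP Pool.Agent.H869R3.FN

theorem GLB_join (Z : ℕ → ℕ → Bool) : ∃ z : ℕ → Bool, ∀ a, le (Z a) z := by
  refine ⟨fun p => Z p.unpair.1 p.unpair.2, fun a => ?_⟩
  exact K4.2.2.2 _ _ (fun n => Nat.pair a n) (by fun_prop) (fun n => by simp)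

theorem Prg_inj {i : Code} {f g : ℕ → ℕ} (hf : Prg i f) (hg : Prg i g) : f = g := by
  funext n
  have h1 := hf n
  rw [hg n] at h1
  exact (Part.some_injective h1).symm

/-- the table of a family of finite sets of programs -/
noncomputable def GLB_tab (u : Code → Code → Finset Code) (p : ℕ) : Bool := by
  classical exact
    match (decode p : Option (Code × Code × Code)) with
    | some (i, j, l) => decide (l ∈ u i j)
    | none => false

theorem GLB_tab_eq (u : Code → Code → Finset Code) (i j l : Code) :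
    GLB_tab u (encode (i, j, l)) = true ↔ l ∈ u i j := by
  unfold GLB_tab
  simp

/-- finite lists of candidates, bounded by `k`, on a cone -/
theorem GLB_cand (hL : P_LOC) (r : Code) (z₀ : ℕ → Bool) (hr : ∀ X, le z₀ X → ¬ le (ch (W r X)) X)
    (z₂ : ℕ → Bool) (hX : ∀ X, le z₂ X → le X (ch (W r X))) (k : ℕ)
    (h : ∀ π : Equiv.Perm ℕ, Computable π → Computable π.symm → ∃ (L : Finset Code)
      (z : ℕ → Bool), L.card ≤ k ∧ ∀ X, le z X →
        ∃ l ∈ L, Red l (ch (W r X)) (ch (W r (X ∘ π)))) :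
    ∃ z, ∀ A, le z A → ∃ X, le X A ∧ le A X ∧ le (ch (J X)) (ch (W r X)) := by
  classical
  obtain ⟨z₁, hz₁⟩ := hL r z₀ hr k
  have h2 : ∀ i j : Code, ∃ (L : Finset Code) (z : ℕ → Bool), L.card ≤ k ∧
      ∀ π : Equiv.Perm ℕ, Prg i π → Prg j π.symm → ∀ X, le z X →
        ∃ l ∈ L, Red l (ch (W r X)) (ch (W r (X ∘ π))) := by
    intro i j
    by_cases hij : ∃ π : Equiv.Perm ℕ, Prg i π ∧ Prg j π.symm
    · obtain ⟨π, h3, h4⟩ := hij
      have h5 : Computable π := by
        have : Partrec (fun n : ℕ => i.eval n) :=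
          Nat.Partrec.Code.eval_part.comp (Computable.const i) Computable.id
        exact this.of_eq h3
      have h6 : Computable π.symm := by
        have : Partrec (fun n : ℕ => j.eval n) :=
          Nat.Partrec.Code.eval_part.comp (Computable.const j) Computable.id
        exact this.of_eq h4
      obtain ⟨L, z, h7, h8⟩ := h π h5 h6
      refine ⟨L, z, h7, fun π' h9 _ X hX => ?_⟩
      have e : π' = π := Equiv.ext fun n => congrFun (Prg_inj h9 h3) n
      rw [e]
      exact h8 X hX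
    · exact ⟨∅, fun _ => false, by simp, fun π h3 h4 => absurd ⟨π, h3, h4⟩ hij⟩
  choose u z hu hz using h2
  obtain ⟨y, hy⟩ := join_all z
  obtain ⟨y', hy'⟩ := GLB_join (fun a => if a = 0 then z₁ else if a = 1 then z₂ else
    if a = 2 then GLB_tab u else y)
  refine ⟨y', fun A hA => ?_⟩
  have k1 : le z₁ A := le_trans' (by simpa using hy' 0) hA
  have k2 : le z₂ A := le_trans' (by simpa using hy' 1) hA
  have k3 : le (GLB_tab u) A := le_trans' (by simpa using hy' 2) hA
  have k4 : le y A := le_trans' (by simpa using hy' 3) hA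
  obtain ⟨X, hXA, hAX, hloc⟩ := hz₁ A k1
  refine ⟨X, hXA, hAX, ?_⟩
  have hXW := hX X (le_trans' k2 hAX)
  have hS : REIn (St (ch (W r X))) (fun n : ℕ => ∃ q : Code × Code × Code, encode q = n ∧
      q.2.2 ∈ u q.1 q.2.1) := by
    have hmu : REIn (St (ch (W r X))) (fun n => n ∈ St (GLB_tab u)) :=
      (turingReducible_iff.1 (le_trans' k3 (le_trans' hAX hXW))).1
    refine REIn.ex (S := fun (n : ℕ) (q : Code × Code × Code) => encode q = n ∧
      q.2.2 ∈ u q.1 q.2.1) (REIn.and ?_ ?_)
    · exact REIn.of_re (Pool.Agent.Helper446.RE.eq (by fun_prop) (by fun_prop))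
    · have h4 : REIn (St (ch (W r X))) (fun x : ℕ × (Code × Code × Code) =>
          encode x.2 ∈ St (GLB_tab u)) :=
        REIn.comp (S := fun n => n ∈ St (GLB_tab u)) hmu (by fun_prop)
      refine h4.of_eq fun x => ?_
      obtain ⟨x1, i, j, l⟩ := x
      exact GLB_tab_eq u i j l
  obtain ⟨e, he⟩ := K10 (ch (W r X)) _ hS
  have he' : ∀ i j l : Code, W e (ch (W r X)) (encode (i, j, l)) ↔ l ∈ u i j := by
    intro i j l
    rw [← he]
    constructor
    · rintro ⟨q, hq, hl⟩
      have : q = (i, j, l) := encode_injective hq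
      subst this
      exact hl
    · intro hl
      exact ⟨(i, j, l), rfl, hl⟩
  refine le_trans' (LOC_jump hXA) (hloc (ch (W r X)) hXW e ?_ ?_)
  · intro i j
    have h5 : {l : Code | W e (ch (W r X)) (encode (i, j, l))} = ↑(u i j) := by
      ext l
      exact he' i j l
    rw [h5, Set.encard_coe_eq_coe_finsetCard]
    exact_mod_cast hu i j
  · intro π i j hi hj
    obtain ⟨l, hl, hl'⟩ := hz i j π hi hj X (le_trans' (hy i j) (le_trans' k4 hAX))
    exact ⟨l, (he' i j l).2 hl, hl'⟩

/-- the operator `r` solves Post's problem on the cone above `z` -/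
def Post (r : Code) (z : ℕ → Bool) : Prop := ∀ X : ℕ → Bool, le z X →
  le X (ch (W r X)) ∧ ¬ le (ch (W r X)) X ∧ ¬ le (ch (J X)) (ch (W r X))

theorem t_GLB (hL : P_LOC) (r : Code) (z₀ : ℕ → Bool) (hr : Post r z₀) (k : ℕ) :
    ∃ π : Equiv.Perm ℕ, Computable π ∧ Computable π.symm ∧
      ∀ L : Finset Code, L.card ≤ k → ∀ z : ℕ → Bool, ∃ X : ℕ → Bool, le z X ∧
        ∀ l ∈ L, ¬ Red l (ch (W r X)) (ch (W r (X ∘ π))) := by
  by_contra hcon
  push Not at hcon
  obtain ⟨z, hz⟩ := GLB_cand hL r z₀ (fun X hX => (hr X hX).2.1) z₀ (fun X hX => (hr X hX).1) k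
    (fun π h1 h2 => by
      obtain ⟨L, hL, z, hz⟩ := hcon π h1 h2
      exact ⟨L, z, hL, hz⟩)
  obtain ⟨y, hy⟩ := GLB_join (fun a => if a = 0 then z₀ else z)
  have k1 : le z₀ y := by simpa using hy 0
  have k2 : le z y := by simpa using hy 1
  obtain ⟨X, -, hAX, hX⟩ := hz y k2
  exact (hr X (le_trans' k1 hAX)).2.2 hX

end Pool.Agent.N584.PI
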