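import Pool.Agent.N584.PI.Asm

/-!
The local theorem and the theorem on one permutation.
-/

set_option autoImplicit false

namespace Pool.Agent.N584.PI

open Nat.Partrec (Code)
open Encodable
open Pool.Agent.Helper446.Defs Pool.Agent.Helper446.Oracle
open Pool.Agent.H639.LU Pool.Agent.R616.DI Pool.Agent.Y579.PP Pool.Agent.H869R3.FN

/-- `i` is a program for the function `f` -/
def Prg (i : Code) (f : ℕ → ℕ) : Prop := ∀ n, i.eval n = Part.some (f n)

theorem LOC_prg (g : ℕ → ℕ → ℕ) (hg : Computable₂ g) :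
    ∃ κ : ℕ → Code, Computable κ ∧ ∀ d, Prg (κ d) (g d) := by
  have h1 : Computable (fun x : ℕ => g x.unpair.1 x.unpair.2) :=
    hg.comp (Computable.fst.comp Computable.unpair) (Computable.snd.comp Computable.unpair)
  obtain ⟨c, hc⟩ := Nat.Partrec.Code.exists_code.1 (Partrec.nat_iff.1 h1.partrec)
  refine ⟨fun d => Nat.Partrec.Code.curry c d,
    Nat.Partrec.Code.primrec₂_curry.to_comp.comp (Computable.const c) Computable.id,
    fun d n => ?_⟩
  rw [Nat.Partrec.Code.eval_curry, hc]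
  simp

theorem LOC_hat (h : P_HAT) (X : ℕ → Bool) : le X (hat X) ∧ le (hat X) X := by
  obtain ⟨⟨f, hf, hfX⟩, H, hH, hh⟩ := h
  refine ⟨K4.2.2.2 _ _ f hf (hfX X), ?_⟩
  obtain ⟨c, hc⟩ := OPR_red hH hh
  exact (le_iff _ _).2 ⟨c, hc X⟩

theorem LOC_jn {X Y Z : ℕ → Bool} (h1 : le X Z) (h2 : le Y Z) : le (jn 0 X Y) Z := by
  obtain ⟨c, hc⟩ := (le_iff _ _).1 h1
  obtain ⟨d, hd⟩ := (le_iff _ _).1 h2
  obtain ⟨e, he⟩ := red_join c d
  exact (le_iff _ _).2 ⟨e, he _ _ _ hc hd⟩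

theorem LOC_jn_right (X Y : ℕ → Bool) : le Y (jn 0 X Y) := by
  obtain ⟨c, hc⟩ := red_snd
  exact (le_iff _ _).2 ⟨c, hc X Y⟩

theorem LOC_jump {X Y : ℕ → Bool} (h : le Y X) : le (ch (J Y)) (ch (J X)) := by
  obtain ⟨c, hc⟩ := (le_iff _ _).1 h
  obtain ⟨l, hl⟩ := jump_unif c
  exact (le_iff _ _).2 ⟨l, hl X Y hc⟩

theorem LOC_perm {π : Equiv.Perm ℕ} (h1 : Computable π) (h2 : Computable π.symm) (X : ℕ → Bool) :
    le X (X ∘ π) ∧ le (X ∘ π) X :=
  ⟨K4.2.2.2 _ _ π.symm h2 (fun n => by simp), K4.2.2.2 _ _ π h1 (fun n => rfl)⟩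

/-- The local theorem. -/
def P_LOC : Prop :=
  ∀ (r : Code) (z₀ : ℕ → Bool), (∀ X, le z₀ X → ¬ le (ch (W r X)) X) → ∀ k : ℕ,
    ∃ z₁ : ℕ → Bool, ∀ A : ℕ → Bool, le z₁ A → ∃ X : ℕ → Bool, le X A ∧ le A X ∧
      ∀ V : ℕ → Bool, le X V → ∀ e : Code,
        (∀ i j : Code, {l : Code | W e V (encode (i, j, l))}.encard ≤ k) →
        (∀ (π : Equiv.Perm ℕ) (i j : Code), Prg i π → Prg j π.symm →
          ∃ l : Code, W e V (encode (i, j, l)) ∧ Red l V (ch (W r (X ∘ π)))) →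
        le (ch (J A)) V

theorem t_LOC (hC : P_CORE) (hP : P_PUL) (hH : P_HAT) (hM : P_CMP) (hS : P_CSB) : P_LOC := by
  intro r z₀ hr k
  obtain ⟨Pm, hPm, hPc⟩ := hS
  obtain ⟨hc1, hc2⟩ := hPc fF gG hM.1 hM.2
  obtain ⟨κ, hκ, hκ'⟩ := LOC_prg _ hc1
  obtain ⟨κ', hκ2, hκ2'⟩ := LOC_prg _ hc2
  have hHat := hH
  obtain ⟨-, H, hHc, hHh⟩ := hHat
  obtain ⟨ζ, d, hd, hmain⟩ := ASM_main hC hP hPm r z₀ hr hHc hHh (fun X => (LOC_hat hH X).1) k
  refine ⟨ζ, fun A hA => ⟨hat (jn 0 ζ A), ?_, ?_, fun V hV e hcard hred => ?_⟩⟩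
  · exact le_trans' (LOC_hat hH _).2 (LOC_jn hA (le_refl' A))
  · exact le_trans' (LOC_jn_right ζ A) (LOC_hat hH _).1
  · have hX0 : le (jn 0 ζ A) V := le_trans' (LOC_hat hH _).1 hV
    refine le_trans' (LOC_jump (LOC_jn_right ζ A)) ?_
    refine hmain (jn 0 ζ A) (jn_even ζ A) V hX0
      (fun ee l => W e V (encode (κ (d ee), κ' (d ee), l))) ?_ ?_ ?_
    · have hW : REIn (St V) (W e V) := (K5 K2).1 e V
      refine REIn.comp (S := W e V)
        (f := fun p : List ℕ × Code => encode (κ (d p.1), κ' (d p.1), p.2)) hW ?_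
      have h1 : Computable (fun p : List ℕ × Code => κ (d p.1)) :=
        hκ.comp (hd.comp Computable.fst)
      have h2 : Computable (fun p : List ℕ × Code => κ' (d p.1)) :=
        hκ2.comp (hd.comp Computable.fst)
      exact Computable.encode.comp (h1.pair (h2.pair Computable.snd))
    · intro ee
      have h4 := hcard (κ (d ee)) (κ' (d ee))
      have hfin : {l : Code | W e V (encode (κ (d ee), κ' (d ee), l))}.Finite :=
        Set.finite_of_encard_le_coe h4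
      refine ⟨hfin.toFinset, ?_, fun l hl => ?_⟩
      · rw [hfin.encard_eq_coe_toFinset_card] at h4
        exact_mod_cast h4
      · rw [Set.Finite.mem_toFinset]
        exact hl
    · intro ee _ Y hY
      obtain ⟨l, hl, hl'⟩ := hred (Pm (fF (d ee)) (gG (d ee))) (κ (d ee)) (κ' (d ee))
        (hκ' (d ee)) (hκ2' (d ee))
      refine ⟨l, hl, ?_⟩
      have e1 : hat Y = hat (jn 0 ζ A) ∘ (Pm (fF (d ee)) (gG (d ee))) := funext hY
      rw [e1]
      exact hl'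

end Pool.Agent.N584.PI
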