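import Pool.Agent.N584.PI.Stm
import Pool.Agent.R616.DI.Cone

/-!
Total functionals as programs, and operators.
-/

set_option autoImplicit false

namespace Pool.Agent.N584.PI

open Nat.Partrec (Code)
open Encodable
open Pool.Agent.Helper446.Defs Pool.Agent.Helper446.Oracle
open Pool.Agent.H639.LU Pool.Agent.R616.DI Pool.Agent.Y579.PP Pool.Agent.H869R3.FN

theorem OPR_get (X : ℕ → Bool) {n t : ℕ} (h : n < t) : (seg X t).getD n false = X n := by
  simp [seg, List.getD, h]

theorem t_RED : P_RED := by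
  intro B Θ hB hΘ
  have h1 : Computable (fun p : ℕ × Str => (Θ (p.1 + 1) p.2).getD p.1 false) :=
    ((Primrec.list_getD false).to_comp).comp (hΘ.comp
      (g := fun p : ℕ × Str => (p.1 + 1, p.2)) (by fun_prop)) Computable.fst
  have h2 : Computable (fun n : ℕ => B (n + 1)) := hB.comp Computable.succ
  obtain ⟨c, hc⟩ := exists_fun h1 h2
  refine ⟨c, fun X Y h => (hc X Y).2 fun n => ?_⟩
  show Y n = (Θ (n + 1) (seg X (B (n + 1)))).getD n false
  rw [h (n + 1) (B (n + 1)) le_rfl, OPR_get Y (by omega)]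

theorem OPR_take (X : ℕ → Bool) {t s : ℕ} (h : t ≤ s) : (seg X s).take t = seg X t := by
  unfold seg
  rw [← List.map_take, List.take_range, min_eq_left h]

/-- the prefix functional as a truth-table functional -/
theorem OPR_tt {h : (ℕ → Bool) → ℕ → Bool} {H : Str → Str}
    (hh : ∀ X t, H (seg X t) = seg (h X) t) (X : ℕ → Bool) :
    TT (fun t => t) (fun t w => (H w).take t) X (h X) := by
  intro t s hs
  show (H (seg X s)).take t = seg (h X) t
  rw [hh, OPR_take _ hs]

theorem OPR_red {h : (ℕ → Bool) → ℕ → Bool} {H : Str → Str} (hH : Computable H)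
    (hh : ∀ X t, H (seg X t) = seg (h X) t) : ∃ c : Code, ∀ X, Red c X (h X) := by
  obtain ⟨c, hc⟩ := t_RED (fun t => t) (fun t w => (H w).take t) Computable.id
    (Primrec.list_take.to_comp.comp Computable.fst (hH.comp Computable.snd))
  exact ⟨c, fun X => hc X (h X) (OPR_tt hh X)⟩

theorem t_OPR : P_OPR := by
  intro h H hH hh r
  obtain ⟨c, hc⟩ := OPR_red hH hh
  obtain ⟨r', hr'⟩ := w_comp r c
  exact ⟨r', fun X n => hr' X (h X) (hc X) n⟩

end Pool.Agent.N584.PI
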