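import Pool.Agent.N584.PI.Glb

/-!
Two computable permutations.
-/

set_option autoImplicit false

namespace Pool.Agent.N584.PI

open Nat.Partrec (Code)
open Encodable
open Pool.Agent.Helper446.Defs Pool.Agent.Helper446.Oracle
open Pool.Agent.H639.LU Pool.Agent.R616.DI Pool.Agent.Y579.PP Pool.Agent.H869R3.FN

/-- a permutation with the orbit `… 3, 1, 0, 2, 4, …` -/
def sftF (n : ℕ) : ℕ := if n % 2 = 0 then n + 2 else if n = 1 then 0 else n - 2

def sftG (n : ℕ) : ℕ := if n % 2 = 1 then n + 2 else if n = 0 then 1 else n - 2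

theorem sftF_even {n : ℕ} (h : n % 2 = 0) : sftF n = n + 2 := by
  unfold sftF; rw [if_pos h]

theorem sftF_one : sftF 1 = 0 := rfl

theorem sftF_odd {n : ℕ} (h : n % 2 = 1) (h1 : n ≠ 1) : sftF n = n - 2 := by
  unfold sftF; rw [if_neg (by omega), if_neg h1]

theorem sftG_odd {n : ℕ} (h : n % 2 = 1) : sftG n = n + 2 := by
  unfold sftG; rw [if_pos h]

theorem sftG_zero : sftG 0 = 1 := rfl

theorem sftG_even {n : ℕ} (h : n % 2 = 0) (h1 : n ≠ 0) : sftG n = n - 2 := by
  unfold sftG; rw [if_neg (by omega), if_neg h1]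

theorem sft_GF (n : ℕ) : sftG (sftF n) = n := by
  rcases Nat.mod_two_eq_zero_or_one n with h | h
  · rw [sftF_even h, sftG_even (by omega) (by omega)]
    omega
  · by_cases h1 : n = 1
    · rw [h1, sftF_one, sftG_zero]
    · rw [sftF_odd h h1, sftG_odd (by omega)]
      omega

theorem sft_FG (n : ℕ) : sftF (sftG n) = n := by
  rcases Nat.mod_two_eq_zero_or_one n with h | h
  · by_cases h1 : n = 0
    · rw [h1, sftG_zero, sftF_one]
    · rw [sftG_even h h1, sftF_even (by omega)]
      omega
  · rw [sftG_odd h, sftF_odd (by omega) (by omega)]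
    omega

/-- the shift of the columns -/
def alp : Equiv.Perm ℕ where
  toFun a := Nat.pair (sftF a.unpair.1) a.unpair.2
  invFun a := Nat.pair (sftG a.unpair.1) a.unpair.2
  left_inv a := by simp [sft_GF]
  right_inv a := by simp [sft_FG]

/-- the permutation which acts on the column `2 n` by `π n` -/
def bet (π : ℕ → Equiv.Perm ℕ) : Equiv.Perm ℕ where
  toFun a := if a.unpair.1 % 2 = 0 then Nat.pair a.unpair.1 (π (a.unpair.1 / 2) a.unpair.2) else a
  invFun a := if a.unpair.1 % 2 = 0 then
    Nat.pair a.unpair.1 ((π (a.unpair.1 / 2)).symm a.unpair.2) else a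
  left_inv a := by
    by_cases h : a.unpair.1 % 2 = 0
    · simp [h]
    · simp [h]
  right_inv a := by
    by_cases h : a.unpair.1 % 2 = 0
    · simp [h]
    · simp [h]

theorem TWO_sftF : Computable sftF := by
  have h : Primrec sftF := by
    unfold sftF
    exact Primrec.ite (Primrec.eq.comp (Primrec.nat_mod.comp Primrec.id (Primrec.const 2))
      (Primrec.const 0)) (Primrec.nat_add.comp Primrec.id (Primrec.const 2))
      (Primrec.ite (Primrec.eq.comp Primrec.id (Primrec.const 1)) (Primrec.const 0)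
        (Primrec.nat_sub.comp Primrec.id (Primrec.const 2)))
  exact h.to_comp

theorem TWO_sftG : Computable sftG := by
  have h : Primrec sftG := by
    unfold sftG
    exact Primrec.ite (Primrec.eq.comp (Primrec.nat_mod.comp Primrec.id (Primrec.const 2))
      (Primrec.const 1)) (Primrec.nat_add.comp Primrec.id (Primrec.const 2))
      (Primrec.ite (Primrec.eq.comp Primrec.id (Primrec.const 0)) (Primrec.const 1)
        (Primrec.nat_sub.comp Primrec.id (Primrec.const 2)))
  exact h.to_comp

theorem TWO_u1 : Computable (fun a : ℕ => a.unpair.1) := Computable.fst.comp Computable.unpair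

theorem TWO_u2 : Computable (fun a : ℕ => a.unpair.2) := Computable.snd.comp Computable.unpair

theorem alp_comp : Computable alp := by
  have h : Computable (fun a : ℕ => Nat.pair (sftF a.unpair.1) a.unpair.2) :=
    Primrec₂.natPair.to_comp.comp (TWO_sftF.comp TWO_u1) TWO_u2
  exact h

theorem alp_symm_comp : Computable alp.symm := by
  have h : Computable (fun a : ℕ => Nat.pair (sftG a.unpair.1) a.unpair.2) :=
    Primrec₂.natPair.to_comp.comp (TWO_sftG.comp TWO_u1) TWO_u2
  exact h

theorem TWO_col (g : ℕ → ℕ → ℕ) (hg : Computable₂ g) : Computable (fun a : ℕ =>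
    if a.unpair.1 % 2 = 0 then Nat.pair a.unpair.1 (g (a.unpair.1 / 2) a.unpair.2) else a) := by
  have h1 : Computable (fun a : ℕ => decide (a.unpair.1 % 2 = 0)) :=
    ((Primrec.eq.decide.comp (Primrec.nat_mod.comp (Primrec.fst.comp Primrec.unpair)
      (Primrec.const 2)) (Primrec.const 0))).to_comp
  have h2 : Computable (fun a : ℕ => a.unpair.1 / 2) :=
    (Primrec.nat_div.comp (Primrec.fst.comp Primrec.unpair) (Primrec.const 2)).to_comp
  have h3 : Computable (fun a : ℕ => Nat.pair a.unpair.1 (g (a.unpair.1 / 2) a.unpair.2)) :=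
    Primrec₂.natPair.to_comp.comp TWO_u1 (hg.comp h2 TWO_u2)
  refine (Computable.cond h1 h3 Computable.id).of_eq fun a => ?_
  by_cases h : a.unpair.1 % 2 = 0 <;> simp [h]

theorem bet_comp {π : ℕ → Equiv.Perm ℕ} (h : Computable₂ (fun n p => π n p)) :
    Computable (bet π) := TWO_col (fun n p => π n p) h

theorem bet_symm_comp {π : ℕ → Equiv.Perm ℕ} (h : Computable₂ (fun n p => (π n).symm p)) :
    Computable (bet π).symm := TWO_col (fun n p => (π n).symm p) h

/-- the oracle in the column `0` -/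
def col (X : ℕ → Bool) (a : ℕ) : Bool := if a.unpair.1 = 0 then X a.unpair.2 else false

theorem TWO_iter (n : ℕ) : sftF^[n] 0 = 2 * n := by
  induction n with
  | zero => rfl
  | succ n ih =>
    rw [Function.iterate_succ_apply', ih]
    unfold sftF
    rw [if_pos (by omega)]
    omega

theorem alp_iter (n a : ℕ) : alp^[n] a = Nat.pair (sftF^[n] a.unpair.1) a.unpair.2 := by
  induction n with
  | zero => simp
  | succ n ih =>
    rw [Function.iterate_succ_apply', ih, Function.iterate_succ_apply']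
    show Nat.pair (sftF (Nat.unpair _).1) (Nat.unpair _).2 = _
    rw [Nat.unpair_pair]

theorem alp_symm_iter (n a : ℕ) :
    alp.symm^[n] a = Nat.pair (sftG^[n] a.unpair.1) a.unpair.2 := by
  induction n with
  | zero => simp
  | succ n ih =>
    rw [Function.iterate_succ_apply', ih, Function.iterate_succ_apply']
    show Nat.pair (sftG (Nat.unpair _).1) (Nat.unpair _).2 = _
    rw [Nat.unpair_pair]

theorem sft_iter_GF (n a : ℕ) : sftG^[n] (sftF^[n] a) = a := by
  have : Function.LeftInverse sftG sftF := sft_GF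
  exact this.iterate n a

theorem TWO_col_eq (π : ℕ → Equiv.Perm ℕ) (X : ℕ → Bool) (n : ℕ) :
    ((col X ∘ alp.symm^[n]) ∘ bet π) ∘ alp^[n] = col (X ∘ π n) := by
  funext a
  simp only [Function.comp_apply]
  rw [alp_iter, alp_symm_iter]
  by_cases h0 : a.unpair.1 = 0
  · rw [h0, TWO_iter]
    have e1 : bet π (Nat.pair (2 * n) a.unpair.2) = Nat.pair (2 * n) (π n a.unpair.2) := by
      show (if (Nat.unpair (Nat.pair (2 * n) a.unpair.2)).1 % 2 = 0 then _ else _) = _
      simp
    rw [e1]
    unfold col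
    rw [if_pos h0, Nat.unpair_pair, Nat.unpair_pair]
    have e2 : sftG^[n] (2 * n) = 0 := by rw [← TWO_iter n]; exact sft_iter_GF n 0
    simp only [e2, if_true, Function.comp_apply]
  · have e1 : (bet π (Nat.pair (sftF^[n] a.unpair.1) a.unpair.2)).unpair.1 =
        sftF^[n] a.unpair.1 := by
      show (Nat.unpair (if (Nat.unpair (Nat.pair (sftF^[n] a.unpair.1) a.unpair.2)).1 % 2 = 0
        then _ else _)).1 = _
      split_ifs <;> simp
    rw [e1, sft_iter_GF]
    unfold col
    rw [if_neg h0, Nat.unpair_pair, if_neg h0]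

/-- the initial segments of `col X` -/
def colS (w : Str) : Str :=
  (List.range w.length).map fun a => if a.unpair.1 = 0 then w.getD a.unpair.2 false else false

theorem colS_seg (X : ℕ → Bool) (t : ℕ) : colS (seg X t) = seg (col X) t := by
  unfold colS
  rw [seg_len]
  unfold seg
  refine List.map_congr_left fun a ha => ?_
  have ha' := List.mem_range.1 ha
  have h2 : a.unpair.2 < t := lt_of_le_of_lt (Nat.unpair_right_le a) ha'
  unfold col
  by_cases h : a.unpair.1 = 0
  · rw [if_pos h, if_pos h]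
    exact OPR_get X h2
  · rw [if_neg h, if_neg h]

theorem colS_comp : Computable colS := by
  have h1 : Primrec₂ (fun (w : Str) (a : ℕ) =>
      if a.unpair.1 = 0 then w.getD a.unpair.2 false else false) := by
    refine Primrec.ite (Primrec.eq.comp (Primrec.fst.comp (Primrec.unpair.comp Primrec.snd))
      (Primrec.const 0)) ?_ (Primrec.const false)
    exact (Primrec.list_getD false).comp Primrec.fst
      (Primrec.snd.comp (Primrec.unpair.comp Primrec.snd))
  exact (Primrec.list_map (Primrec.list_range.comp Primrec.list_length) h1).to_comp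

theorem le_col (X : ℕ → Bool) : le X (col X) :=
  K4.2.2.2 _ _ (fun n => Nat.pair 0 n) (by fun_prop) (fun n => by simp [col])

/-- iterated programs -/
def pw (κ : Code × Code → Code) (i c : Code) (n : ℕ) : Code :=
  Nat.rec i (fun _ q => κ (q, c)) n

theorem pw_comp {κ : Code × Code → Code} (hκ : Computable κ) (i c : Code) :
    Computable (pw κ i c) := by
  have h : Computable₂ (fun (_ : ℕ) (q : ℕ × Code) => κ (q.2, c)) :=
    hκ.comp ((Computable.snd.comp Computable.snd).pair (Computable.const c))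
  exact Computable.nat_rec Computable.id (Computable.const i) h

theorem pw_red {κ : Code × Code → Code}
    (hκ : ∀ (c d : Code) (X Y Z : ℕ → Bool), Red c X Y → Red d Y Z → Red (κ (c, d)) X Z)
    {i c : Code} (G : (ℕ → Bool) → ℕ → Bool) (X : ℕ → Bool) (f : ℕ → ℕ)
    (hi : Red i (G X) (G X))
    (hc : ∀ n, Red c (G (X ∘ f^[n])) (G ((X ∘ f^[n]) ∘ f))) (n : ℕ) :
    Red (pw κ i c n) (G X) (G (X ∘ f^[n])) := by
  induction n with
  | zero => exact hi
  | succ n ih =>
    have e : X ∘ f^[n + 1] = (X ∘ f^[n]) ∘ f := by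
      funext a
      simp [Function.iterate_succ_apply]
    rw [e]
    exact hκ _ _ _ _ _ ih (hc n)

theorem TWO_perm_iter {f : ℕ → ℕ} (hf : Computable f) {g : ℕ → ℕ}
    (hg : Computable g) (hgf : Function.LeftInverse g f) (hfg : Function.LeftInverse f g)
    (X : ℕ → Bool) (n : ℕ) : le X (X ∘ f^[n]) := by
  induction n with
  | zero => exact le_refl' X
  | succ n ih =>
    have e : X ∘ f^[n + 1] = (X ∘ f^[n]) ∘ f := by
      funext a
      simp [Function.iterate_succ_apply]
    rw [e]
    exact le_trans' ih (K4.2.2.2 _ _ g hg (fun m => by simp [hfg m]))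

/-- The theorem on two permutations. -/
def P_TWO : Prop :=
  ∃ α β : Equiv.Perm ℕ, (Computable α ∧ Computable α.symm ∧ Computable β ∧ Computable β.symm) ∧
    ∀ (r : Code) (z₀ : ℕ → Bool), Post r z₀ →
      ¬ ∃ (z : ℕ → Bool) (a a' : Code) (B : Finset Code), ∀ X : ℕ → Bool, le z X →
        Red a (ch (W r X)) (ch (W r (X ∘ α))) ∧ Red a' (ch (W r X)) (ch (W r (X ∘ α.symm))) ∧
        ∃ b ∈ B, Red b (ch (W r X)) (ch (W r (X ∘ β)))

theorem t_TWO (hC : P_CORE) (hP : P_PUL) (hH : P_HAT) (hM : P_CMP) (hS : P_CSB) : P_TWO := by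
  classical
  obtain ⟨Pm, hPm, hPc⟩ := hS
  obtain ⟨hc1, hc2⟩ := hPc fF gG hM.1 hM.2
  set π : ℕ → Equiv.Perm ℕ := fun d => Pm (fF d) (gG d) with hπ
  refine ⟨alp, bet π, ⟨alp_comp, alp_symm_comp, bet_comp hc1, bet_symm_comp hc2⟩,
    fun r z₀ hr => ?_⟩
  rintro ⟨z, a, a', B, hz⟩
  have hHat := hH
  obtain ⟨-, H, hHc, hHh⟩ := hHat
  have hHc' : Computable (fun w => colS (H w)) := colS_comp.comp hHc
  have hHh' : ∀ X t, colS (H (seg X t)) = seg (col (hat X)) t := by
    intro X t
    rw [hHh, colS_seg]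
  have hle1 : ∀ X, le X (col (hat X)) := fun X => le_trans' (LOC_hat hH X).1 (le_col _)
  obtain ⟨cH, hcH⟩ := OPR_red hHc' hHh'
  have hle2 : ∀ X, le (col (hat X)) X := fun X => (le_iff _ _).2 ⟨cH, hcH X⟩
  obtain ⟨ζ, d, hd, hmain⟩ := ASM_main hC hP hPm r z₀ (fun X hX => (hr X hX).2.1) hHc' hHh' hle1
    B.card
  obtain ⟨A, hA⟩ := GLB_join (fun a => if a = 0 then z₀ else if a = 1 then z else ζ)
  have k1 : le z₀ A := by simpa using hA 0
  have k2 : le z A := by simpa using hA 1
  have k3 : le ζ A := by simpa using hA 2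
  have hAX : le A (jn 0 ζ A) := LOC_jn_right ζ A
  set X := jn 0 ζ A with hX
  have hz0 : le z₀ (col (hat X)) := le_trans' k1 (le_trans' hAX (hle1 X))
  have hzz : le z (col (hat X)) := le_trans' k2 (le_trans' hAX (hle1 X))
  obtain ⟨hp1, hp2, hp3⟩ := hr _ hz0
  apply hp3
  refine le_trans' (LOC_jump (hle2 X)) ?_
  obtain ⟨κ, hκ, hκ'⟩ := K7
  obtain ⟨idc, hidc⟩ : ∃ c : Code, ∀ Y : ℕ → Bool, Red c Y Y := by
    obtain ⟨c, hc⟩ := exists_fun (δ := fun p : ℕ × Str => p.2.getD p.1 false)
      (u := fun n => n + 1) (((Primrec.list_getD false).comp Primrec.snd Primrec.fst).to_comp)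
      Computable.succ
    exact ⟨c, fun Y => (hc Y Y).2 fun n => (OPR_get Y (by omega)).symm⟩
  set F : ℕ → Code → Code := fun n b => κ (κ (pw κ idc a' n, b), pw κ idc a n) with hF
  have hFc : Computable₂ F := by
    have h1 : Computable (fun p : ℕ × Code => pw κ idc a' p.1) :=
      (pw_comp hκ idc a').comp Computable.fst
    have h2 : Computable (fun p : ℕ × Code => pw κ idc a p.1) :=
      (pw_comp hκ idc a).comp Computable.fst
    exact hκ.comp ((hκ.comp (h1.pair Computable.snd)).pair h2)
  refine hmain X (jn_even ζ A) (ch (W r (col (hat X)))) (le_trans' (hle1 X) hp1)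
    (fun ee l => ∃ b ∈ B.toList, l = F (d ee) b) ?_ ?_ ?_
  · refine REIn.of_re ?_
    refine Pool.Agent.Helper446.RE.ex_mem (p := fun (q : List ℕ × Code) (b : Code) =>
      q.2 = F (d q.1) b) (l := fun _ => B.toList) ?_ (Computable.const _)
    exact Pool.Agent.Helper446.RE.eq (Computable.snd.comp Computable.fst)
      (hFc.comp (hd.comp (Computable.fst.comp Computable.fst)) Computable.snd)
  · intro ee
    refine ⟨B.image (F (d ee)), Finset.card_image_le, ?_⟩
    rintro l ⟨b, hb, rfl⟩
    exact Finset.mem_image_of_mem _ (Finset.mem_toList.1 hb)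
  · intro ee _ Y hY
    set n := d ee with hn
    set X₀ := col (hat X) with hX0
    have q1 : ∀ k, le z (X₀ ∘ alp.symm^[k]) := fun k => le_trans' hzz
      (TWO_perm_iter alp_symm_comp alp_comp (fun m => alp.apply_symm_apply m)
        (fun m => alp.symm_apply_apply m) X₀ k)
    have r1 : Red (pw κ idc a' n) (ch (W r X₀)) (ch (W r (X₀ ∘ alp.symm^[n]))) :=
      pw_red hκ' (fun X => ch (W r X)) X₀ alp.symm (hidc _) (fun k => (hz _ (q1 k)).2.1) n
    obtain ⟨b, hb, hb'⟩ := (hz _ (q1 n)).2.2
    set X₁ := (X₀ ∘ alp.symm^[n]) ∘ bet π with hX1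
    have q2 : le z X₁ := le_trans' (q1 n) (LOC_perm (bet_comp hc1) (bet_symm_comp hc2) _).1
    have q3 : ∀ k, le z (X₁ ∘ alp^[k]) := fun k => le_trans' q2
      (TWO_perm_iter alp_comp alp_symm_comp (fun m => alp.symm_apply_apply m)
        (fun m => alp.apply_symm_apply m) X₁ k)
    have r2 : Red (pw κ idc a n) (ch (W r X₁)) (ch (W r (X₁ ∘ alp^[n]))) :=
      pw_red hκ' (fun X => ch (W r X)) X₁ alp (hidc _) (fun k => (hz _ (q3 k)).1) n
    refine ⟨F n b, ⟨b, Finset.mem_toList.2 hb, rfl⟩, ?_⟩
    have e1 : col (hat Y) = X₁ ∘ alp^[n] := by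
      rw [hX1, hX0, TWO_col_eq]
      congr 1
      exact funext hY
    rw [e1]
    exact hκ' _ _ _ _ _ (hκ' _ _ _ _ _ r1 hb') r2

end Pool.Agent.N584.PI
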